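import Mathlib

/-!
# Sign functions on simply connected spaces
-/

set_option autoImplicit false

noncomputable section

open Set Filter Topology

namespace Pool.Agent.W556.Cap

section
variable {B : Type*} [TopologicalSpace B] (U : B → Set B) (s : B → B → Bool)

/-- the double cover associated with local sign functions -/
def signCore (hU : ∀ b, IsOpen (U b)) (hmem : ∀ b, b ∈ U b)
    (hs : ∀ i j, ∀ x ∈ U i ∩ U j, ∀ᶠ y in 𝓝 x, xor (s i y) (s j y) = xor (s i x) (s j x)) :
    FiberBundleCore B B Bool where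
  baseSet := U
  isOpen_baseSet := hU
  indexAt := id
  mem_baseSet_at := hmem
  coordChange i j x b := xor b (xor (s i x) (s j x))
  coordChange_self i x _ v := by simp
  continuousOn_coordChange i j := by
    rintro ⟨x, b⟩ ⟨hx, -⟩
    apply ContinuousAt.continuousWithinAt
    have h1 : (fun p : B × Bool => xor p.2 (xor (s i p.1) (s j p.1))) =ᶠ[𝓝 (x, b)]
        fun p => xor p.2 (xor (s i x) (s j x)) := by
      have h2 := hs i j x hx
      have h3 : ∀ᶠ p : B × Bool in 𝓝 (x, b), xor (s i p.1) (s j p.1) = xor (s i x) (s j x) :=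
        (continuous_fst.tendsto (x, b)).eventually h2
      filter_upwards [h3] with p hp
      rw [hp]
    refine ContinuousAt.congr_of_eventuallyEq ?_ h1
    have h4 : Continuous (fun b : Bool => xor b (xor (s i x) (s j x))) :=
      continuous_of_discreteTopology
    exact (h4.comp continuous_snd).continuousAt
  coordChange_comp i j k x _ v := by
    cases v <;> cases s i x <;> cases s j x <;> cases s k x <;> rfl

theorem exists_global_sign [SimplyConnectedSpace B] [LocallyPathConnectedSpace B]
    (hU : ∀ b, IsOpen (U b)) (hmem : ∀ b, b ∈ U b)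
    (hs : ∀ i j, ∀ x ∈ U i ∩ U j, ∀ᶠ y in 𝓝 x, xor (s i y) (s j y) = xor (s i x) (s j x)) :
    ∃ σ : B → Bool, ∀ i, ∀ x ∈ U i, ∀ᶠ y in 𝓝 x, xor (σ y) (s i y) = xor (σ x) (s i x) := by
  let Z := signCore U s hU hmem hs
  have hcov : IsCoveringMap (Bundle.TotalSpace.proj : Bundle.TotalSpace Bool Z.Fiber → B) :=
    FiberBundle.isCoveringMap
  obtain ⟨b0⟩ : Nonempty B := inferInstance
  obtain ⟨F, ⟨-, hF⟩, -⟩ := hcov.existsUnique_continuousMap_lifts (ContinuousMap.id B) b0
    (⟨b0, (true : Bool)⟩ : Bundle.TotalSpace Bool Z.Fiber) rfl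
  have hF1 : ∀ x, (F x).proj = x := fun x => congrFun hF x
  let v : B → Bool := fun x => (F x).2
  refine ⟨fun x => xor (v x) (s x x), fun i x hx => ?_⟩
  have ht : ∀ y, (Z.localTriv i (F y)).2 = xor (v y) (xor (s y y) (s i y)) := by
    intro y
    have h1 : (Z.localTriv i (F y)).2 =
        xor (v y) (xor (s (F y).proj (F y).proj) (s i (F y).proj)) := rfl
    rw [h1, hF1 y]
  have hc : ContinuousAt (fun y => (Z.localTriv i (F y)).2) x := by
    have h2 : ContinuousAt (Z.localTriv i) (F x) := by
      apply (Z.localTriv i).continuousAt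
      rw [(Z.localTriv i).mem_source]
      show (F x).proj ∈ U i
      rw [hF1]; exact hx
    exact continuous_snd.continuousAt.comp (h2.comp F.continuous.continuousAt)
  have hev : ∀ᶠ y in 𝓝 x, (Z.localTriv i (F y)).2 ∈ ({(Z.localTriv i (F x)).2} : Set Bool) :=
    hc ((isOpen_discrete _).mem_nhds rfl)
  filter_upwards [hev] with y hy
  rw [mem_singleton_iff] at hy
  rw [ht, ht] at hy
  rw [Bool.xor_assoc, Bool.xor_assoc]
  exact hy

end

end Pool.Agent.W556.Cap
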