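import Mathlib

/-!
# Minimal surfaces in complete three-dimensional hypersurfaces of Euclidean four-space
-/

set_option autoImplicit false

noncomputable section

open Set Filter Topology MeasureTheory Metric
open scoped ContDiff

namespace Pool.Agent.W556.Cap

/-- Euclidean four-space. -/
abbrev E4 := EuclideanSpace ℝ (Fin 4)

/-- The standard orthonormal basis of Euclidean four-space. -/
abbrev bas (i : Fin 4) : E4 := EuclideanSpace.single i (1 : ℝ)

/-- The tangent space at `p` of a subset `S` of Euclidean space: the span of its tangent cone. -/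
def tangentSpace (S : Set E4) (p : E4) : Submodule ℝ E4 :=
  Submodule.span ℝ (tangentConeAt ℝ S p)

/-- `M` is a connected smooth hypersurface of Euclidean four-space which is closed as a subset
(so that, with the induced Riemannian metric, it is a complete Riemannian manifold of dimension
`3`), and `N` is a unit normal field of `M`, smooth in a neighbourhood of `M`. -/
structure IsCompleteHypersurface (M : Set E4) (N : E4 → E4) : Prop where
  isClosed : IsClosed M
  isConnected : IsConnected M
  smooth : ∀ p ∈ M, ∃ U : Set E4, IsOpen U ∧ p ∈ U ∧ ∃ f : E4 → ℝ, ContDiffOn ℝ ∞ f U ∧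
    fderiv ℝ f p ≠ 0 ∧ ∀ q ∈ U, (q ∈ M ↔ f q = 0)
  normal_smooth : ∃ U : Set E4, IsOpen U ∧ M ⊆ U ∧ ContDiffOn ℝ ∞ N U
  normal_norm : ∀ p ∈ M, ‖N p‖ = 1
  normal_inner : ∀ p ∈ M, ∀ v ∈ tangentSpace M p, inner ℝ (N p) v = 0

/-- The second fundamental form of a hypersurface with unit normal field `N`. -/
def secondFund (N : E4 → E4) (p v w : E4) : ℝ := inner ℝ (fderiv ℝ N p v) w

/-- The Ricci curvature `Ric(v, v)` of the hypersurface `M`, for `v` tangent to `M` at `p`, by the
Gauss equation: the sum over an orthonormal frame `e_i` of the tangent space of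
`B(e_i, e_i) B(v, v) - B(e_i, v)²`, where `B` is the second fundamental form (the sum is expressed
with the orthogonal projections of the standard basis to the tangent space). -/
def ricci (M : Set E4) (N : E4 → E4) (p v : E4) : ℝ :=
  ∑ i : Fin 4,
    (secondFund N p ((tangentSpace M p).starProjection (bas i))
        ((tangentSpace M p).starProjection (bas i)) * secondFund N p v v -
      secondFund N p ((tangentSpace M p).starProjection (bas i)) v ^ 2)

/-- `Γ` is an embedded surface without boundary in `M`, closed as a subset: near each of its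
points it is the zero set in `M` of a smooth function whose differential does not vanish on the
tangent space of `M`. -/
structure IsEmbeddedSurface (M Γ : Set E4) : Prop where
  subset : Γ ⊆ M
  isClosed : IsClosed Γ
  smooth : ∀ p ∈ Γ, ∃ U : Set E4, IsOpen U ∧ p ∈ U ∧ ∃ g : E4 → ℝ, ContDiffOn ℝ ∞ g U ∧
    (∃ v ∈ tangentSpace M p, fderiv ℝ g p v ≠ 0) ∧ ∀ q ∈ U, (q ∈ Γ ↔ q ∈ M ∧ g q = 0)

/-- The normal line of the surface `Γ` in `M` at `p`: the vectors tangent to `M` and orthogonal to
`Γ`. -/
def normalLine (M Γ : Set E4) (p : E4) : Submodule ℝ E4 :=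
  tangentSpace M p ⊓ (tangentSpace Γ p)ᗮ

/-- The normal bundle of `Γ` in `M` is trivial: there is a continuous unit normal field. -/
def IsTwoSided (M Γ : Set E4) : Prop :=
  ∃ ν : E4 → E4, ContinuousOn ν Γ ∧ ∀ p ∈ Γ, ‖ν p‖ = 1 ∧ ν p ∈ normalLine M Γ p

/-- `M` contains no one-sided embedded surface. -/
def HasNoOneSidedSurface (M : Set E4) : Prop :=
  ∀ Γ : Set E4, IsEmbeddedSurface M Γ → IsTwoSided M Γ

/-- The divergence of the vector field `X` along the surface `Γ`: the trace over the tangent plane
of the derivative of `X`. -/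
def surfaceDiv (Γ : Set E4) (X : E4 → E4) (p : E4) : ℝ :=
  ∑ i : Fin 4, inner ℝ (fderiv ℝ X p ((tangentSpace Γ p).starProjection (bas i)))
    ((tangentSpace Γ p).starProjection (bas i))

/-- `Γ` is a nonempty embedded minimal surface of finite area in `M`, minimality being the
vanishing of the first variation of area for all compactly supported vector fields of `M`. -/
structure IsFiniteAreaMinimal (M Γ : Set E4) : Prop where
  nonempty : Γ.Nonempty
  embedded : IsEmbeddedSurface M Γ
  finite_area : (μH[2] : Measure E4) Γ < ⊤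
  minimal : ∀ X : E4 → E4, ContDiff ℝ ∞ X → HasCompactSupport X →
    (∀ p ∈ M, X p ∈ tangentSpace M p) → ∫ p in Γ, surfaceDiv Γ X p ∂(μH[2] : Measure E4) = 0

/-- `V` is a compactly supported normal variation of the surface `Γ` in `M`. -/
structure IsNormalVariation (M Γ : Set E4) (V : E4 → E4) : Prop where
  smooth : ContDiff ℝ ∞ V
  compact : HasCompactSupport V
  normal : ∀ p ∈ Γ, V p ∈ normalLine M Γ p

/-- The integrand `|∇^⊥ V|² - |⟨A, V⟩|² - Ric(V, V)` of the second variation of area; `∇^⊥ V` and
`⟨A, V⟩` are the normal and the tangential parts of the derivative of `V` along `Γ`. -/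
def secondVariationDensity (M : Set E4) (N : E4 → E4) (Γ : Set E4) (V : E4 → E4) (p : E4) : ℝ :=
  ∑ i : Fin 4, ‖(normalLine M Γ p).starProjection
      (fderiv ℝ V p ((tangentSpace Γ p).starProjection (bas i)))‖ ^ 2
    - ∑ i : Fin 4, ‖(tangentSpace Γ p).starProjection
      (fderiv ℝ V p ((tangentSpace Γ p).starProjection (bas i)))‖ ^ 2
    - ricci M N p (V p)

/-- The second variation of area of the minimal surface `Γ` for the normal variation `V`. -/
def secondVariation (M : Set E4) (N : E4 → E4) (Γ : Set E4) (V : E4 → E4) : ℝ :=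
  ∫ p in Γ, secondVariationDensity M N Γ V p ∂(μH[2] : Measure E4)

/-- The Morse index of `Γ` is at least `k`: the second variation of area is negative definite on
some `k`-dimensional space of compactly supported normal variations. -/
def MorseIndexAtLeast (M : Set E4) (N : E4 → E4) (Γ : Set E4) (k : ℕ) : Prop :=
  ∃ V : Fin k → E4 → E4, (∀ i, IsNormalVariation M Γ (V i)) ∧
    ∀ c : Fin k → ℝ, c ≠ 0 → secondVariation M N Γ (fun x => ∑ i, c i • V i x) < 0

/-- The Morse index of `Γ` is equal to one. -/
def HasMorseIndexOne (M : Set E4) (N : E4 → E4) (Γ : Set E4) : Prop :=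
  MorseIndexAtLeast M N Γ 1 ∧ ¬ MorseIndexAtLeast M N Γ 2

/-- The Hessian of the restriction to `M` of the function `f`. -/
def hessian (N : E4 → E4) (f : E4 → ℝ) (p v w : E4) : ℝ :=
  fderiv ℝ (fderiv ℝ f) p v w - fderiv ℝ f p (N p) * secondFund N p v w

/-- `f` is a Morse function on the open subset `U` of `M` with values in `[0, 1]`. -/
structure IsMorseOn (M : Set E4) (N : E4 → E4) (U : Set E4) (f : E4 → ℝ) : Prop where
  smooth : ∃ O : Set E4, IsOpen O ∧ U ⊆ O ∧ ContDiffOn ℝ ∞ f O
  mem_Icc : ∀ p ∈ U, f p ∈ Icc (0 : ℝ) 1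
  nondegenerate : ∀ p ∈ U, (∀ v ∈ tangentSpace M p, fderiv ℝ f p v = 0) →
    ∀ v ∈ tangentSpace M p, v ≠ 0 → ∃ w ∈ tangentSpace M p, hessian N f p v w ≠ 0

/-- The relative width of `U`: the supremum of all `a` such that every Morse function on `U` with
values in `[0, 1]` has a fiber of area at least `a`. -/
def relativeWidth (M : Set E4) (N : E4 → E4) (U : Set E4) : ENNReal :=
  sSup {a : ENNReal | ∀ f : E4 → ℝ, IsMorseOn M N U f →
    ∃ t : ℝ, a ≤ (μH[2] : Measure E4) {x | x ∈ U ∧ f x = t}}

/-- `U` is a nonempty bounded open subset of `M` with smooth boundary `closure U \ U`: near each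
boundary point, `U` is the part of `M` where a smooth function is negative, the differential of
this function being nonzero on the tangent space of `M`. -/
structure IsSmoothDomain (M U : Set E4) : Prop where
  nonempty : U.Nonempty
  isOpen : ∃ O : Set E4, IsOpen O ∧ U = M ∩ O
  isBounded : Bornology.IsBounded U
  boundary : ∀ p ∈ closure U \ U, ∃ O : Set E4, IsOpen O ∧ p ∈ O ∧ ∃ g : E4 → ℝ,
    ContDiffOn ℝ ∞ g O ∧ g p = 0 ∧ (∃ v ∈ tangentSpace M p, fderiv ℝ g p v ≠ 0) ∧
    ∀ q ∈ M ∩ O, (q ∈ U ↔ g q < 0)

/-- Condition (*): some bounded open set `U` with smooth boundary satisfies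
`area (∂U) ≤ W(U) / 10`. -/
def SatisfiesStar (M : Set E4) (N : E4 → E4) : Prop :=
  ∃ U : Set E4, IsSmoothDomain M U ∧
    (μH[2] : Measure E4) (closure U \ U) ≤ relativeWidth M N U / 10

end Pool.Agent.W556.Cap
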