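import Mathlib
import Pool.Agent.W556.CapDefs

/-!
# Level sets of maps with surjective derivative
-/

set_option autoImplicit false

noncomputable section

open Set Filter Topology MeasureTheory Metric
open scoped ContDiff NNReal

namespace Pool.Agent.W556.Cap

variable {W : Type*} [NormedAddCommGroup W] [NormedSpace ℝ W] [CompleteSpace W]

/-- points near `p` can be moved to the level set, at a distance controlled by the defect -/
theorem level_reg {F : E4 → W} {F' : E4 →L[ℝ] W} {p : E4} (hF : HasStrictFDerivAt F F' p)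
    (hs : F'.range = ⊤) :
    ∃ C : ℝ, 0 < C ∧ ∀ᶠ y in 𝓝 p, ∃ x, F x = F p ∧ dist x y ≤ C * dist (F y) (F p) := by
  let R := F'.nonlinearRightInverseOfSurjective hs
  have hR : 0 < R.nnnorm := F'.nonlinearRightInverseOfSurjective_nnnorm_pos hs
  obtain ⟨s, hsn, hap⟩ := hF.approximates_deriv_on_nhds (c := R.nnnorm⁻¹ / 2)
    (Or.inr (half_pos (inv_pos.2 hR)))
  obtain ⟨δ, hδ, hball⟩ := Metric.mem_nhds_iff.1 hsn
  have hR' : (0 : ℝ) < R.nnnorm := hR
  refine ⟨2 * R.nnnorm, by positivity, ?_⟩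
  have h1 : ∀ᶠ y in 𝓝 p, 2 * (R.nnnorm : ℝ) * dist (F y) (F p) < δ / 2 := by
    have hc : ContinuousAt F p := hF.hasFDerivAt.continuousAt
    have h2 : Tendsto (fun y => 2 * (R.nnnorm : ℝ) * dist (F y) (F p)) (𝓝 p) (𝓝 0) := by
      have h3 : Tendsto (fun y => dist (F y) (F p)) (𝓝 p) (𝓝 0) := by
        rw [← tendsto_iff_dist_tendsto_zero]; exact hc
      simpa using h3.const_mul (2 * (R.nnnorm : ℝ))
    exact h2.eventually (gt_mem_nhds (half_pos hδ))
  filter_upwards [h1, ball_mem_nhds p (half_pos hδ)] with y hy1 hy2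
  have hsub : closedBall y (2 * R.nnnorm * dist (F y) (F p)) ⊆ s := by
    intro x hx
    apply hball
    rw [mem_closedBall] at hx
    rw [mem_ball] at hy2 ⊢
    calc dist x p ≤ dist x y + dist y p := dist_triangle _ _ _
      _ < δ := by linarith
  have hsurj := hap.surjOn_closedBall_of_nonlinearRightInverse R (by positivity) hsub
  have hmem : F p ∈ closedBall (F y) (((R.nnnorm : ℝ)⁻¹ - (R.nnnorm⁻¹ / 2 : ℝ≥0)) *
      (2 * R.nnnorm * dist (F y) (F p))) := by
    rw [mem_closedBall, dist_comm]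
    refine le_of_eq ?_
    push_cast
    field_simp
    ring
  obtain ⟨x, hx1, hx2⟩ := hsurj hmem
  exact ⟨x, hx2, by rwa [mem_closedBall] at hx1⟩

/-- the tangent space of a level set is the kernel of the differential -/
theorem tangentSpace_level {F : E4 → W} {F' : E4 →L[ℝ] W} {p : E4} {S : Set E4}
    (hF : HasStrictFDerivAt F F' p) (hs : F'.range = ⊤)
    (hS : ∀ᶠ q in 𝓝 p, (q ∈ S ↔ F q = F p)) :
    tangentSpace S p = LinearMap.ker (F' : E4 →ₗ[ℝ] W) := by
  apply le_antisymm
  · refine Submodule.span_le.2 ?_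
    intro v hv
    have hv' : v ∈ tangentConeAt ℝ (S ∩ {q | (q ∈ S ↔ F q = F p)}) p := by
      rwa [tangentConeAt_inter_nhds hS]
    have hf : HasFDerivWithinAt F F' (S ∩ {q | (q ∈ S ↔ F q = F p)}) p :=
      hF.hasFDerivAt.hasFDerivWithinAt
    have hconst : HasFDerivWithinAt (fun _ : E4 => F p) (0 : E4 →L[ℝ] W)
        (S ∩ {q | (q ∈ S ↔ F q = F p)}) p := hasFDerivWithinAt_const _ _ _
    have hf2 : HasFDerivWithinAt F (0 : E4 →L[ℝ] W) (S ∩ {q | (q ∈ S ↔ F q = F p)}) p := by
      refine hconst.congr ?_ rfl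
      rintro q ⟨hq, hq2⟩
      exact hq2.1 hq
    have := hf.unique_on hf2 hv'
    simpa using this
  · intro v hv
    have hv' : F' v = 0 := hv
    apply Submodule.subset_span
    obtain ⟨C, hC, hreg⟩ := level_reg hF hs
    have hseq : Tendsto (fun n : ℕ => p + (1 / ((n : ℝ) + 1)) • v) atTop (𝓝 p) := by
      have := (tendsto_one_div_add_atTop_nhds_zero_nat (𝕜 := ℝ)).smul_const v
      simpa using this.const_add p
    have hch : ∀ᶠ n : ℕ in atTop, ∃ x, F x = F p ∧
        dist x (p + (1 / ((n : ℝ) + 1)) • v) ≤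
          C * dist (F (p + (1 / ((n : ℝ) + 1)) • v)) (F p) := hseq.eventually hreg
    have hch' : ∃ x : ℕ → E4, ∀ᶠ n : ℕ in atTop, F (x n) = F p ∧
        dist (x n) (p + (1 / ((n : ℝ) + 1)) • v) ≤
          C * dist (F (p + (1 / ((n : ℝ) + 1)) • v)) (F p) := by
      obtain ⟨n0, hn0⟩ := eventually_atTop.1 hch
      have : ∀ n : ℕ, ∃ x, n0 ≤ n → F x = F p ∧
        dist x (p + (1 / ((n : ℝ) + 1)) • v) ≤
          C * dist (F (p + (1 / ((n : ℝ) + 1)) • v)) (F p) := by
        intro n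
        by_cases h : n0 ≤ n
        · obtain ⟨x, hx⟩ := hn0 n h
          exact ⟨x, fun _ => hx⟩
        · exact ⟨p, fun h' => absurd h' h⟩
      choose x hx using this
      exact ⟨x, eventually_atTop.2 ⟨n0, hx⟩⟩
    obtain ⟨x, hx⟩ := hch'
    -- the defect is `o(1/n)`
    have hdef : Tendsto (fun n : ℕ => ((n : ℝ) + 1) *
        dist (F (p + (1 / ((n : ℝ) + 1)) • v)) (F p)) atTop (𝓝 0) := by
      have hatTop : Tendsto (fun n : ℕ => ((n : ℝ) + 1)) atTop atTop :=
        tendsto_atTop_add_const_right _ _ tendsto_natCast_atTop_atTop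
      have h3 := (hF.hasFDerivAt.lim_real v).comp hatTop
      rw [hv'] at h3
      have h4 := h3.norm
      rw [norm_zero] at h4
      refine h4.congr fun n => ?_
      have hn : (0 : ℝ) < (n : ℝ) + 1 := by positivity
      simp only [Function.comp, norm_smul, Real.norm_eq_abs, abs_of_pos hn, dist_eq_norm,
        one_div]
    have hclose : Tendsto (fun n : ℕ => ((n : ℝ) + 1) •
        (x n - (p + (1 / ((n : ℝ) + 1)) • v))) atTop (𝓝 0) := by
      have h5 := hdef.const_mul C
      rw [mul_zero] at h5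
      refine squeeze_zero_norm' ?_ h5
      filter_upwards [hx] with n hn
      have hn0 : (0 : ℝ) < (n : ℝ) + 1 := by positivity
      rw [norm_smul, Real.norm_eq_abs, abs_of_pos hn0, ← dist_eq_norm]
      calc ((n : ℝ) + 1) * dist (x n) (p + (1 / ((n : ℝ) + 1)) • v)
          ≤ ((n : ℝ) + 1) * (C * dist (F (p + (1 / ((n : ℝ) + 1)) • v)) (F p)) := by
            gcongr; exact hn.2
        _ = _ := by ring
    have hxp : Tendsto x atTop (𝓝 p) := by
      have h6 : Tendsto (fun n : ℕ => x n - (p + (1 / ((n : ℝ) + 1)) • v)) atTop (𝓝 0) := by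
        have h7 := (tendsto_one_div_add_atTop_nhds_zero_nat (𝕜 := ℝ)).smul hclose
        rw [zero_smul] at h7
        refine h7.congr fun n => ?_
        have hn0 : ((n : ℝ) + 1) ≠ 0 := by positivity
        rw [smul_smul, one_div, inv_mul_cancel₀ hn0, one_smul]
      have h8 := h6.add hseq
      simpa using h8
    refine mem_tangentConeAt_of_seq atTop (fun n : ℕ => ((n : ℝ) + 1)) (fun n => x n - p) ?_ ?_ ?_
    · have := hxp.sub_const p
      simpa using this
    · filter_upwards [hxp.eventually hS, hx] with n hn1 hn2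
      rw [add_sub_cancel]
      exact hn1.2 hn2.1
    · have h9 := hclose.add_const v
      rw [zero_add] at h9
      refine h9.congr fun n => ?_
      have hn0 : ((n : ℝ) + 1) ≠ 0 := by positivity
      rw [sub_add_eq_sub_sub, smul_sub, smul_smul, one_div, mul_inv_cancel₀ hn0, one_smul]
      abel

theorem haus2 : (μH[(2 : ℝ)] : Measure (Fin 2 → ℝ)) = volume := by
  have := hausdorffMeasure_pi_real (ι := Fin 2)
  simpa using this

/-- a two-dimensional level set has positive area near each of its points -/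
theorem area_pos_level {W : Type*} [NormedAddCommGroup W] [NormedSpace ℝ W] [CompleteSpace W]
    [FiniteDimensional ℝ W] {F : E4 → W} {F' : E4 →L[ℝ] W} {p : E4} {S : Set E4}
    (hF : HasStrictFDerivAt F F' p) (hs : F'.range = ⊤)
    (hW : Module.finrank ℝ W = 2)
    (hS : ∀ᶠ q in 𝓝 p, (q ∈ S ↔ F q = F p)) {V : Set E4} (hV : V ∈ 𝓝 p) :
    0 < (μH[2] : Measure E4) (S ∩ V) := by
  -- a linear projection to the kernel
  obtain ⟨P, hP⟩ : ∃ P : E4 →L[ℝ] F'.ker, ∀ x : F'.ker, P x = x :=
    Submodule.ClosedComplemented.of_finiteDimensional F'.ker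
  have hrank : Module.finrank ℝ F'.ker = 2 := by
    have h1 := LinearMap.finrank_range_add_finrank_ker (F' : E4 →ₗ[ℝ] W)
    have h2 : LinearMap.range (F' : E4 →ₗ[ℝ] W) = ⊤ := hs
    rw [h2, finrank_top, hW, finrank_euclideanSpace_fin] at h1
    have h3 : Module.finrank ℝ (LinearMap.ker (F' : E4 →ₗ[ℝ] W)) = 2 := by omega
    exact h3
  let e : F'.ker ≃L[ℝ] (Fin 2 → ℝ) :=
    ContinuousLinearEquiv.ofFinrankEq (by rw [hrank]; simp)
  let T : E4 →L[ℝ] (Fin 2 → ℝ) := (e : F'.ker →L[ℝ] (Fin 2 → ℝ)).comp P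
  have hH : HasStrictFDerivAt (fun x => (F x, T x)) (F'.prod T) p :=
    hF.prodMk T.hasStrictFDerivAt
  have hsurj : (F'.prod T).range = ⊤ := by
    apply LinearMap.range_eq_top.2
    rintro ⟨w, k⟩
    obtain ⟨u, hu⟩ : ∃ u, F' u = w := by
      have : Function.Surjective F' := LinearMap.range_eq_top.1 hs
      exact this w
    refine ⟨u - (P u : E4) + (e.symm k : E4), ?_⟩
    have h1 : F' (P u : E4) = 0 := (P u).2
    have h2 : F' (e.symm k : E4) = 0 := (e.symm k).2
    have h3 : T (u - (P u : E4) + (e.symm k : E4)) = k := by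
      show e (P (u - (P u : E4) + (e.symm k : E4))) = k
      rw [map_add, map_sub, hP, hP]
      simp
    have h4 : F' (u - (P u : E4) + (e.symm k : E4)) = w := by
      rw [map_add, map_sub, h1, h2, hu]; simp
    exact Prod.ext h4 h3
  have hmap := hH.map_nhds_eq_of_surj hsurj
  set V' : Set E4 := V ∩ {q | (q ∈ S ↔ F q = F p)} with hV'
  have hV'n : V' ∈ 𝓝 p := inter_mem hV hS
  have himg : (fun x => (F x, T x)) '' V' ∈ 𝓝 (F p, T p) := by
    rw [← hmap]; exact image_mem_map hV'n
  have hslice : {u : Fin 2 → ℝ | (F p, u) ∈ (fun x => (F x, T x)) '' V'} ∈ 𝓝 (T p) := by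
    have hc : Continuous fun u : Fin 2 → ℝ => (F p, u) := by fun_prop
    exact hc.continuousAt.preimage_mem_nhds himg
  have hsub : {u : Fin 2 → ℝ | (F p, u) ∈ (fun x => (F x, T x)) '' V'} ⊆ T '' (S ∩ V) := by
    rintro u ⟨x, hx, hxu⟩
    have h1 : F x = F p := congrArg Prod.fst hxu
    have h2 : T x = u := congrArg Prod.snd hxu
    exact ⟨x, ⟨hx.2.2 h1, hx.1⟩, h2⟩
  have hpos : 0 < (volume : Measure (Fin 2 → ℝ)) (T '' (S ∩ V)) :=
    lt_of_lt_of_le (MeasureTheory.Measure.measure_pos_of_mem_nhds _ hslice) (measure_mono hsub)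
  have hlip := T.lipschitz.hausdorffMeasure_image_le (d := 2) (by norm_num) (S ∩ V)
  rw [haus2] at hlip
  by_contra hcon
  have h0 : (μH[2] : Measure E4) (S ∩ V) = 0 := by simpa using hcon
  rw [h0, mul_zero] at hlip
  exact absurd hpos (not_lt.2 hlip)

end Pool.Agent.W556.Cap
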