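import Mathlib

/-!
# The profile function
-/

set_option autoImplicit false

noncomputable section

open Set Filter Topology
open scoped ContDiff Polynomial

namespace Pool.Agent.W556.Cap

def E0 (t : ℝ) : ℝ := expNegInvGlue t
def E1 (t : ℝ) : ℝ := (t⁻¹) ^ 2 * expNegInvGlue t
def E2 (t : ℝ) : ℝ := ((t⁻¹) ^ 4 - 2 * (t⁻¹) ^ 3) * expNegInvGlue t

theorem hasDerivAt_E0 (t : ℝ) : HasDerivAt E0 (E1 t) t := by
  have h := expNegInvGlue.hasDerivAt_polynomial_eval_inv_mul (1 : ℝ[X]) t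
  have e1 : (fun x : ℝ => Polynomial.eval x⁻¹ (1 : ℝ[X]) * expNegInvGlue x) = E0 := by
    funext x; simp [E0]
  rw [e1] at h
  refine h.congr_deriv ?_
  simp [E1]

theorem hasDerivAt_E1 (t : ℝ) : HasDerivAt E1 (E2 t) t := by
  have h := expNegInvGlue.hasDerivAt_polynomial_eval_inv_mul (Polynomial.X ^ 2 : ℝ[X]) t
  have e1 : (fun x : ℝ => Polynomial.eval x⁻¹ (Polynomial.X ^ 2 : ℝ[X]) * expNegInvGlue x) = E1 := by
    funext x; simp [E1]
  rw [e1] at h
  refine h.congr_deriv ?_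
  simp only [E2, Polynomial.eval_mul, Polynomial.eval_pow, Polynomial.eval_X, Polynomial.eval_sub,
    Polynomial.derivative_X_pow, Polynomial.eval_C]
  norm_num
  left
  ring

theorem contDiff_E0 : ContDiff ℝ ∞ E0 := expNegInvGlue.contDiff

theorem contDiff_E1 : ContDiff ℝ ∞ E1 := by
  have h := expNegInvGlue.contDiff_polynomial_eval_inv_mul (n := ⊤) (Polynomial.X ^ 2 : ℝ[X])
  have e1 : (fun x : ℝ => Polynomial.eval x⁻¹ (Polynomial.X ^ 2 : ℝ[X]) * expNegInvGlue x) = E1 := by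
    funext x; simp [E1]
  rwa [e1] at h

theorem contDiff_E2 : ContDiff ℝ ∞ E2 := by
  have h := expNegInvGlue.contDiff_polynomial_eval_inv_mul (n := ⊤)
    (Polynomial.X ^ 4 - 2 * Polynomial.X ^ 3 : ℝ[X])
  have e1 : (fun x : ℝ => Polynomial.eval x⁻¹ (Polynomial.X ^ 4 - 2 * Polynomial.X ^ 3 : ℝ[X]) *
      expNegInvGlue x) = E2 := by
    funext x; simp [E2]
  rwa [e1] at h

theorem E0_of_nonpos {t : ℝ} (h : t ≤ 0) : E0 t = 0 := expNegInvGlue.zero_of_nonpos h
theorem E1_of_nonpos {t : ℝ} (h : t ≤ 0) : E1 t = 0 := by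
  simp [E1, expNegInvGlue.zero_of_nonpos h]
theorem E2_of_nonpos {t : ℝ} (h : t ≤ 0) : E2 t = 0 := by
  simp [E2, expNegInvGlue.zero_of_nonpos h]
theorem E0_nonneg (t : ℝ) : 0 ≤ E0 t := expNegInvGlue.nonneg t
theorem E0_pos {t : ℝ} (h : 0 < t) : 0 < E0 t := expNegInvGlue.pos_of_pos h
theorem E1_pos {t : ℝ} (h : 0 < t) : 0 < E1 t := by
  have := expNegInvGlue.pos_of_pos h
  unfold E1; positivity

theorem E0_of_pos {t : ℝ} (h : 0 < t) : E0 t = Real.exp (-t⁻¹) := by
  simp [E0, expNegInvGlue, not_le.2 h]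

theorem E0_lt_one (t : ℝ) : E0 t < 1 := by
  rcases le_or_gt t 0 with h | h
  · rw [E0_of_nonpos h]; exact one_pos
  · rw [E0_of_pos h, Real.exp_lt_one_iff]
    have : 0 < t⁻¹ := inv_pos.2 h
    linarith

theorem tendsto_E0 : Tendsto E0 atTop (𝓝 1) := by
  have h1 : Tendsto (fun t : ℝ => Real.exp (-t⁻¹)) atTop (𝓝 1) := by
    have h2 : Tendsto (fun t : ℝ => -t⁻¹) atTop (𝓝 0) := by
      simpa using (tendsto_inv_atTop_zero (𝕜 := ℝ)).neg
    have h3 := (Real.continuous_exp.tendsto 0).comp h2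
    rw [Real.exp_zero] at h3
    exact h3
  refine h1.congr' ?_
  filter_upwards [eventually_gt_atTop 0] with t ht
  rw [E0_of_pos ht]

/-- the level where `E0` equals one half -/
def tHalf : ℝ := (Real.log 2)⁻¹

theorem tHalf_pos : 0 < tHalf := inv_pos.2 (Real.log_pos one_lt_two)

theorem E0_tHalf : E0 tHalf = 1 / 2 := by
  rw [E0_of_pos tHalf_pos, tHalf, inv_inv, Real.exp_neg, Real.exp_log two_pos]
  norm_num

theorem E0_lt_half {t : ℝ} (h : t < tHalf) : E0 t < 1 / 2 := by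
  rcases le_or_gt t 0 with h0 | h0
  · rw [E0_of_nonpos h0]; norm_num
  · rw [← E0_tHalf, E0_of_pos h0, E0_of_pos tHalf_pos, Real.exp_lt_exp]
    have := inv_strictAnti₀ h0 h
    linarith

theorem half_lt_E0 {t : ℝ} (h : tHalf < t) : 1 / 2 < E0 t := by
  have h0 := tHalf_pos.trans h
  rw [← E0_tHalf, E0_of_pos h0, E0_of_pos tHalf_pos, Real.exp_lt_exp]
  have := inv_strictAnti₀ tHalf_pos h
  linarith

/-- the profile function; the hypersurface is `|y|² + G z = 1` -/
def G (l z : ℝ) : ℝ := 2 * E0 (-z - l) + E0 (z - l)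
def G1 (l z : ℝ) : ℝ := -2 * E1 (-z - l) + E1 (z - l)
def G2 (l z : ℝ) : ℝ := 2 * E2 (-z - l) + E2 (z - l)

variable {l : ℝ}

theorem hasDerivAt_G (z : ℝ) : HasDerivAt (G l) (G1 l z) z := by
  have h1 : HasDerivAt (fun z : ℝ => -z - l) (-1) z := (hasDerivAt_id z).fun_neg.sub_const l
  have h2 : HasDerivAt (fun z : ℝ => z - l) 1 z := (hasDerivAt_id z).sub_const l
  have h3 := ((hasDerivAt_E0 (-z - l)).comp z h1).const_mul 2
  have h4 := (hasDerivAt_E0 (z - l)).comp z h2
  refine (h3.add h4).congr_deriv ?_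
  simp [G1]

theorem hasDerivAt_G1 (z : ℝ) : HasDerivAt (G1 l) (G2 l z) z := by
  have h1 : HasDerivAt (fun z : ℝ => -z - l) (-1) z := (hasDerivAt_id z).fun_neg.sub_const l
  have h2 : HasDerivAt (fun z : ℝ => z - l) 1 z := (hasDerivAt_id z).sub_const l
  have h3 := ((hasDerivAt_E1 (-z - l)).comp z h1).const_mul (-2)
  have h4 := (hasDerivAt_E1 (z - l)).comp z h2
  refine (h3.add h4).congr_deriv ?_
  simp [G2]

theorem contDiff_G : ContDiff ℝ ∞ (G l) := by
  have h1 : ContDiff ℝ ∞ (fun z : ℝ => -z - l) := contDiff_neg.sub contDiff_const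
  have h2 : ContDiff ℝ ∞ (fun z : ℝ => z - l) := contDiff_id.sub contDiff_const
  exact (contDiff_const.mul (contDiff_E0.comp h1)).add (contDiff_E0.comp h2)

theorem contDiff_G1 : ContDiff ℝ ∞ (G1 l) := by
  have h1 : ContDiff ℝ ∞ (fun z : ℝ => -z - l) := contDiff_neg.sub contDiff_const
  have h2 : ContDiff ℝ ∞ (fun z : ℝ => z - l) := contDiff_id.sub contDiff_const
  exact (contDiff_const.mul (contDiff_E1.comp h1)).add (contDiff_E1.comp h2)

theorem contDiff_G2 : ContDiff ℝ ∞ (G2 l) := by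
  have h1 : ContDiff ℝ ∞ (fun z : ℝ => -z - l) := contDiff_neg.sub contDiff_const
  have h2 : ContDiff ℝ ∞ (fun z : ℝ => z - l) := contDiff_id.sub contDiff_const
  exact (contDiff_const.mul (contDiff_E2.comp h1)).add (contDiff_E2.comp h2)

theorem G_mid {z : ℝ} (h1 : -l ≤ z) (h2 : z ≤ l) : G l z = 0 := by
  rw [G, E0_of_nonpos (by linarith), E0_of_nonpos (by linarith)]; ring
theorem G1_mid {z : ℝ} (h1 : -l ≤ z) (h2 : z ≤ l) : G1 l z = 0 := by
  rw [G1, E1_of_nonpos (by linarith), E1_of_nonpos (by linarith)]; ring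
theorem G2_mid {z : ℝ} (h1 : -l ≤ z) (h2 : z ≤ l) : G2 l z = 0 := by
  rw [G2, E2_of_nonpos (by linarith), E2_of_nonpos (by linarith)]; ring

theorem G_right (hl : 0 < l) {z : ℝ} (h : 0 ≤ z) : G l z = E0 (z - l) := by
  rw [G, E0_of_nonpos (t := -z - l) (by linarith)]; ring
theorem G_left (hl : 0 < l) {z : ℝ} (h : z ≤ 0) : G l z = 2 * E0 (-z - l) := by
  rw [G, E0_of_nonpos (t := z - l) (by linarith)]; ring
theorem G1_right (hl : 0 < l) {z : ℝ} (h : 0 ≤ z) : G1 l z = E1 (z - l) := by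
  rw [G1, E1_of_nonpos (t := -z - l) (by linarith)]; ring
theorem G1_left (hl : 0 < l) {z : ℝ} (h : z ≤ 0) : G1 l z = -2 * E1 (-z - l) := by
  rw [G1, E1_of_nonpos (t := z - l) (by linarith)]; ring

theorem G_nonneg (z : ℝ) : 0 ≤ G l z := by
  have := E0_nonneg (-z - l)
  have := E0_nonneg (z - l)
  unfold G; positivity

theorem G1_pos (hl : 0 < l) {z : ℝ} (h : l < z) : 0 < G1 l z := by
  rw [G1_right hl (by linarith)]; exact E1_pos (by linarith)

theorem G1_neg (hl : 0 < l) {z : ℝ} (h : z < -l) : G1 l z < 0 := by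
  rw [G1_left hl (by linarith)]
  have := E1_pos (t := -z - l) (by linarith)
  linarith

/-- the height of the tip -/
def tip (l : ℝ) : ℝ := -(l + tHalf)

theorem tip_lt (hl : 0 < l) : tip l < -l := by
  have := tHalf_pos
  unfold tip; linarith

theorem G_tip (hl : 0 < l) : G l (tip l) = 1 := by
  have h := tip_lt hl
  rw [G_left hl (by linarith)]
  have : -tip l - l = tHalf := by unfold tip; ring
  rw [this, E0_tHalf]; norm_num

theorem G_lt_one (hl : 0 < l) {z : ℝ} (h : tip l < z) : G l z < 1 := by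
  rcases le_total z 0 with h0 | h0
  · rw [G_left hl h0]
    have : E0 (-z - l) < 1 / 2 := E0_lt_half (by unfold tip at h; linarith)
    linarith
  · rw [G_right hl h0]; exact E0_lt_one _

theorem one_lt_G (hl : 0 < l) {z : ℝ} (h : z < tip l) : 1 < G l z := by
  have := tip_lt hl
  rw [G_left hl (by linarith)]
  have : 1 / 2 < E0 (-z - l) := half_lt_E0 (by unfold tip at h; linarith)
  linarith

theorem G_le_one_iff (hl : 0 < l) {z : ℝ} : G l z ≤ 1 ↔ tip l ≤ z := by
  constructor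
  · intro h
    by_contra hcon
    have := one_lt_G hl (not_le.1 hcon)
    linarith
  · intro h
    rcases h.eq_or_lt with h | h
    · rw [← h, G_tip hl]
    · exact (G_lt_one hl h).le

theorem tendsto_G (hl : 0 < l) : Tendsto (G l) atTop (𝓝 1) := by
  have h1 : Tendsto (fun z : ℝ => z - l) atTop atTop := tendsto_atTop_add_const_right _ _ tendsto_id
  refine (tendsto_E0.comp h1).congr' ?_
  filter_upwards [eventually_ge_atTop 0] with z hz
  rw [G_right hl hz]; rfl

/-- the squared norm of the gradient of the defining function, as a function of the height -/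
def D (l z : ℝ) : ℝ := 4 * (1 - G l z) + G1 l z ^ 2

theorem D_pos (hl : 0 < l) {z : ℝ} (h : tip l ≤ z) : 0 < D l z := by
  rcases h.eq_or_lt with h | h
  · have h1 := G1_neg hl (tip_lt hl)
    rw [← h, D, G_tip hl]
    have : 0 < G1 l (tip l) ^ 2 := by nlinarith
    linarith
  · have := G_lt_one hl h
    have h2 : 0 ≤ G1 l z ^ 2 := by positivity
    unfold D; linarith

theorem contDiff_D : ContDiff ℝ ∞ (D l) :=
  (contDiff_const.mul (contDiff_const.sub contDiff_G)).add (contDiff_G1.pow 2)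

theorem hasDerivAt_D (z : ℝ) :
    HasDerivAt (D l) (-4 * G1 l z + 2 * G1 l z * G2 l z) z := by
  have h1 := ((hasDerivAt_G (l := l) z).const_sub 1).const_mul 4
  have h2 := (hasDerivAt_G1 (l := l) z).pow 2
  refine (h1.add h2).congr_deriv ?_
  simp
  try ring

end Pool.Agent.W556.Cap
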