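import Mathlib
import Pool.Agent.W556.CapDefs
import Pool.Agent.W556.CapProfile
import Pool.Agent.W556.CapLevel

/-!
# The hypersurface
-/

set_option autoImplicit false

noncomputable section

open Set Filter Topology MeasureTheory Metric
open scoped ContDiff NNReal

namespace Pool.Agent.W556.Cap

/-- the height -/
def zc : E4 →L[ℝ] ℝ := EuclideanSpace.proj (𝕜 := ℝ) (3 : Fin 4)

/-- the vertical unit vector -/
abbrev ez : E4 := bas 3

@[simp] theorem zc_ez : zc ez = 1 := by simp [zc, ez, bas]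
@[simp] theorem norm_ez : ‖ez‖ = 1 := by simp [ez, bas]
@[simp] theorem inner_ez_left (x : E4) : inner ℝ ez x = zc x := by
  simp [zc, ez, bas, EuclideanSpace.inner_single_left]
@[simp] theorem inner_ez_right (x : E4) : inner ℝ x ez = zc x := by
  rw [real_inner_comm, inner_ez_left]

/-- the defining function -/
def Phi (l : ℝ) (x : E4) : ℝ := ‖x‖ ^ 2 - zc x ^ 2 + G l (zc x) - 1

/-- the gradient of the defining function -/
def gr (l : ℝ) (x : E4) : E4 := (2 : ℝ) • x + (G1 l (zc x) - 2 * zc x) • ez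

/-- the hypersurface -/
def M (l : ℝ) : Set E4 := {x | Phi l x = 0}

/-- the unit normal field -/
def Nf (l : ℝ) (x : E4) : E4 := ‖gr l x‖⁻¹ • gr l x

variable {l : ℝ}

theorem contDiff_Phi : ContDiff ℝ ∞ (Phi l) :=
  (((contDiff_norm_sq ℝ).sub (zc.contDiff.pow 2)).add (contDiff_G.comp zc.contDiff)).sub
    contDiff_const

theorem contDiff_gr : ContDiff ℝ ∞ (gr l) := by
  have h1 : ContDiff ℝ ∞ (fun x : E4 => (2 : ℝ) • x) :=
    ((2 : ℝ) • ContinuousLinearMap.id ℝ E4).contDiff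
  have h2 : ContDiff ℝ ∞ (fun x : E4 => G1 l (zc x)) := contDiff_G1.comp zc.contDiff
  have h3 : ContDiff ℝ ∞ (fun x : E4 => (2 : ℝ) * zc x) := contDiff_const.mul zc.contDiff
  have h4 : ContDiff ℝ ∞ (fun x : E4 => (G1 l (zc x) - 2 * zc x) • ez) :=
    (h2.sub h3).smul contDiff_const
  exact h1.add h4

theorem hasFDerivAt_Phi (x : E4) : HasFDerivAt (Phi l) (innerSL ℝ (gr l x)) x := by
  have h1 : HasFDerivAt (fun x : E4 => ‖x‖ ^ 2) (2 • (innerSL ℝ x)) x :=
    (hasStrictFDerivAt_norm_sq x).hasFDerivAt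
  have h2 : HasFDerivAt (fun x : E4 => zc x ^ 2) ((2 * zc x) • zc) x := by
    have := (zc.hasFDerivAt (x := x)).pow 2
    refine this.congr_fderiv ?_
    ext v; simp
  have h3 : HasFDerivAt (fun x : E4 => G l (zc x)) (G1 l (zc x) • zc) x :=
    (hasDerivAt_G (zc x)).comp_hasFDerivAt x zc.hasFDerivAt
  have h4 := ((h1.sub h2).add h3).sub_const 1
  refine h4.congr_fderiv ?_
  ext v
  simp [gr]
  ring

theorem hasStrictFDerivAt_Phi (x : E4) : HasStrictFDerivAt (Phi l) (innerSL ℝ (gr l x)) x := by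
  have h := (contDiff_Phi (l := l)).contDiffAt (x := x)
  have h2 := h.hasStrictFDerivAt (by simp)
  rwa [(hasFDerivAt_Phi x).fderiv] at h2

theorem hasFDerivAt_gr (x : E4) : HasFDerivAt (gr l)
    ((2 : ℝ) • ContinuousLinearMap.id ℝ E4 + ((G2 l (zc x) - 2) • zc).smulRight ez) x := by
  have h1 : HasFDerivAt (fun x : E4 => (2 : ℝ) • x) ((2 : ℝ) • ContinuousLinearMap.id ℝ E4) x :=
    ((2 : ℝ) • ContinuousLinearMap.id ℝ E4).hasFDerivAt
  have h2 : HasFDerivAt (fun x : E4 => G1 l (zc x) - 2 * zc x) ((G2 l (zc x) - 2) • zc) x := by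
    have h3 : HasDerivAt (fun t : ℝ => G1 l t - 2 * t) (G2 l (zc x) - 2) (zc x) := by
      have := (hasDerivAt_G1 (l := l) (zc x)).sub ((hasDerivAt_id (zc x)).const_mul 2)
      rw [mul_one] at this
      exact this
    exact h3.comp_hasFDerivAt x zc.hasFDerivAt
  exact h1.add (h2.smul_const ez)

theorem norm_gr_sq (x : E4) : ‖gr l x‖ ^ 2 = 4 * (‖x‖ ^ 2 - zc x ^ 2) + G1 l (zc x) ^ 2 := by
  rw [← real_inner_self_eq_norm_sq, gr]
  simp only [inner_add_left, inner_add_right, inner_smul_left, inner_smul_right, inner_ez_left,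
    inner_ez_right, real_inner_self_eq_norm_sq, norm_ez]
  simp
  ring

theorem zc_sq_le (x : E4) : zc x ^ 2 ≤ ‖x‖ ^ 2 := by
  have h1 : |zc x| ≤ ‖x‖ := by
    have := abs_real_inner_le_norm ez x
    simpa using this
  rw [← sq_abs (zc x)]
  gcongr

theorem mem_M {x : E4} : x ∈ M l ↔ ‖x‖ ^ 2 - zc x ^ 2 = 1 - G l (zc x) := by
  unfold M Phi
  rw [mem_ofPred_eq]
  constructor <;> intro h <;> linarith

theorem tip_le {x : E4} (hl : 0 < l) (hx : x ∈ M l) : tip l ≤ zc x := by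
  rw [← G_le_one_iff hl]
  have h1 := mem_M.1 hx
  have h2 := zc_sq_le x
  linarith

theorem norm_gr_sq_M {x : E4} (hx : x ∈ M l) : ‖gr l x‖ ^ 2 = D l (zc x) := by
  rw [norm_gr_sq, mem_M.1 hx, D]

theorem gr_ne_zero (hl : 0 < l) {x : E4} (hx : x ∈ M l) : gr l x ≠ 0 := by
  intro h
  have h1 := norm_gr_sq_M hx
  have h2 := D_pos hl (tip_le hl hx)
  rw [h] at h1
  simp at h1
  linarith

theorem norm_Nf (hl : 0 < l) {x : E4} (hx : x ∈ M l) : ‖Nf l x‖ = 1 := by
  have h := norm_ne_zero_iff.2 (gr_ne_zero hl hx)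
  rw [Nf, norm_smul, norm_inv, norm_norm, inv_mul_cancel₀ h]

theorem isClosed_M : IsClosed (M l) := isClosed_singleton.preimage contDiff_Phi.continuous

theorem range_innerSL {u : E4} (hu : u ≠ 0) : (innerSL ℝ u : E4 →L[ℝ] ℝ).range = ⊤ := by
  apply LinearMap.range_eq_top.2
  intro t
  have h : ‖u‖ ^ 2 ≠ 0 := by positivity
  refine ⟨(t / ‖u‖ ^ 2) • u, ?_⟩
  have : (innerSL ℝ u) ((t / ‖u‖ ^ 2) • u) = t := by
    rw [innerSL_apply_apply, inner_smul_right, real_inner_self_eq_norm_sq]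
    field_simp
  exact this

theorem tangentSpace_M (hl : 0 < l) {p : E4} (hp : p ∈ M l) :
    tangentSpace (M l) p = LinearMap.ker ((innerSL ℝ (gr l p) : E4 →L[ℝ] ℝ) : E4 →ₗ[ℝ] ℝ) := by
  apply tangentSpace_level (hasStrictFDerivAt_Phi p) (range_innerSL (gr_ne_zero hl hp))
  have hp' : Phi l p = 0 := hp
  refine Eventually.of_forall fun q => ?_
  rw [hp']; rfl

theorem mem_tangentSpace_M (hl : 0 < l) {p : E4} (hp : p ∈ M l) {v : E4} :
    v ∈ tangentSpace (M l) p ↔ inner ℝ (gr l p) v = 0 := by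
  rw [tangentSpace_M hl hp]; rfl

theorem mem_tangentSpace_M' (hl : 0 < l) {p : E4} (hp : p ∈ M l) {v : E4} :
    v ∈ tangentSpace (M l) p ↔ inner ℝ (Nf l p) v = 0 := by
  rw [mem_tangentSpace_M hl hp, Nf, inner_smul_left]
  have h := norm_ne_zero_iff.2 (gr_ne_zero hl hp)
  simp [h]

theorem contDiffAt_Nf {x : E4} (hx : gr l x ≠ 0) : ContDiffAt ℝ ∞ (Nf l) x := by
  have h1 : ContDiffAt ℝ ∞ (gr l) x := contDiff_gr.contDiffAt
  have h2 : ContDiffAt ℝ ∞ (fun x => ‖gr l x‖⁻¹) x :=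
    (h1.norm ℝ hx).inv (norm_ne_zero_iff.2 hx)
  exact h2.smul h1

theorem proj_eq {K : Submodule ℝ E4} {v w : E4} (hw : w ∈ K)
    (h : ∀ u ∈ K, inner ℝ (v - w) u = 0) : K.starProjection v = w :=
  (Submodule.eq_starProjection_of_mem_of_inner_eq_zero hw h)

theorem starProjection_M (hl : 0 < l) {p : E4} (hp : p ∈ M l) (v : E4) :
    (tangentSpace (M l) p).starProjection v = v - inner ℝ (Nf l p) v • Nf l p := by
  apply proj_eq
  · rw [mem_tangentSpace_M' hl hp, inner_sub_right, inner_smul_right,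
      real_inner_self_eq_norm_sq, norm_Nf hl hp]
    ring
  · intro u hu
    rw [mem_tangentSpace_M' hl hp] at hu
    rw [sub_sub_cancel, inner_smul_left, hu, mul_zero]

/-- the second fundamental form -/
theorem secondFund_M (hl : 0 < l) {p : E4} (hp : p ∈ M l) (v : E4) {w : E4}
    (hw : w ∈ tangentSpace (M l) p) :
    secondFund (Nf l) p v w =
      ‖gr l p‖⁻¹ * (2 * inner ℝ v w + (G2 l (zc p) - 2) * zc v * zc w) := by
  have hne := gr_ne_zero hl hp
  have hg := hasFDerivAt_gr (l := l) p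
  have hn : DifferentiableAt ℝ (fun x => ‖gr l x‖⁻¹) p := by
    have h1 : ContDiffAt ℝ ∞ (gr l) p := contDiff_gr.contDiffAt
    exact ((h1.norm ℝ hne).inv (norm_ne_zero_iff.2 hne)).differentiableAt (by simp)
  have h := (hn.hasFDerivAt.smul hg).fderiv
  have h2 : fderiv ℝ (Nf l) p v = ‖gr l p‖⁻¹ • ((2 : ℝ) • v + ((G2 l (zc p) - 2) * zc v) • ez) +
      (fderiv ℝ (fun x => ‖gr l x‖⁻¹) p v) • gr l p := by
    have h3 : Nf l = (fun x => ‖gr l x‖⁻¹ • gr l x) := rfl
    rw [h3]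
    have h4 : fderiv ℝ (fun x => ‖gr l x‖⁻¹ • gr l x) p = _ := h
    rw [h4]
    simp
  rw [secondFund, h2, inner_add_left, inner_smul_left, inner_smul_left,
    (mem_tangentSpace_M hl hp).1 hw, mul_zero, add_zero, inner_add_left, inner_smul_left,
    inner_smul_left, inner_ez_left]
  simp

theorem isCompleteHypersurface_M_aux (hl : 0 < l) (hconn : IsConnected (M l)) :
    IsCompleteHypersurface (M l) (Nf l) where
  isClosed := isClosed_M
  isConnected := hconn
  smooth := by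
    intro p hp
    refine ⟨univ, isOpen_univ, mem_univ _, Phi l, contDiff_Phi.contDiffOn, ?_, fun q _ => Iff.rfl⟩
    rw [(hasFDerivAt_Phi p).fderiv]
    intro h
    have h1 : (innerSL ℝ (gr l p) : E4 →L[ℝ] ℝ) (gr l p) = 0 := by rw [h]; rfl
    rw [innerSL_apply_apply, real_inner_self_eq_norm_sq] at h1
    have := gr_ne_zero hl hp
    have h2 : 0 < ‖gr l p‖ ^ 2 := by positivity
    linarith
  normal_smooth := by
    refine ⟨{x | gr l x ≠ 0}, isOpen_ne_fun contDiff_gr.continuous continuous_const,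
      fun x hx => gr_ne_zero hl hx, fun x hx => (contDiffAt_Nf hx).contDiffWithinAt⟩
  normal_norm := fun p hp => norm_Nf hl hp
  normal_inner := fun p hp v hv => (mem_tangentSpace_M' hl hp).1 hv

end Pool.Agent.W556.Cap
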