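import Mathlib
import Pool.Agent.W556.CapM

/-!
# The hypersurface is homeomorphic to three-dimensional space
-/

set_option autoImplicit false

noncomputable section

open Set Filter Topology Metric
open scoped ContDiff

namespace Pool.Agent.W556.Cap

abbrev E3 := EuclideanSpace ℝ (Fin 3)

variable {l : ℝ}

/-- horizontal part -/
def yy (x : E4) : E3 := !₂[x 0, x 1, x 2]

/-- the point with given horizontal part and height -/
def mk4 (y : E3) (z : ℝ) : E4 := !₂[y 0, y 1, y 2, z]

theorem continuous_yy : Continuous yy := by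
  unfold yy
  fun_prop

theorem continuous_mk4 : Continuous (fun p : E3 × ℝ => mk4 p.1 p.2) := by
  unfold mk4
  refine (PiLp.continuous_toLp 2 _).comp (continuous_pi fun i => ?_)
  fin_cases i <;> simp <;> fun_prop

theorem zc_apply (x : E4) : zc x = x 3 := rfl

theorem norm_yy_sq (x : E4) : ‖yy x‖ ^ 2 = ‖x‖ ^ 2 - zc x ^ 2 := by
  rw [EuclideanSpace.norm_sq_eq, EuclideanSpace.norm_sq_eq, Fin.sum_univ_three,
    Fin.sum_univ_four, zc_apply]
  simp [yy]

@[simp] theorem yy_mk4 (y : E3) (z : ℝ) : yy (mk4 y z) = y := by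
  ext i; fin_cases i <;> simp [yy, mk4]

@[simp] theorem zc_mk4 (y : E3) (z : ℝ) : zc (mk4 y z) = z := by
  rw [zc_apply]; simp [mk4]

theorem mk4_yy (x : E4) : mk4 (yy x) (zc x) = x := by
  ext i; fin_cases i <;> simp [yy, mk4, zc_apply]

theorem continuous_polar {X : Type*} [TopologicalSpace X] {f : X → ℝ} {u : X → E3}
    (hf : Continuous f) (hu : Continuous u) (h0 : ∀ x, u x = 0 → f x = 0) :
    Continuous (fun x => f x • (‖u x‖⁻¹ • u x)) := by
  rw [continuous_iff_continuousAt]
  intro x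
  by_cases hx : u x = 0
  · have h1 : f x • (‖u x‖⁻¹ • u x) = 0 := by rw [hx]; simp
    have h2 : Tendsto (fun x => f x • (‖u x‖⁻¹ • u x)) (𝓝 x) (𝓝 0) := by
      refine squeeze_zero_norm (a := fun x => |f x|) (fun y => ?_) ?_
      · rw [norm_smul, norm_smul, Real.norm_eq_abs, norm_inv, norm_norm]
        have : ‖u y‖⁻¹ * ‖u y‖ ≤ 1 := inv_mul_le_one
        calc |f y| * (‖u y‖⁻¹ * ‖u y‖) ≤ |f y| * 1 := by gcongr
          _ = |f y| := mul_one _
      · have h3 : Tendsto (fun x => |f x|) (𝓝 x) (𝓝 |f x|) := (hf.abs).tendsto x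
        rwa [h0 x hx, abs_zero] at h3
    show Tendsto (fun x => f x • (‖u x‖⁻¹ • u x)) (𝓝 x) (𝓝 (f x • (‖u x‖⁻¹ • u x)))
    rw [h1]; exact h2
  · have h1 : ContinuousAt (fun x => ‖u x‖⁻¹) x :=
      (hu.norm.continuousAt).inv₀ (norm_ne_zero_iff.2 hx)
    exact hf.continuousAt.smul (h1.smul hu.continuousAt)

/-- the radius at height `z` -/
def rho (l z : ℝ) : ℝ := √(1 - G l z)

theorem continuous_rho : Continuous (rho l) := by
  have := (contDiff_G (l := l)).continuous
  unfold rho
  fun_prop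

theorem norm_yy {x : E4} (hx : x ∈ M l) : ‖yy x‖ = rho l (zc x) := by
  have h1 := norm_yy_sq x
  rw [mem_M.1 hx] at h1
  rw [rho, ← h1, Real.sqrt_sq (norm_nonneg _)]

theorem rho_tip (hl : 0 < l) : rho l (tip l) = 0 := by
  rw [rho, G_tip hl]; simp

theorem rho_pos (hl : 0 < l) {z : ℝ} (h : tip l < z) : 0 < rho l z :=
  Real.sqrt_pos.2 (by have := G_lt_one hl h; linarith)

theorem rho_sq (hl : 0 < l) {z : ℝ} (h : tip l ≤ z) : rho l z ^ 2 = 1 - G l z := by
  rw [rho, Real.sq_sqrt]
  have := (G_le_one_iff hl).2 h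
  linarith

/-- the map to three-space -/
def toR3 (l : ℝ) (x : E4) : E3 := (zc x - tip l) • (‖yy x‖⁻¹ • yy x)

/-- the inverse map -/
def ofR3 (l : ℝ) (w : E3) : E4 := mk4 (rho l (tip l + ‖w‖) • (‖w‖⁻¹ • w)) (tip l + ‖w‖)

theorem yy_eq_zero_iff (hl : 0 < l) {x : E4} (hx : x ∈ M l) : yy x = 0 ↔ zc x = tip l := by
  rw [← norm_eq_zero, norm_yy hx]
  constructor
  · intro h
    rcases (tip_le hl hx).eq_or_lt with h1 | h1
    · exact h1.symm
    · exact absurd h (rho_pos hl h1).ne'
  · intro h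
    rw [h, rho_tip hl]

theorem ofR3_mem (hl : 0 < l) (w : E3) : ofR3 l w ∈ M l := by
  rw [mem_M, ← norm_yy_sq]
  unfold ofR3
  rw [yy_mk4, zc_mk4]
  by_cases hw : w = 0
  · subst hw
    simp [G_tip hl]
  · have h1 : ‖w‖ ≠ 0 := norm_ne_zero_iff.2 hw
    rw [norm_smul, norm_smul, norm_inv, norm_norm, inv_mul_cancel₀ h1, mul_one, Real.norm_eq_abs,
      sq_abs, rho_sq hl (by have := norm_nonneg w; linarith)]

theorem ofR3_toR3 (hl : 0 < l) {x : E4} (hx : x ∈ M l) : ofR3 l (toR3 l x) = x := by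
  have ht := tip_le hl hx
  by_cases hy : yy x = 0
  · have h1 := (yy_eq_zero_iff hl hx).1 hy
    have h2 : toR3 l x = 0 := by unfold toR3; rw [h1]; simp
    rw [h2, ofR3]
    simp only [norm_zero, add_zero, rho_tip hl, zero_smul]
    rw [← h1, ← hy, mk4_yy]
  · have h1 : ‖yy x‖ ≠ 0 := norm_ne_zero_iff.2 hy
    have h2 : zc x ≠ tip l := fun h => hy ((yy_eq_zero_iff hl hx).2 h)
    have h3 : 0 < zc x - tip l := by
      have := lt_of_le_of_ne ht (Ne.symm h2)
      linarith
    have h4 : ‖toR3 l x‖ = zc x - tip l := by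
      unfold toR3
      rw [norm_smul, norm_smul, norm_inv, norm_norm, inv_mul_cancel₀ h1, mul_one, Real.norm_eq_abs,
        abs_of_pos h3]
    rw [ofR3, h4]
    have h5 : tip l + (zc x - tip l) = zc x := by ring
    rw [h5, ← norm_yy hx]
    have h6 : ‖yy x‖ • ((zc x - tip l)⁻¹ • toR3 l x) = yy x := by
      unfold toR3
      rw [smul_smul (zc x - tip l)⁻¹, inv_mul_cancel₀ h3.ne', one_smul, smul_smul,
        mul_inv_cancel₀ h1, one_smul]
    rw [h6, mk4_yy]

theorem toR3_ofR3 (hl : 0 < l) (w : E3) : toR3 l (ofR3 l w) = w := by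
  unfold toR3 ofR3
  rw [yy_mk4, zc_mk4]
  by_cases hw : w = 0
  · subst hw; simp
  · have h1 : ‖w‖ ≠ 0 := norm_ne_zero_iff.2 hw
    have h2 : 0 < ‖w‖ := norm_pos_iff.2 hw
    have h3 : 0 < rho l (tip l + ‖w‖) := rho_pos hl (by linarith)
    have h4 : ‖rho l (tip l + ‖w‖) • ‖w‖⁻¹ • w‖ = rho l (tip l + ‖w‖) := by
      rw [norm_smul, norm_smul, norm_inv, norm_norm, inv_mul_cancel₀ h1, mul_one,
        Real.norm_eq_abs, abs_of_pos h3]
    rw [h4, add_sub_cancel_left, smul_smul (rho l (tip l + ‖w‖))⁻¹, inv_mul_cancel₀ h3.ne',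
      one_smul, smul_smul, mul_inv_cancel₀ h1, one_smul]

/-- the hypersurface is homeomorphic to three-space -/
def homeoM (hl : 0 < l) : M l ≃ₜ E3 where
  toFun x := toR3 l x.1
  invFun w := ⟨ofR3 l w, ofR3_mem hl w⟩
  left_inv x := Subtype.ext (ofR3_toR3 hl x.2)
  right_inv w := toR3_ofR3 hl w
  continuous_toFun := by
    refine continuous_polar (X := M l) (f := fun x => zc x.1 - tip l) (u := fun x => yy x.1) ?_ ?_ ?_
    · exact (zc.continuous.comp continuous_subtype_val).sub continuous_const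
    · exact continuous_yy.comp continuous_subtype_val
    · intro x hx
      have := (yy_eq_zero_iff hl x.2).1 hx
      linarith
  continuous_invFun := by
    refine Continuous.subtype_mk ?_ _
    have h1 : Continuous (fun w : E3 => tip l + ‖w‖) := continuous_const.add continuous_norm
    have h2 : Continuous (fun w : E3 => rho l (tip l + ‖w‖) • (‖w‖⁻¹ • w)) := by
      refine continuous_polar (continuous_rho.comp h1) continuous_id fun w hw => ?_
      have : w = 0 := hw
      subst this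
      simp [rho_tip hl]
    exact continuous_mk4.comp (h2.prodMk h1)

theorem isConnected_M (hl : 0 < l) : IsConnected (M l) := by
  rw [isConnected_iff_connectedSpace]
  exact (homeoM hl).symm.surjective.connectedSpace (homeoM hl).symm.continuous

theorem not_isCompact_M (hl : 0 < l) : ¬ IsCompact (M l) := by
  intro h
  have h1 : CompactSpace (M l) := isCompact_iff_compactSpace.1 h
  have h2 : CompactSpace E3 := (homeoM hl).compactSpace
  exact not_compactSpace_iff.2 inferInstance h2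

theorem isCompleteHypersurface_M (hl : 0 < l) : IsCompleteHypersurface (M l) (Nf l) :=
  isCompleteHypersurface_M_aux hl (isConnected_M hl)

end Pool.Agent.W556.Cap
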