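import Mathlib
import Pool.Agent.W556.CapM

/-!
# Local frames of embedded surfaces
-/

set_option autoImplicit false

noncomputable section

open Set Filter Topology MeasureTheory Metric
open scoped ContDiff NNReal

namespace Pool.Agent.W556.Cap

variable {l : ℝ}

/-- the gradient of `g` -/
def grad (g : E4 → ℝ) (x : E4) : E4 := (InnerProductSpace.toDual ℝ E4).symm (fderiv ℝ g x)

theorem inner_grad (g : E4 → ℝ) (x v : E4) : inner ℝ (grad g x) v = fderiv ℝ g x v := by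
  rw [grad, InnerProductSpace.toDual_symm_apply]

/-- the gradient tangential to `M` -/
def tgrad (l : ℝ) (g : E4 → ℝ) (x : E4) : E4 :=
  grad g x - inner ℝ (Nf l x) (grad g x) • Nf l x

theorem contDiffOn_grad {g : E4 → ℝ} {U : Set E4} (hU : IsOpen U) (hg : ContDiffOn ℝ ∞ g U) :
    ContDiffOn ℝ ∞ (grad g) U := by
  have h1 : ContDiffOn ℝ ∞ (fderiv ℝ g) U := hg.fderiv_of_isOpen hU (by simp)
  have h2 : ContDiff ℝ ∞ ((InnerProductSpace.toDual ℝ E4).symm) :=
    (InnerProductSpace.toDual ℝ E4).symm.contDiff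
  exact h2.comp_contDiffOn h1

theorem contDiffOn_tgrad {g : E4 → ℝ} {U : Set E4} (hU : IsOpen U) (hg : ContDiffOn ℝ ∞ g U) :
    ContDiffOn ℝ ∞ (tgrad l g) (U ∩ {x | gr l x ≠ 0}) := by
  have h1 : ContDiffOn ℝ ∞ (grad g) (U ∩ {x | gr l x ≠ 0}) :=
    (contDiffOn_grad hU hg).mono inter_subset_left
  have h2 : ContDiffOn ℝ ∞ (Nf l) (U ∩ {x | gr l x ≠ 0}) :=
    fun x hx => (contDiffAt_Nf hx.2).contDiffWithinAt
  exact h1.sub ((h2.inner ℝ h1).smul h2)

/-- An orthonormal frame of the normal bundle of `Γ` in `ℝ⁴` is given, on the open set `O`, by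
the normal `Nf l` of `M` and by `n`. -/
structure Frame (l : ℝ) (Γ O : Set E4) (n : E4 → E4) : Prop where
  isOpen : IsOpen O
  smooth : ContDiffOn ℝ ∞ n O
  unit : ∀ q ∈ Γ ∩ O, ‖n q‖ = 1
  orth : ∀ q ∈ Γ ∩ O, inner ℝ (Nf l q) (n q) = 0
  tangent : ∀ q ∈ Γ ∩ O, ∀ v, v ∈ tangentSpace Γ q ↔ inner ℝ (Nf l q) v = 0 ∧ inner ℝ (n q) v = 0

/-- a defining function at `p` of the surface `Γ` of `M` -/
structure LocalDef (l : ℝ) (Γ U : Set E4) (g : E4 → ℝ) : Prop where
  isOpen : IsOpen U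
  smooth : ContDiffOn ℝ ∞ g U
  gr_ne : ∀ q ∈ U, gr l q ≠ 0
  ne : ∀ q ∈ U, tgrad l g q ≠ 0
  iff_zero : ∀ q ∈ U, (q ∈ Γ ↔ q ∈ M l ∧ g q = 0)

theorem exists_localDef (hl : 0 < l) {Γ : Set E4} (hS : IsEmbeddedSurface (M l) Γ) {p : E4}
    (hp : p ∈ Γ) : ∃ U g, p ∈ U ∧ LocalDef l Γ U g := by
  obtain ⟨U, hU, hpU, g, hg, ⟨v, hv, hgv⟩, hiff⟩ := hS.smooth p hp
  have hpM := hS.subset hp
  have hgr := gr_ne_zero hl hpM
  have hne : tgrad l g p ≠ 0 := by
    intro h0
    have h1 : inner ℝ (tgrad l g p) v = 0 := by rw [h0, inner_zero_left]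
    rw [tgrad, inner_sub_left, inner_smul_left, (mem_tangentSpace_M' hl hpM).1 hv, mul_zero,
      sub_zero, inner_grad] at h1
    exact hgv h1
  have hO : IsOpen (U ∩ {x | gr l x ≠ 0}) :=
    hU.inter (isOpen_ne_fun contDiff_gr.continuous continuous_const)
  have hcont : ContinuousOn (tgrad l g) (U ∩ {x | gr l x ≠ 0}) :=
    (contDiffOn_tgrad hU hg).continuousOn
  refine ⟨(U ∩ {x | gr l x ≠ 0}) ∩ (tgrad l g) ⁻¹' {x | x ≠ 0}, g, ⟨⟨hpU, hgr⟩, hne⟩, ?_, ?_, ?_,
    ?_, ?_⟩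
  · exact hcont.isOpen_inter_preimage hO isOpen_ne
  · exact hg.mono fun x hx => hx.1.1
  · exact fun q hq => hq.1.2
  · exact fun q hq => hq.2
  · exact fun q hq => hiff q hq.1.1

theorem LocalDef.differentiableAt {Γ U : Set E4} {g : E4 → ℝ} (h : LocalDef l Γ U g) {q : E4}
    (hq : q ∈ U) : HasStrictFDerivAt g (fderiv ℝ g q) q :=
  (h.smooth.contDiffAt (h.isOpen.mem_nhds hq)).hasStrictFDerivAt (by simp)

/-- the pair of defining functions of `Γ` -/
def pairF (l : ℝ) (g : E4 → ℝ) (x : E4) : ℝ × ℝ := (Phi l x, g x)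

theorem LocalDef.strict {Γ U : Set E4} {g : E4 → ℝ} (h : LocalDef l Γ U g) {q : E4}
    (hq : q ∈ U) : HasStrictFDerivAt (pairF l g) ((innerSL ℝ (gr l q)).prod (fderiv ℝ g q)) q :=
  (hasStrictFDerivAt_Phi q).prodMk (h.differentiableAt hq)

theorem inner_Nf_tgrad {x : E4} (hx : gr l x ≠ 0) (g : E4 → ℝ) :
    inner ℝ (Nf l x) (tgrad l g x) = 0 := by
  have h1 : ‖Nf l x‖ = 1 := by
    have h := norm_ne_zero_iff.2 hx
    rw [Nf, norm_smul, norm_inv, norm_norm, inv_mul_cancel₀ h]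
  rw [tgrad, inner_sub_right, inner_smul_right, real_inner_self_eq_norm_sq, h1]
  ring

theorem inner_gr_tgrad {x : E4} (hx : gr l x ≠ 0) (g : E4 → ℝ) :
    inner ℝ (gr l x) (tgrad l g x) = 0 := by
  have h1 := inner_Nf_tgrad hx g
  rw [Nf, inner_smul_left] at h1
  have h := norm_ne_zero_iff.2 hx
  simpa [h] using h1

theorem fderiv_tgrad {x : E4} (hx : gr l x ≠ 0) (g : E4 → ℝ) :
    fderiv ℝ g x (tgrad l g x) = ‖tgrad l g x‖ ^ 2 := by
  have h1 := inner_Nf_tgrad hx g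
  have h2 : grad g x = tgrad l g x + inner ℝ (Nf l x) (grad g x) • Nf l x := by
    rw [tgrad]; abel
  rw [← inner_grad, h2, inner_add_left, inner_smul_left, h1, real_inner_self_eq_norm_sq]
  simp

theorem LocalDef.surj {Γ U : Set E4} {g : E4 → ℝ} (h : LocalDef l Γ U g) {q : E4}
    (hq : q ∈ U) : (((innerSL ℝ (gr l q)).prod (fderiv ℝ g q)) : E4 →L[ℝ] ℝ × ℝ).range = ⊤ := by
  apply LinearMap.range_eq_top.2
  rintro ⟨a, b⟩
  have hgr := h.gr_ne q hq
  have hne := h.ne q hq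
  have h1 : ‖gr l q‖ ^ 2 ≠ 0 := by positivity
  have h2 : ‖tgrad l g q‖ ^ 2 ≠ 0 := by positivity
  set s : ℝ := a / ‖gr l q‖ ^ 2 with hs
  refine ⟨s • gr l q + ((b - s * fderiv ℝ g q (gr l q)) / ‖tgrad l g q‖ ^ 2) • tgrad l g q, ?_⟩
  apply Prod.ext
  · show inner ℝ (gr l q) _ = a
    rw [inner_add_right, inner_smul_right, inner_smul_right, inner_gr_tgrad hgr,
      real_inner_self_eq_norm_sq, hs]
    field_simp
    ring
  · show fderiv ℝ g q _ = b
    rw [map_add, map_smul, map_smul, fderiv_tgrad hgr, smul_eq_mul, smul_eq_mul]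
    field_simp
    ring

theorem LocalDef.eventually {Γ U : Set E4} {g : E4 → ℝ} (h : LocalDef l Γ U g) {q : E4}
    (hq : q ∈ U) (hqΓ : q ∈ Γ) : ∀ᶠ x in 𝓝 q, (x ∈ Γ ↔ pairF l g x = pairF l g q) := by
  obtain ⟨h1, h2⟩ := (h.iff_zero q hq).1 hqΓ
  have h1' : Phi l q = 0 := h1
  filter_upwards [h.isOpen.mem_nhds hq] with x hx
  rw [h.iff_zero x hx, pairF, pairF, h1', h2, Prod.mk.injEq]
  rfl

theorem LocalDef.frame {Γ U : Set E4} {g : E4 → ℝ} (h : LocalDef l Γ U g) :
    Frame l Γ U (fun x => ‖tgrad l g x‖⁻¹ • tgrad l g x) where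
  isOpen := h.isOpen
  smooth := by
    have h1 : ContDiffOn ℝ ∞ (tgrad l g) U :=
      (contDiffOn_tgrad h.isOpen h.smooth).mono fun x hx => ⟨hx, h.gr_ne x hx⟩
    intro x hx
    have h2 := h1 x hx
    exact ((h2.norm ℝ (h.ne x hx)).inv (norm_ne_zero_iff.2 (h.ne x hx))).smul h2
  unit := by
    intro q hq
    have h := norm_ne_zero_iff.2 (h.ne q hq.2)
    rw [norm_smul, norm_inv, norm_norm, inv_mul_cancel₀ h]
  orth := by
    intro q hq
    rw [inner_smul_right, inner_Nf_tgrad (h.gr_ne q hq.2), mul_zero]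
  tangent := by
    intro q hq v
    have hgr := h.gr_ne q hq.2
    have hne := h.ne q hq.2
    have h1 := norm_ne_zero_iff.2 hgr
    have h2 := norm_ne_zero_iff.2 hne
    rw [tangentSpace_level (h.strict hq.2) (h.surj hq.2) (h.eventually hq.2 hq.1)]
    have e1 : inner ℝ (Nf l q) v = ‖gr l q‖⁻¹ * inner ℝ (gr l q) v := by
      rw [Nf, inner_smul_left]; simp
    have e2 : inner ℝ (‖tgrad l g q‖⁻¹ • tgrad l g q) v =
        ‖tgrad l g q‖⁻¹ * inner ℝ (tgrad l g q) v := by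
      rw [inner_smul_left]; simp
    have e3 : inner ℝ (tgrad l g q) v = fderiv ℝ g q v -
        inner ℝ (Nf l q) (grad g q) * inner ℝ (Nf l q) v := by
      rw [tgrad, inner_sub_left, inner_smul_left, inner_grad]; simp
    have e4 : v ∈ LinearMap.ker ((((innerSL ℝ (gr l q)).prod (fderiv ℝ g q)) : E4 →L[ℝ] ℝ × ℝ) :
        E4 →ₗ[ℝ] ℝ × ℝ) ↔ (inner ℝ (gr l q) v = 0 ∧ fderiv ℝ g q v = 0) := by
      rw [LinearMap.mem_ker]
      exact Prod.mk_eq_zero
    rw [e4, e2, e1]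
    constructor
    · rintro ⟨a, b⟩
      refine ⟨by rw [a, mul_zero], ?_⟩
      rw [e3, b, e1, a]; ring
    · rintro ⟨a, b⟩
      have a' : inner ℝ (gr l q) v = 0 := by simpa [h1] using a
      have b' : inner ℝ (tgrad l g q) v = 0 := by simpa [h2] using b
      refine ⟨a', ?_⟩
      rw [e3, e1, a'] at b'
      simpa using b'

theorem exists_frame (hl : 0 < l) {Γ : Set E4} (hS : IsEmbeddedSurface (M l) Γ) {p : E4}
    (hp : p ∈ Γ) : ∃ O n, p ∈ O ∧ Frame l Γ O n := by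
  obtain ⟨U, g, hpU, h⟩ := exists_localDef hl hS hp
  exact ⟨U, _, hpU, h.frame⟩

/-- area is positive near each point of the surface -/
theorem area_pos (hl : 0 < l) {Γ : Set E4} (hS : IsEmbeddedSurface (M l) Γ) {p : E4}
    (hp : p ∈ Γ) {V : Set E4} (hV : V ∈ 𝓝 p) : 0 < (μH[2] : Measure E4) (Γ ∩ V) := by
  obtain ⟨U, g, hpU, h⟩ := exists_localDef hl hS hp
  exact area_pos_level (h.strict hpU) (h.surj hpU) (by simp) (h.eventually hpU hp) hV

namespace Frame

variable {Γ O : Set E4} {n : E4 → E4}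

theorem proj (h : Frame l Γ O n) (hl : 0 < l) (hΓ : Γ ⊆ M l) {q : E4} (hq : q ∈ Γ ∩ O) (v : E4) :
    (tangentSpace Γ q).starProjection v =
      v - inner ℝ (Nf l q) v • Nf l q - inner ℝ (n q) v • n q := by
  have h1 := norm_Nf hl (hΓ hq.1)
  have h2 := h.unit q hq
  have h3 := h.orth q hq
  apply proj_eq
  · rw [h.tangent q hq]
    simp only [inner_sub_right, inner_smul_right, real_inner_self_eq_norm_sq, h1, h2, h3,
      real_inner_comm (Nf l q) (n q)]
    constructor <;> ring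
  · intro u hu
    rw [h.tangent q hq] at hu
    have : v - (v - inner ℝ (Nf l q) v • Nf l q - inner ℝ (n q) v • n q) =
        inner ℝ (Nf l q) v • Nf l q + inner ℝ (n q) v • n q := by abel
    rw [this, inner_add_left, inner_smul_left, inner_smul_left, hu.1, hu.2]
    simp

theorem mem_normalLine (h : Frame l Γ O n) (hl : 0 < l) (hΓ : Γ ⊆ M l) {q : E4}
    (hq : q ∈ Γ ∩ O) {v : E4} :
    v ∈ normalLine (M l) Γ q ↔ v = inner ℝ (n q) v • n q := by
  have h1 := norm_Nf hl (hΓ hq.1)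
  have h2 := h.unit q hq
  have h3 := h.orth q hq
  constructor
  · rintro ⟨hv1, hv2⟩
    have hv1' : inner ℝ (Nf l q) v = 0 := (mem_tangentSpace_M' hl (hΓ hq.1)).1 hv1
    have hw := h.proj hl hΓ hq v
    have hw2 : (tangentSpace Γ q).starProjection v = 0 := by
      rw [Submodule.starProjection_apply_eq_zero_iff]; exact hv2
    rw [hw2, hv1', zero_smul, sub_zero] at hw
    exact (sub_eq_zero.1 hw.symm)
  · intro hv
    refine ⟨?_, ?_⟩
    · show v ∈ tangentSpace (M l) q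
      rw [mem_tangentSpace_M' hl (hΓ hq.1), hv, inner_smul_right, h3, mul_zero]
    · show v ∈ (tangentSpace Γ q)ᗮ
      rw [Submodule.mem_orthogonal]
      intro u hu
      rw [h.tangent q hq] at hu
      rw [hv, inner_smul_right, real_inner_comm (n q) u, hu.2, mul_zero]

theorem proj_normal (h : Frame l Γ O n) (hl : 0 < l) (hΓ : Γ ⊆ M l) {q : E4}
    (hq : q ∈ Γ ∩ O) (v : E4) :
    (normalLine (M l) Γ q).starProjection v = inner ℝ (n q) v • n q := by
  have h2 := h.unit q hq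
  apply proj_eq
  · rw [h.mem_normalLine hl hΓ hq, inner_smul_right, real_inner_self_eq_norm_sq, h2]
    simp
  · intro u hu
    rw [h.mem_normalLine hl hΓ hq] at hu
    rw [hu, inner_smul_right, inner_sub_left, inner_smul_left, real_inner_self_eq_norm_sq, h2,
      real_inner_comm (n q) v]
    simp

end Frame

/-- the tangential projection depends continuously on the point -/
theorem continuousOn_proj' (hl : 0 < l) {Γ : Set E4} (hS : IsEmbeddedSurface (M l) Γ)
    {W : E4 → E4} (hW : ContinuousOn W Γ) :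
    ContinuousOn (fun q => (tangentSpace Γ q).starProjection (W q)) Γ := by
  intro p hp
  obtain ⟨O, n, hpO, h⟩ := exists_frame hl hS hp
  have hn : ContinuousWithinAt n Γ p :=
    ((h.smooth.continuousOn).continuousAt (h.isOpen.mem_nhds hpO)).continuousWithinAt
  have hN : ContinuousWithinAt (Nf l) Γ p :=
    (contDiffAt_Nf (gr_ne_zero hl (hS.subset hp))).continuousAt.continuousWithinAt
  have e1 : ContinuousWithinAt (fun q => inner ℝ (Nf l q) (W q)) Γ p := hN.inner (hW p hp)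
  have e2 : ContinuousWithinAt (fun q => inner ℝ (n q) (W q)) Γ p := hn.inner (hW p hp)
  have e3 : ContinuousWithinAt (fun q => inner ℝ (Nf l q) (W q) • Nf l q) Γ p := e1.smul hN
  have e4 : ContinuousWithinAt (fun q => inner ℝ (n q) (W q) • n q) Γ p := e2.smul hn
  have hc : ContinuousWithinAt (fun q => W q - inner ℝ (Nf l q) (W q) • Nf l q -
      inner ℝ (n q) (W q) • n q) Γ p := ((hW p hp).sub e3).sub e4
  refine hc.congr_of_eventuallyEq ?_ (h.proj hl hS.subset ⟨hp, hpO⟩ _)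
  filter_upwards [self_mem_nhdsWithin, mem_nhdsWithin_of_mem_nhds (h.isOpen.mem_nhds hpO)] with q hq
    hqO
  exact h.proj hl hS.subset ⟨hq, hqO⟩ _

theorem continuousOn_proj (hl : 0 < l) {Γ : Set E4} (hS : IsEmbeddedSurface (M l) Γ) (v : E4) :
    ContinuousOn (fun q => (tangentSpace Γ q).starProjection v) Γ :=
  continuousOn_proj' hl hS (W := fun _ => v) continuousOn_const

theorem continuousOn_proj_normal (hl : 0 < l) {Γ : Set E4} (hS : IsEmbeddedSurface (M l) Γ)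
    {W : E4 → E4} (hW : ContinuousOn W Γ) :
    ContinuousOn (fun q => (normalLine (M l) Γ q).starProjection (W q)) Γ := by
  intro p hp
  obtain ⟨O, n, hpO, h⟩ := exists_frame hl hS hp
  have hn : ContinuousWithinAt n Γ p :=
    ((h.smooth.continuousOn).continuousAt (h.isOpen.mem_nhds hpO)).continuousWithinAt
  have e2 : ContinuousWithinAt (fun q => inner ℝ (n q) (W q)) Γ p := hn.inner (hW p hp)
  have hc : ContinuousWithinAt (fun q => inner ℝ (n q) (W q) • n q) Γ p := e2.smul hn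
  refine hc.congr_of_eventuallyEq ?_ (h.proj_normal hl hS.subset ⟨hp, hpO⟩ _)
  filter_upwards [self_mem_nhdsWithin, mem_nhdsWithin_of_mem_nhds (h.isOpen.mem_nhds hpO)] with q hq
    hqO
  exact h.proj_normal hl hS.subset ⟨hq, hqO⟩ _

/-- the squared length of the tangential part of the vertical vector -/
def hh (Γ : Set E4) (q : E4) : ℝ := ‖(tangentSpace Γ q).starProjection ez‖ ^ 2

theorem hh_nonneg (Γ : Set E4) (q : E4) : 0 ≤ hh Γ q := by unfold hh; positivity

theorem hh_le_one (Γ : Set E4) (q : E4) : hh Γ q ≤ 1 := by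
  have h1 := (tangentSpace Γ q).starProjection_norm_le
  have h2 := ((tangentSpace Γ q).starProjection).le_opNorm ez
  rw [norm_ez, mul_one] at h2
  have h3 : ‖(tangentSpace Γ q).starProjection ez‖ ≤ 1 := h2.trans h1
  unfold hh
  exact pow_le_one₀ (norm_nonneg _) h3

theorem continuousOn_hh (hl : 0 < l) {Γ : Set E4} (hS : IsEmbeddedSurface (M l) Γ) :
    ContinuousOn (hh Γ) Γ :=
  ((continuousOn_proj hl hS ez).norm.pow 2)

end Pool.Agent.W556.Cap
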