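import Mathlib
import Pool.Agent.W556.CapSurf
import Pool.Agent.W556.CapHomeo
import Pool.Agent.W556.CapCover

/-!
# The hypersurface contains no one-sided surfaces
-/

set_option autoImplicit false

noncomputable section

open Set Filter Topology MeasureTheory Metric
open scoped ContDiff NNReal Classical

namespace Pool.Agent.W556.Cap

variable {l : ℝ}

theorem xor_decide {a b r : ℝ} (ha : a ≠ 0) (hb : b ≠ 0) (h : 0 < a * b * r) :
    xor (decide (0 < a)) (decide (0 < b)) = decide (r < 0) := by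
  rcases lt_or_gt_of_ne ha with h1 | h1 <;> rcases lt_or_gt_of_ne hb with h2 | h2
  · have h3 : 0 < a * b := mul_pos_of_neg_of_neg h1 h2
    have h4 : 0 < r := (mul_pos_iff_of_pos_left h3).1 h
    simp [not_lt.2 h1.le, not_lt.2 h2.le, not_lt.2 h4.le]
  · have h3 : a * b < 0 := mul_neg_of_neg_of_pos h1 h2
    have h4 : r < 0 := by
      by_contra hc
      push Not at hc
      have := mul_nonpos_of_nonpos_of_nonneg h3.le hc
      linarith
    simp [not_lt.2 h1.le, h2, h4]
  · have h3 : a * b < 0 := mul_neg_of_pos_of_neg h1 h2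
    have h4 : r < 0 := by
      by_contra hc
      push Not at hc
      have := mul_nonpos_of_nonpos_of_nonneg h3.le hc
      linarith
    simp [not_lt.2 h2.le, h1, h4]
  · have h3 : 0 < a * b := mul_pos h1 h2
    have h4 : 0 < r := (mul_pos_iff_of_pos_left h3).1 h
    simp [h1, h2, not_lt.2 h4.le]

/-- the sign function of `g` -/
def sg (Γ : Set E4) (nref : E4 → E4) (l : ℝ) (g : E4 → ℝ) (x : E4) : Bool :=
  if x ∈ Γ then decide (0 < inner ℝ (tgrad l g x) (nref x)) else decide (0 < g x)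

section pair
variable {Γ U U' : Set E4} {g g' : E4 → ℝ}

theorem LocalDef.tgrad_mem (hl : 0 < l) (hΓ : Γ ⊆ M l) (h : LocalDef l Γ U g) {x : E4}
    (hx : x ∈ Γ ∩ U) : tgrad l g x ∈ normalLine (M l) Γ x := by
  rw [h.frame.mem_normalLine hl hΓ hx]
  have h1 := norm_ne_zero_iff.2 (h.ne x hx.2)
  rw [inner_smul_left, real_inner_self_eq_norm_sq, smul_smul, conj_trivial]
  have : ‖tgrad l g x‖⁻¹ * ‖tgrad l g x‖ ^ 2 * ‖tgrad l g x‖⁻¹ = 1 := by
    field_simp
  rw [this, one_smul]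

/-- the tangential gradients of two defining functions are proportional -/
theorem tgrad_prop (hl : 0 < l) (hΓ : Γ ⊆ M l) (h : LocalDef l Γ U g) (h' : LocalDef l Γ U' g')
    {x : E4} (hx : x ∈ Γ) (hxU : x ∈ U) (hxU' : x ∈ U') :
    tgrad l g' x = (inner ℝ (tgrad l g x) (tgrad l g' x) / ‖tgrad l g x‖ ^ 2) • tgrad l g x := by
  have h1 := h'.tgrad_mem hl hΓ ⟨hx, hxU'⟩
  rw [h.frame.mem_normalLine hl hΓ ⟨hx, hxU⟩, inner_smul_left, smul_smul, conj_trivial] at h1
  conv_lhs => rw [h1]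
  congr 1
  have h2 := norm_ne_zero_iff.2 (h.ne x hxU)
  field_simp

theorem ratio_ne (hl : 0 < l) (hΓ : Γ ⊆ M l) (h : LocalDef l Γ U g) (h' : LocalDef l Γ U' g')
    {x : E4} (hx : x ∈ Γ) (hxU : x ∈ U) (hxU' : x ∈ U') :
    inner ℝ (tgrad l g x) (tgrad l g' x) ≠ 0 := by
  intro h0
  have h1 := tgrad_prop hl hΓ h h' hx hxU hxU'
  rw [h0, zero_div, zero_smul] at h1
  exact h'.ne x hxU' h1

/-- off the surface, the two defining functions have the same ratio as their gradients -/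
theorem ratio_off (hl : 0 < l) (hΓ : Γ ⊆ M l) (h : LocalDef l Γ U g) (h' : LocalDef l Γ U' g')
    {x : E4} (hx : x ∈ Γ) (hxU : x ∈ U) (hxU' : x ∈ U') :
    ∀ᶠ y in 𝓝 x, y ∈ M l → y ∉ Γ →
      0 < g y * g' y * inner ℝ (tgrad l g x) (tgrad l g' x) := by
  set r := inner ℝ (tgrad l g x) (tgrad l g' x) / ‖tgrad l g x‖ ^ 2 with hr
  have hT : 0 < ‖tgrad l g x‖ ^ 2 := by
    have := h.ne x hxU
    positivity
  have hi := ratio_ne hl hΓ h h' hx hxU hxU'
  have hr0 : r ≠ 0 := div_ne_zero hi hT.ne'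
  have hxM := hΓ hx
  have hgr := h.gr_ne x hxU
  -- the function with vanishing derivative
  set κ : ℝ := (inner ℝ (Nf l x) (grad g' x) - r * inner ℝ (Nf l x) (grad g x)) * ‖gr l x‖⁻¹ with hκ
  have hH : HasStrictFDerivAt (fun y => g' y - r * g y - κ * Phi l y) (0 : E4 →L[ℝ] ℝ) x := by
    have e1 := h'.differentiableAt hxU'
    have e2 := (h.differentiableAt hxU).const_mul r
    have e3 := (hasStrictFDerivAt_Phi (l := l) x).const_mul κ
    refine ((e1.sub e2).sub e3).congr_fderiv ?_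
    ext v
    have f1 : fderiv ℝ g' x v = inner ℝ (tgrad l g' x) v +
        inner ℝ (Nf l x) (grad g' x) * inner ℝ (Nf l x) v := by
      rw [← inner_grad, tgrad, inner_sub_left, inner_smul_left]; simp
    have f2 : fderiv ℝ g x v = inner ℝ (tgrad l g x) v +
        inner ℝ (Nf l x) (grad g x) * inner ℝ (Nf l x) v := by
      rw [← inner_grad, tgrad, inner_sub_left, inner_smul_left]; simp
    have f3 : inner ℝ (tgrad l g' x) v = r * inner ℝ (tgrad l g x) v := by
      rw [tgrad_prop hl hΓ h h' hx hxU hxU', inner_smul_left]; simp [hr]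
    have f4 : inner ℝ (Nf l x) v = ‖gr l x‖⁻¹ * inner ℝ (gr l x) v := by
      rw [Nf, inner_smul_left]; simp
    simp only [_root_.sub_apply, _root_.smul_apply, smul_eq_mul,
      _root_.zero_apply, innerSL_apply_apply]
    rw [f1, f2, f3, f4, hκ]
    ring
  obtain ⟨C, hC, hreg⟩ := level_reg (h.strict hxU) (h.surj hxU)
  -- smallness
  have hε : 0 < |r| / (2 * C) := by positivity
  have hsm := hH.isLittleO.def hε
  rw [nhds_prod_eq] at hsm
  obtain ⟨t, ht, hsm'⟩ := (eventually_prod_self_iff (r := fun a b : E4 =>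
    ‖(g' a - r * g a - κ * Phi l a) - (g' b - r * g b - κ * Phi l b) -
      (0 : E4 →L[ℝ] ℝ) (a - b)‖ ≤ |r| / (2 * C) * ‖a - b‖)).1 hsm
  have hW : t ∩ (U ∩ U') ∈ 𝓝 x :=
    inter_mem ht (inter_mem (h.isOpen.mem_nhds hxU) (h'.isOpen.mem_nhds hxU'))
  obtain ⟨δ, hδ, hball⟩ := Metric.mem_nhds_iff.1 hW
  have hFc : ContinuousAt (pairF l g) x := (h.strict hxU).hasFDerivAt.continuousAt
  have hdist : ∀ᶠ y in 𝓝 x, C * dist (pairF l g y) (pairF l g x) < δ / 2 := by
    have h2 : Tendsto (fun y => C * dist (pairF l g y) (pairF l g x)) (𝓝 x) (𝓝 0) := by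
      have h3 : Tendsto (fun y => dist (pairF l g y) (pairF l g x)) (𝓝 x) (𝓝 0) := by
        rw [← tendsto_iff_dist_tendsto_zero]; exact hFc
      simpa using h3.const_mul C
    exact h2.eventually (gt_mem_nhds (half_pos hδ))
  have hPhix : Phi l x = 0 := hxM
  have hgx : g x = 0 := ((h.iff_zero x hxU).1 hx).2
  filter_upwards [hreg, hdist, ball_mem_nhds x (half_pos hδ)] with y hy1 hy2 hy3 hyM hyΓ
  obtain ⟨z, hz1, hz2⟩ := hy1
  have hyδ : y ∈ ball x δ := ball_subset_ball (by linarith) hy3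
  have hzδ : z ∈ ball x δ := by
    rw [mem_ball] at hy3 ⊢
    have := dist_triangle z y x
    linarith
  obtain ⟨hyt, hyU, hyU'⟩ := hball hyδ
  obtain ⟨hzt, hzU, hzU'⟩ := hball hzδ
  have hPhiy : Phi l y = 0 := hyM
  have hz1' : Phi l z = 0 ∧ g z = 0 := by
    have e1 : Phi l z = Phi l x := congrArg Prod.fst hz1
    have e2 : g z = g x := congrArg Prod.snd hz1
    exact ⟨e1.trans hPhix, e2.trans hgx⟩
  have hzΓ : z ∈ Γ := (h.iff_zero z hzU).2 ⟨hz1'.1, hz1'.2⟩
  have hg'z : g' z = 0 := ((h'.iff_zero z hzU').1 hzΓ).2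
  have hgy : g y ≠ 0 := fun h0 => hyΓ ((h.iff_zero y hyU).2 ⟨hyM, h0⟩)
  have hd : dist (pairF l g y) (pairF l g x) = |g y| := by
    rw [pairF, pairF, hPhiy, hPhix, hgx, Prod.dist_eq, dist_self, Real.dist_eq, sub_zero]
    exact max_eq_right (abs_nonneg _)
  have hs := hsm' y hyt z hzt
  rw [hg'z, hz1'.1, hz1'.2, hPhiy] at hs
  simp only [mul_zero, sub_zero, _root_.zero_apply] at hs
  rw [Real.norm_eq_abs, ← dist_eq_norm, dist_comm] at hs
  have hs2 : |g' y - r * g y| ≤ |r| / 2 * |g y| := by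
    refine hs.trans ?_
    calc |r| / (2 * C) * dist z y ≤ |r| / (2 * C) * (C * |g y|) := by
          rw [hd] at hz2
          gcongr
      _ = |r| / 2 * |g y| := by field_simp
  -- conclude
  have hgy2 : 0 < g y ^ 2 := by positivity
  have h1 : g y * (g' y - r * g y) * r ≥ -(r ^ 2 / 2 * g y ^ 2) := by
    have h2 : |g y * (g' y - r * g y) * r| ≤ |g y| * (|r| / 2 * |g y|) * |r| := by
      rw [abs_mul, abs_mul]; gcongr
    have h3 : |g y| * (|r| / 2 * |g y|) * |r| = r ^ 2 / 2 * g y ^ 2 := by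
      have e1 := sq_abs (g y)
      have e2 := sq_abs r
      rw [← e1, ← e2]; ring
    rw [h3] at h2
    exact neg_le_of_abs_le h2
  have h2 : g y * g' y * r = g y * (g' y - r * g y) * r + r ^ 2 * g y ^ 2 := by ring
  have h3 : 0 < g y * g' y * r := by
    have : 0 < r ^ 2 * g y ^ 2 := by positivity
    rw [h2]; linarith
  have h4 : inner ℝ (tgrad l g x) (tgrad l g' x) = r * ‖tgrad l g x‖ ^ 2 := by
    rw [hr, div_mul_cancel₀ _ hT.ne']
  rw [h4, ← mul_assoc]
  positivity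

theorem continuousAt_tgrad (h : LocalDef l Γ U g) {x : E4} (hx : x ∈ U) :
    ContinuousAt (tgrad l g) x := by
  have h1 := contDiffOn_tgrad (l := l) h.isOpen h.smooth
  have h2 : IsOpen (U ∩ {x | gr l x ≠ 0}) :=
    h.isOpen.inter (isOpen_ne_fun contDiff_gr.continuous continuous_const)
  exact h1.continuousOn.continuousAt (h2.mem_nhds ⟨hx, h.gr_ne x hx⟩)

/-- the relative sign of two defining functions is locally constant -/
theorem sg_pair (hl : 0 < l) (hΓ : Γ ⊆ M l) {nref : E4 → E4}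
    (hn : ∀ q ∈ Γ, ‖nref q‖ = 1 ∧ nref q ∈ normalLine (M l) Γ q)
    (h : LocalDef l Γ U g) (h' : LocalDef l Γ U' g')
    {x : E4} (hx : x ∈ Γ) (hxU : x ∈ U) (hxU' : x ∈ U') :
    ∀ᶠ y in 𝓝 x, y ∈ M l → xor (sg Γ nref l g y) (sg Γ nref l g' y) =
      decide (inner ℝ (tgrad l g x) (tgrad l g' x) < 0) := by
  have hi := ratio_ne hl hΓ h h' hx hxU hxU'
  have hcont : ContinuousAt (fun y => inner ℝ (tgrad l g y) (tgrad l g' y) *
      inner ℝ (tgrad l g x) (tgrad l g' x)) x :=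
    ((continuousAt_tgrad h hxU).inner (continuousAt_tgrad h' hxU')).mul continuousAt_const
  have hev : ∀ᶠ y in 𝓝 x, 0 < inner ℝ (tgrad l g y) (tgrad l g' y) *
      inner ℝ (tgrad l g x) (tgrad l g' x) :=
    hcont.eventually (lt_mem_nhds (by
      show 0 < inner ℝ (tgrad l g x) (tgrad l g' x) * inner ℝ (tgrad l g x) (tgrad l g' x)
      exact mul_self_pos.2 hi))
  filter_upwards [hev, ratio_off hl hΓ h h' hx hxU hxU', h.isOpen.mem_nhds hxU,
    h'.isOpen.mem_nhds hxU'] with y hy1 hy2 hyU hyU' hyM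
  by_cases hyΓ : y ∈ Γ
  · unfold sg
    rw [if_pos hyΓ, if_pos hyΓ]
    obtain ⟨hn1, hn2⟩ := hn y hyΓ
    -- both gradients are multiples of `nref y`
    have hmul : ∀ {V : Set E4} {f : E4 → ℝ}, LocalDef l Γ V f → y ∈ V →
        tgrad l f y = inner ℝ (tgrad l f y) (nref y) • nref y := by
      intro V f hf hyV
      have e1 := hf.tgrad_mem hl hΓ ⟨hyΓ, hyV⟩
      rw [hf.frame.mem_normalLine hl hΓ ⟨hyΓ, hyV⟩] at hn2
      have hT := norm_ne_zero_iff.2 (hf.ne y hyV)
      rw [inner_smul_left, smul_smul, conj_trivial] at hn2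
      set t := inner ℝ (tgrad l f y) (nref y) with ht
      have e2 : (‖tgrad l f y‖⁻¹ * t) ^ 2 = 1 := by
        have e3 : ‖nref y‖ ^ 2 = 1 := by rw [hn1]; norm_num
        rw [hn2, norm_smul, mul_pow, Real.norm_eq_abs, sq_abs] at e3
        rw [← e3]
        field_simp
      conv_rhs => rw [hn2]
      rw [smul_smul]
      have e4 : t * (‖tgrad l f y‖⁻¹ * t * ‖tgrad l f y‖⁻¹) = (‖tgrad l f y‖⁻¹ * t) ^ 2 := by ring
      rw [e4, e2, one_smul]
    have m1 := hmul h hyU
    have m2 := hmul h' hyU'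
    set a := inner ℝ (tgrad l g y) (nref y) with ha
    set b := inner ℝ (tgrad l g' y) (nref y) with hb
    have hab : inner ℝ (tgrad l g y) (tgrad l g' y) = a * b := by
      rw [m1, m2, inner_smul_left, inner_smul_right, real_inner_self_eq_norm_sq, hn1]
      simp
    have ha0 : a ≠ 0 := fun h0 => h.ne y hyU (by rw [m1, h0, zero_smul])
    have hb0 : b ≠ 0 := fun h0 => h'.ne y hyU' (by rw [m2, h0, zero_smul])
    rw [hab] at hy1
    exact xor_decide ha0 hb0 hy1
  · unfold sg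
    rw [if_neg hyΓ, if_neg hyΓ]
    have h1 := hy2 hyM hyΓ
    have ha0 : g y ≠ 0 := fun h0 => by rw [h0] at h1; simp at h1
    have hb0 : g' y ≠ 0 := fun h0 => by rw [h0] at h1; simp at h1
    exact xor_decide ha0 hb0 h1

end pair

/-- the sign of a continuous nonvanishing function is locally constant off the surface -/
theorem sg_off {Γ : Set E4} (hΓc : IsClosed Γ) {nref : E4 → E4} {g : E4 → ℝ} {x : E4}
    (hx : x ∉ Γ) (hg : ContinuousAt g x) (hgx : g x ≠ 0) :
    ∀ᶠ y in 𝓝 x, sg Γ nref l g y = sg Γ nref l g x := by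
  have h1 : ∀ᶠ y in 𝓝 x, y ∉ Γ := hΓc.isOpen_compl.mem_nhds hx
  rcases lt_or_gt_of_ne hgx with h | h
  · filter_upwards [h1, hg.eventually (gt_mem_nhds h)] with y hy1 hy2
    unfold sg
    rw [if_neg hy1, if_neg hx]
    simp [not_lt.2 hy2.le, not_lt.2 h.le]
  · filter_upwards [h1, hg.eventually (lt_mem_nhds h)] with y hy1 hy2
    unfold sg
    rw [if_neg hy1, if_neg hx]
    simp [hy2, h]

/-- `M` contains no one-sided surface -/
theorem hasNoOneSided (hl : 0 < l) : HasNoOneSidedSurface (M l) := by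
  intro Γ hS
  have hΓ := hS.subset
  have hΓc := hS.isClosed
  -- reference normals
  have hnref : ∀ q : E4, ∃ v : E4, q ∈ Γ → ‖v‖ = 1 ∧ v ∈ normalLine (M l) Γ q := by
    intro q
    by_cases hq : q ∈ Γ
    · obtain ⟨O, n, hqO, h⟩ := exists_frame hl hS hq
      refine ⟨n q, fun _ => ⟨h.unit q ⟨hq, hqO⟩, ?_⟩⟩
      rw [h.mem_normalLine hl hΓ ⟨hq, hqO⟩, real_inner_self_eq_norm_sq, h.unit q ⟨hq, hqO⟩]
      simp
    · exact ⟨0, fun h => absurd h hq⟩
  choose nref hnref using hnref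
  -- local defining functions
  have hloc : ∀ p : E4, ∃ (U : Set E4) (g : E4 → ℝ), p ∈ U ∧ IsOpen U ∧
      ((LocalDef l Γ U g) ∨ (U = Γᶜ ∧ g = fun _ => 1)) ∧ (p ∈ Γ → LocalDef l Γ U g) := by
    intro p
    by_cases hp : p ∈ Γ
    · obtain ⟨U, g, hpU, h⟩ := exists_localDef hl hS hp
      exact ⟨U, g, hpU, h.isOpen, Or.inl h, fun _ => h⟩
    · exact ⟨Γᶜ, fun _ => 1, hp, hΓc.isOpen_compl, Or.inr ⟨rfl, rfl⟩, fun h => absurd h hp⟩
  choose U g hpU hUo hUg hUΓ using hloc
  have hsc : SimplyConnectedSpace (M l) := by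
    have : ContractibleSpace (M l) := (homeoM hl).contractibleSpace
    infer_instance
  have hlpc : LocallyPathConnectedSpace (M l) :=
    (homeoM hl).isOpenEmbedding.locallyPathConnectedSpace
  -- the local signs
  let UB : M l → Set (M l) := fun b => {y | y.1 ∈ U b.1}
  let s : M l → M l → Bool := fun b y => sg Γ nref l (g b.1) y.1
  have hUB : ∀ b, IsOpen (UB b) := fun b => (hUo b.1).preimage continuous_subtype_val
  have hmem : ∀ b, b ∈ UB b := fun b => hpU b.1
  have hs : ∀ i j, ∀ x ∈ UB i ∩ UB j, ∀ᶠ y in 𝓝 x, xor (s i y) (s j y) = xor (s i x) (s j x) := by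
    rintro i j x ⟨hxi, hxj⟩
    have hxi : x.1 ∈ U i.1 := hxi
    have hxj : x.1 ∈ U j.1 := hxj
    have hval : Tendsto (Subtype.val : M l → E4) (𝓝 x) (𝓝 x.1) := continuous_subtype_val.tendsto x
    by_cases hx : x.1 ∈ Γ
    · have hLi : LocalDef l Γ (U i.1) (g i.1) := by
        rcases hUg i.1 with h | ⟨h, -⟩
        · exact h
        · rw [h] at hxi; exact absurd hx hxi
      have hLj : LocalDef l Γ (U j.1) (g j.1) := by
        rcases hUg j.1 with h | ⟨h, -⟩
        · exact h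
        · rw [h] at hxj; exact absurd hx hxj
      have hev := sg_pair hl hΓ hnref hLi hLj hx hxi hxj
      have h0 := hev.self_of_nhds x.2
      filter_upwards [hval.eventually hev] with y hy
      exact (hy y.2).trans h0.symm
    · have hc : ∀ b : M l, x.1 ∈ U b.1 → ContinuousAt (g b.1) x.1 ∧ g b.1 x.1 ≠ 0 := by
        intro b hb
        rcases hUg b.1 with h | ⟨-, h⟩
        · refine ⟨(h.smooth.continuousOn).continuousAt (h.isOpen.mem_nhds hb), fun h0 => ?_⟩
          exact hx ((h.iff_zero x.1 hb).2 ⟨x.2, h0⟩)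
        · rw [h]; exact ⟨continuousAt_const, one_ne_zero⟩
      obtain ⟨c1, c2⟩ := hc i hxi
      obtain ⟨d1, d2⟩ := hc j hxj
      filter_upwards [hval.eventually (sg_off (l := l) hΓc (nref := nref) hx c1 c2),
        hval.eventually (sg_off (l := l) hΓc (nref := nref) hx d1 d2)] with y hy1 hy2
      show xor (sg Γ nref l (g i.1) y.1) (sg Γ nref l (g j.1) y.1) = _
      rw [hy1, hy2]
  obtain ⟨σ, hσ⟩ := exists_global_sign UB s hUB hmem hs
  -- the global unit normal
  let ε : Bool → ℝ := fun b => if b then 1 else -1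
  have hεε : ∀ a b : Bool, ε a * ε b = -ε (xor a b) := by
    intro a b; cases a <;> cases b <;> simp [ε]
  have hε2 : ∀ a : Bool, |ε a| = 1 := by intro a; cases a <;> simp [ε]
  let ν : E4 → E4 := fun q => if hq : q ∈ M l then ε (σ ⟨q, hq⟩) • nref q else 0
  have hνq : ∀ q (hq : q ∈ M l), ν q = ε (σ ⟨q, hq⟩) • nref q := fun q hq => by
    simp only [ν, dif_pos hq]
  refine ⟨ν, ?_, fun q hq => ?_⟩
  · intro x hx
    have hxM := hΓ hx
    have hL := hUΓ x hx
    have hev := hσ ⟨x, hxM⟩ ⟨x, hxM⟩ (hpU x)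
    set b0 := xor (σ ⟨x, hxM⟩) (s ⟨x, hxM⟩ ⟨x, hxM⟩) with hb0
    have hev2 : ∀ᶠ y in 𝓝 x, ∀ hy : y ∈ M l,
        xor (σ ⟨y, hy⟩) (sg Γ nref l (g x) y) = b0 := by
      rw [nhds_subtype_eq_comap, eventually_comap] at hev
      filter_upwards [hev] with y hy hyM
      exact hy ⟨y, hyM⟩ rfl
    let n : E4 → E4 := fun y => ‖tgrad l (g x) y‖⁻¹ • tgrad l (g x) y
    have hn : ContinuousAt n x :=
      (hL.frame.smooth.continuousOn).continuousAt (hL.isOpen.mem_nhds (hpU x))
    have heq : ∀ y, ∀ hyΓ : y ∈ Γ, y ∈ U x →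
        (xor (σ ⟨y, hΓ hyΓ⟩) (sg Γ nref l (g x) y) = b0) →
        ν y = (-ε b0) • n y := by
      intro y hy hyU hyb
      rw [hνq y (hΓ hy), ← hyb, ← hεε]
      -- `nref y` in terms of `n y`
      obtain ⟨hn1, hn2⟩ := hnref y hy
      rw [hL.frame.mem_normalLine hl hΓ ⟨hy, hyU⟩] at hn2
      have hnn := hL.frame.unit y ⟨hy, hyU⟩
      have hT := norm_ne_zero_iff.2 (hL.ne y hyU)
      have hTp : 0 < ‖tgrad l (g x) y‖ := norm_pos_iff.2 (hL.ne y hyU)
      set t := inner ℝ (‖tgrad l (g x) y‖⁻¹ • tgrad l (g x) y) (nref y) with ht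
      have ht2 : |t| = 1 := by
        rw [hn2, norm_smul, hnn, mul_one, Real.norm_eq_abs] at hn1
        exact hn1
      have hin : inner ℝ (tgrad l (g x) y) (nref y) = ‖tgrad l (g x) y‖ * t := by
        rw [ht, inner_smul_left, conj_trivial, ← mul_assoc, mul_inv_cancel₀ hT, one_mul]
      have hsg : sg Γ nref l (g x) y = decide (0 < t) := by
        unfold sg
        rw [if_pos hy, hin]
        simp only [mul_pos_iff_of_pos_left hTp]
      have hεt : ε (sg Γ nref l (g x) y) = t := by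
        rw [hsg]
        rcases lt_or_ge 0 t with h | h
        · rw [abs_of_pos h] at ht2
          simp [ε, ht2]
        · rw [abs_of_nonpos h] at ht2
          have : t = -1 := by linarith
          simp [ε, this]
      rw [hεt, mul_smul]
      congr 1
    have hcv : ContinuousWithinAt (fun y => (-ε b0) • n y) Γ x :=
      (hn.const_smul (-ε b0)).continuousWithinAt
    refine hcv.congr_of_eventuallyEq ?_ (heq x hx (hpU x) (hev2.self_of_nhds hxM))
    filter_upwards [self_mem_nhdsWithin, mem_nhdsWithin_of_mem_nhds (hL.isOpen.mem_nhds (hpU x)),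
      mem_nhdsWithin_of_mem_nhds hev2] with y hy hyU hyb
    exact heq y hy hyU (hyb (hΓ hy))
  · rw [hνq q (hΓ hq)]
    obtain ⟨h1, h2⟩ := hnref q hq
    refine ⟨?_, Submodule.smul_mem _ _ h2⟩
    rw [norm_smul, h1, mul_one, Real.norm_eq_abs, hε2]

end Pool.Agent.W556.Cap
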