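import Mathlib

/-!
# Level sets in a box have a large projection
-/

set_option autoImplicit false

noncomputable section

open Set Filter Topology MeasureTheory

namespace Pool.Agent.W556.Cap

/-- medians -/
theorem exists_median (ν : Measure ℝ) [IsProbabilityMeasure ν] :
    ∃ t, ν (Iio t) ≤ 1 / 2 ∧ ν (Ioi t) ≤ 1 / 2 := by
  set S : Set ℝ := {t | 1 / 2 ≤ ν (Iic t)} with hS
  have hne : S.Nonempty := by
    have h1 := tendsto_measure_Iic_atTop ν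
    rw [measure_univ] at h1
    have h2 : ∀ᶠ t in atTop, (1 / 2 : ENNReal) < ν (Iic t) :=
      h1.eventually (lt_mem_nhds (by
        rw [ENNReal.div_lt_iff (by simp) (by simp)]; norm_num))
    obtain ⟨t, ht⟩ := h2.exists
    exact ⟨t, ht.le⟩
  have hbdd : BddBelow S := by
    have h1 := tendsto_measure_Ici_atBot ν
    rw [measure_univ] at h1
    have h2 : ∀ᶠ t in atBot, (1 / 2 : ENNReal) < ν (Ici t) :=
      h1.eventually (lt_mem_nhds (by
        rw [ENNReal.div_lt_iff (by simp) (by simp)]; norm_num))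
    obtain ⟨t, ht⟩ := h2.exists
    refine ⟨t, fun s hs => ?_⟩
    by_contra hcon
    push Not at hcon
    have h3 : ν (Iic s) ≤ ν (Iio t) := measure_mono fun x hx => lt_of_le_of_lt hx hcon
    have h4 : ν (Iio t) + ν (Ici t) = 1 := by
      rw [← prob_add_prob_compl (μ := ν) (measurableSet_Iio (a := t)), compl_Iio]
    have h5 : (1 : ENNReal) < ν (Iio t) + ν (Ici t) := by
      calc (1 : ENNReal) = 1 / 2 + 1 / 2 := by rw [ENNReal.add_halves]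
        _ < ν (Iio t) + ν (Ici t) := by
          refine ENNReal.add_lt_add_of_le_of_lt (by simp) (le_trans hs h3) ht
    rw [h4] at h5
    exact lt_irrefl _ h5
  set t0 := sInf S with ht0
  have hup : ∀ s, t0 < s → 1 / 2 ≤ ν (Iic s) := by
    intro s hs
    obtain ⟨r, hr, hrs⟩ := exists_lt_of_csInf_lt hne hs
    exact le_trans hr (measure_mono (Iic_subset_Iic.2 hrs.le))
  have hdown : ∀ s, s < t0 → ν (Iic s) ≤ 1 / 2 := by
    intro s hs
    by_contra hcon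
    push Not at hcon
    have : t0 ≤ s := csInf_le hbdd hcon.le
    linarith
  refine ⟨t0, ?_, ?_⟩
  · have hU : Iio t0 = ⋃ n : ℕ, Iic (t0 - 1 / ((n : ℝ) + 1)) := by
      ext x
      simp only [mem_Iio, mem_iUnion, mem_Iic]
      constructor
      · intro hx
        obtain ⟨n, hn⟩ := exists_nat_one_div_lt (show (0 : ℝ) < t0 - x by linarith)
        exact ⟨n, by linarith⟩
      · rintro ⟨n, hn⟩
        have : (0 : ℝ) < 1 / ((n : ℝ) + 1) := by positivity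
        linarith
    have hmono : Monotone fun n : ℕ => Iic (t0 - 1 / ((n : ℝ) + 1)) := by
      intro a b hab
      apply Iic_subset_Iic.2
      have : 1 / ((b : ℝ) + 1) ≤ 1 / ((a : ℝ) + 1) := by
        have : (a : ℝ) ≤ b := by exact_mod_cast hab
        gcongr
      linarith
    rw [hU, hmono.measure_iUnion]
    refine iSup_le fun n => hdown _ ?_
    have : (0 : ℝ) < 1 / ((n : ℝ) + 1) := by positivity
    linarith
  · have hU : Ioi t0 = ⋃ n : ℕ, Ioi (t0 + 1 / ((n : ℝ) + 1)) := by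
      ext x
      simp only [mem_Ioi, mem_iUnion]
      constructor
      · intro hx
        obtain ⟨n, hn⟩ := exists_nat_one_div_lt (show (0 : ℝ) < x - t0 by linarith)
        exact ⟨n, by linarith⟩
      · rintro ⟨n, hn⟩
        have : (0 : ℝ) < 1 / ((n : ℝ) + 1) := by positivity
        linarith
    have hmono : Monotone fun n : ℕ => Ioi (t0 + 1 / ((n : ℝ) + 1)) := by
      intro a b hab
      apply Ioi_subset_Ioi
      have : 1 / ((b : ℝ) + 1) ≤ 1 / ((a : ℝ) + 1) := by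
        have : (a : ℝ) ≤ b := by exact_mod_cast hab
        gcongr
      linarith
    rw [hU, hmono.measure_iUnion]
    refine iSup_le fun n => ?_
    have h1 : (0 : ℝ) < 1 / ((n : ℝ) + 1) := by positivity
    have h2 := hup (t0 + 1 / ((n : ℝ) + 1)) (by linarith)
    have h3 : Ioi (t0 + 1 / ((n : ℝ) + 1)) = (Iic (t0 + 1 / ((n : ℝ) + 1)))ᶜ := by
      rw [compl_Iic]
    rw [h3, prob_compl_eq_one_sub measurableSet_Iic]
    rw [tsub_le_iff_right]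
    calc (1 : ENNReal) = 1 / 2 + 1 / 2 := by rw [ENNReal.add_halves]
      _ ≤ _ := by gcongr

/-- Lebesgue measure on the unit interval -/
def P1 : Measure ℝ := volume.restrict (Icc 0 1)

instance : IsProbabilityMeasure P1 := ⟨by
  rw [P1, Measure.restrict_apply_univ, Real.volume_Icc]; simp⟩

def P2 : Measure (ℝ × ℝ) := P1.prod P1
instance : IsProbabilityMeasure P2 := by unfold P2; infer_instance
def P3 : Measure (ℝ × ℝ × ℝ) := P1.prod P2
instance : IsProbabilityMeasure P3 := by unfold P3; infer_instance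

theorem P2_eq : P2 = volume.restrict (Icc 0 1 ×ˢ Icc 0 1) := by
  unfold P2 P1
  rw [Measure.prod_restrict]; rfl

theorem P3_eq : P3 = volume.restrict (Icc 0 1 ×ˢ Icc 0 1 ×ˢ Icc 0 1) := by
  unfold P3
  rw [P2_eq, P1, Measure.prod_restrict]; rfl

theorem ae_P3 : ∀ᵐ p ∂P3, p ∈ (Icc (0 : ℝ) 1 ×ˢ Icc (0 : ℝ) 1 ×ˢ Icc (0 : ℝ) 1) := by
  rw [P3_eq]
  exact ae_restrict_mem (measurableSet_Icc.prod (measurableSet_Icc.prod measurableSet_Icc))

/-- projections of closed sets along the unit interval are closed -/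
theorem isClosed_proj {Y : Type*} [TopologicalSpace Y] {g : ℝ → Y → ℝ}
    (hg : Continuous fun p : ℝ × Y => g p.1 p.2) (t : ℝ) :
    IsClosed {p : Y | ∃ x ∈ Icc (0 : ℝ) 1, g x p = t} := by
  have h1 : IsClosedMap (Prod.snd : (Icc (0 : ℝ) 1) × Y → Y) := isClosedMap_snd_of_compactSpace
  have h2 : IsClosed {q : (Icc (0 : ℝ) 1) × Y | g q.1.1 q.2 = t} := by
    have hc : Continuous fun q : (Icc (0 : ℝ) 1) × Y => g q.1.1 q.2 :=
      hg.comp ((continuous_subtype_val.comp continuous_fst).prodMk continuous_snd)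
    exact isClosed_eq hc continuous_const
  have h3 := h1 _ h2
  convert h3 using 1
  ext p
  constructor
  · rintro ⟨x, hx, h⟩
    exact ⟨(⟨x, hx⟩, p), h, rfl⟩
  · rintro ⟨⟨x, q⟩, h, rfl⟩
    exact ⟨x.1, x.2, h⟩

/-- a function of one variable not taking the value `t` on the unit interval stays on one side -/
theorem same_side {g : ℝ → ℝ} (hg : Continuous g) {t : ℝ}
    (h : ¬ ∃ x ∈ Icc (0 : ℝ) 1, g x = t) {a b : ℝ} (ha : a ∈ Icc (0 : ℝ) 1)
    (hb : b ∈ Icc (0 : ℝ) 1) : (g a < t ∧ g b < t) ∨ (t < g a ∧ t < g b) := by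
  have hane : g a ≠ t := fun h' => h ⟨a, ha, h'⟩
  have hbne : g b ≠ t := fun h' => h ⟨b, hb, h'⟩
  have hsub : uIcc a b ⊆ Icc (0 : ℝ) 1 := by
    intro x hx
    rw [mem_uIcc] at hx
    rcases hx with hx | hx
    · exact ⟨ha.1.trans hx.1, hx.2.trans hb.2⟩
    · exact ⟨hb.1.trans hx.1, hx.2.trans ha.2⟩
  have hiv := intermediate_value_uIcc (hg.continuousOn (s := uIcc a b))
  rcases lt_or_gt_of_ne hane with h1 | h1 <;> rcases lt_or_gt_of_ne hbne with h2 | h2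
  · exact Or.inl ⟨h1, h2⟩
  · exfalso
    obtain ⟨x, hx, hxt⟩ := hiv (mem_uIcc.2 (Or.inl ⟨h1.le, h2.le⟩))
    exact h ⟨x, hsub hx, hxt⟩
  · exfalso
    obtain ⟨x, hx, hxt⟩ := hiv (mem_uIcc.2 (Or.inr ⟨h2.le, h1.le⟩))
    exact h ⟨x, hsub hx, hxt⟩
  · exact Or.inr ⟨h1, h2⟩

theorem box {f : ℝ → ℝ → ℝ → ℝ} (hf : Continuous fun p : ℝ × ℝ × ℝ => f p.1 p.2.1 p.2.2) :
    ∃ t : ℝ, 1 / 6 ≤ P2 {p | ∃ x ∈ Icc (0 : ℝ) 1, f x p.1 p.2 = t} ∨
      1 / 6 ≤ P2 {p | ∃ y ∈ Icc (0 : ℝ) 1, f p.1 y p.2 = t} ∨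
      1 / 6 ≤ P2 {p | ∃ z ∈ Icc (0 : ℝ) 1, f p.1 p.2 z = t} := by
  set F : ℝ × ℝ × ℝ → ℝ := fun p => f p.1 p.2.1 p.2.2 with hF
  have hFm : Measurable F := hf.measurable
  have hprob : IsProbabilityMeasure (P3.map F) := Measure.isProbabilityMeasure_map hFm.aemeasurable
  obtain ⟨t, ht1, ht2⟩ := exists_median (P3.map F)
  rw [Measure.map_apply hFm measurableSet_Iio] at ht1
  rw [Measure.map_apply hFm measurableSet_Ioi] at ht2
  refine ⟨t, ?_⟩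
  set F1 : Set (ℝ × ℝ) := {p | ∃ x ∈ Icc (0 : ℝ) 1, f x p.1 p.2 = t} with hF1
  set F2 : Set (ℝ × ℝ) := {p | ∃ y ∈ Icc (0 : ℝ) 1, f p.1 y p.2 = t} with hF2
  set F3 : Set (ℝ × ℝ) := {p | ∃ z ∈ Icc (0 : ℝ) 1, f p.1 p.2 z = t} with hF3
  have c1 : IsClosed F1 := isClosed_proj (g := fun x (p : ℝ × ℝ) => f x p.1 p.2) hf t
  have c2 : IsClosed F2 := by
    refine isClosed_proj (g := fun y (p : ℝ × ℝ) => f p.1 y p.2) ?_ t
    have hc : Continuous fun p : ℝ × ℝ × ℝ => (p.2.1, p.1, p.2.2) := by fun_prop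
    exact hf.comp hc
  have c3 : IsClosed F3 := by
    refine isClosed_proj (g := fun z (p : ℝ × ℝ) => f p.1 p.2 z) ?_ t
    have hc : Continuous fun p : ℝ × ℝ × ℝ => (p.2.1, p.2.2, p.1) := by fun_prop
    exact hf.comp hc
  set Q := P3.prod P3 with hQ
  -- measure preserving maps
  have m1 : MeasurePreserving (fun p : (ℝ × ℝ × ℝ) × (ℝ × ℝ × ℝ) => p.1.2) Q P2 :=
    (measurePreserving_snd (μ := P1) (ν := P2)).comp (measurePreserving_fst (μ := P3) (ν := P3))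
  have m2 : MeasurePreserving (fun p : (ℝ × ℝ × ℝ) × (ℝ × ℝ × ℝ) => (p.2.1, p.1.2.2)) Q P2 := by
    have e1 : MeasurePreserving (fun p : ℝ × ℝ × ℝ => p.1) P3 P1 :=
      measurePreserving_fst (μ := P1) (ν := P2)
    have e2 : MeasurePreserving (fun p : ℝ × ℝ × ℝ => p.2.2) P3 P1 :=
      (measurePreserving_snd (μ := P1) (ν := P1)).comp (measurePreserving_snd (μ := P1) (ν := P2))
    have e3 := e1.prod e2
    exact e3.comp Measure.measurePreserving_swap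
  have m3 : MeasurePreserving (fun p : (ℝ × ℝ × ℝ) × (ℝ × ℝ × ℝ) => (p.2.1, p.2.2.1)) Q P2 := by
    have e1 : MeasurePreserving (fun p : ℝ × ℝ × ℝ => (p.1, p.2.1)) P3 P2 :=
      (MeasurePreserving.id P1).prod (measurePreserving_fst (μ := P1) (ν := P1))
    exact e1.comp (measurePreserving_snd (μ := P3) (ν := P3))
  have b1 : Q ((fun p : (ℝ × ℝ × ℝ) × (ℝ × ℝ × ℝ) => p.1.2) ⁻¹' F1) = P2 F1 :=
    m1.measure_preimage c1.measurableSet.nullMeasurableSet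
  have b2 : Q ((fun p : (ℝ × ℝ × ℝ) × (ℝ × ℝ × ℝ) => (p.2.1, p.1.2.2)) ⁻¹' F2) = P2 F2 :=
    m2.measure_preimage c2.measurableSet.nullMeasurableSet
  have b3 : Q ((fun p : (ℝ × ℝ × ℝ) × (ℝ × ℝ × ℝ) => (p.2.1, p.2.2.1)) ⁻¹' F3) = P2 F3 :=
    m3.measure_preimage c3.measurableSet.nullMeasurableSet
  have b4 : Q ((F ⁻¹' Iio t) ×ˢ (F ⁻¹' Iio t)) ≤ 1 / 4 := by
    rw [hQ, Measure.prod_prod]
    calc P3 (F ⁻¹' Iio t) * P3 (F ⁻¹' Iio t) ≤ 1 / 2 * (1 / 2) := by gcongr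
      _ = 1 / 4 := by
        rw [one_div, one_div, ← ENNReal.mul_inv (by simp) (by simp)]; norm_num
  have b5 : Q ((F ⁻¹' Ioi t) ×ˢ (F ⁻¹' Ioi t)) ≤ 1 / 4 := by
    rw [hQ, Measure.prod_prod]
    calc P3 (F ⁻¹' Ioi t) * P3 (F ⁻¹' Ioi t) ≤ 1 / 2 * (1 / 2) := by gcongr
      _ = 1 / 4 := by
        rw [one_div, one_div, ← ENNReal.mul_inv (by simp) (by simp)]; norm_num
  have hae1 : ∀ᵐ p ∂Q, p.1 ∈ (Icc (0 : ℝ) 1 ×ˢ Icc (0 : ℝ) 1 ×ˢ Icc (0 : ℝ) 1) :=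
    (measurePreserving_fst (μ := P3) (ν := P3)).quasiMeasurePreserving.ae ae_P3
  have hae2 : ∀ᵐ p ∂Q, p.2 ∈ (Icc (0 : ℝ) 1 ×ˢ Icc (0 : ℝ) 1 ×ˢ Icc (0 : ℝ) 1) :=
    (measurePreserving_snd (μ := P3) (ν := P3)).quasiMeasurePreserving.ae ae_P3
  have hcover : ∀ᵐ p ∂Q, p ∈ ((fun p : (ℝ × ℝ × ℝ) × (ℝ × ℝ × ℝ) => p.1.2) ⁻¹' F1) ∪
      (((fun p : (ℝ × ℝ × ℝ) × (ℝ × ℝ × ℝ) => (p.2.1, p.1.2.2)) ⁻¹' F2) ∪
      (((fun p : (ℝ × ℝ × ℝ) × (ℝ × ℝ × ℝ) => (p.2.1, p.2.2.1)) ⁻¹' F3) ∪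
      (((F ⁻¹' Iio t) ×ˢ (F ⁻¹' Iio t)) ∪ ((F ⁻¹' Ioi t) ×ˢ (F ⁻¹' Ioi t))))) := by
    filter_upwards [hae1, hae2] with p hp1 hp2
    obtain ⟨⟨x, y, z⟩, ⟨x', y', z'⟩⟩ := p
    obtain ⟨hx, hy, hz⟩ := hp1
    obtain ⟨hx', hy', hz'⟩ := hp2
    by_contra hcon
    simp only [mem_union, not_or, mem_preimage, mem_prod] at hcon
    obtain ⟨n1, n2, n3, n4, n5⟩ := hcon
    have s1 := same_side (g := fun u => f u y z) (hf.comp (by fun_prop : Continuous fun u : ℝ =>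
      ((u, y, z) : ℝ × ℝ × ℝ))) n1 hx hx'
    have s2 := same_side (g := fun u => f x' u z) (hf.comp (by fun_prop : Continuous fun u : ℝ =>
      ((x', u, z) : ℝ × ℝ × ℝ))) n2 hy hy'
    have s3 := same_side (g := fun u => f x' y' u) (hf.comp (by fun_prop : Continuous fun u : ℝ =>
      ((x', y', u) : ℝ × ℝ × ℝ))) n3 hz hz'
    simp only at s1 s2 s3
    rcases s1 with ⟨a1, a2⟩ | ⟨a1, a2⟩
    · rcases s2 with ⟨a3, a4⟩ | ⟨a3, a4⟩
      · rcases s3 with ⟨a5, a6⟩ | ⟨a5, a6⟩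
        · exact n4 ⟨a1, a6⟩
        · linarith
      · linarith
    · rcases s2 with ⟨a3, a4⟩ | ⟨a3, a4⟩
      · linarith
      · rcases s3 with ⟨a5, a6⟩ | ⟨a5, a6⟩
        · linarith
        · exact n5 ⟨a1, a6⟩
  have htot : (1 : ENNReal) ≤ P2 F1 + (P2 F2 + (P2 F3 + (1 / 4 + 1 / 4))) := by
    have h1 : Q univ ≤ Q (((fun p : (ℝ × ℝ × ℝ) × (ℝ × ℝ × ℝ) => p.1.2) ⁻¹' F1) ∪
      (((fun p : (ℝ × ℝ × ℝ) × (ℝ × ℝ × ℝ) => (p.2.1, p.1.2.2)) ⁻¹' F2) ∪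
      (((fun p : (ℝ × ℝ × ℝ) × (ℝ × ℝ × ℝ) => (p.2.1, p.2.2.1)) ⁻¹' F3) ∪
      (((F ⁻¹' Iio t) ×ˢ (F ⁻¹' Iio t)) ∪ ((F ⁻¹' Ioi t) ×ˢ (F ⁻¹' Ioi t)))))) := by
      apply measure_mono_ae
      filter_upwards [hcover] with p hp _
      exact hp
    rw [measure_univ] at h1
    refine h1.trans ((measure_union_le _ _).trans (add_le_add b1.le ?_))
    refine (measure_union_le _ _).trans (add_le_add b2.le ?_)
    refine (measure_union_le _ _).trans (add_le_add b3.le ?_)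
    exact (measure_union_le _ _).trans (add_le_add b4 b5)
  by_contra hcon
  rw [not_or, not_or, not_le, not_le, not_le] at hcon
  obtain ⟨d1, d2, d3⟩ := hcon
  have hlt : P2 F1 + (P2 F2 + (P2 F3 + (1 / 4 + 1 / 4))) < 1 / 6 + (1 / 6 + (1 / 6 + (1 / 4 + 1 / 4))) := by
    have e0 : (1 / 4 + 1 / 4 : ENNReal) ≠ ⊤ := by finiteness
    have e1 : P2 F3 + (1 / 4 + 1 / 4) < 1 / 6 + (1 / 4 + 1 / 4) :=
      ENNReal.add_lt_add_right e0 d3
    have e2 := ENNReal.add_lt_add d2 e1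
    exact ENNReal.add_lt_add d1 e2
  have heq : (1 / 6 + (1 / 6 + (1 / 6 + (1 / 4 + 1 / 4))) : ENNReal) = 1 := by
    have : (1 / 6 + (1 / 6 + (1 / 6 + (1 / 4 + 1 / 4))) : ENNReal) =
        ENNReal.ofReal (1 / 6 + (1 / 6 + (1 / 6 + (1 / 4 + 1 / 4)))) := by
      rw [ENNReal.ofReal_add, ENNReal.ofReal_add, ENNReal.ofReal_add, ENNReal.ofReal_add,
        ENNReal.ofReal_div_of_pos, ENNReal.ofReal_div_of_pos] <;> norm_num
    rw [this]
    norm_num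
  rw [heq] at hlt
  exact absurd htot (not_le.2 hlt)

end Pool.Agent.W556.Cap
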