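import Mathlib
import Pool.Agent.W556.CapSurf

/-!
# First variation along conformal fields
-/

set_option autoImplicit false

noncomputable section

open Set Filter Topology MeasureTheory Metric
open scoped ContDiff NNReal

namespace Pool.Agent.W556.Cap

variable {l : ℝ}

theorem sum_inner_bas (v : E4) : ∑ i : Fin 4, inner ℝ v (bas i) ^ 2 = ‖v‖ ^ 2 := by
  rw [EuclideanSpace.norm_sq_eq]
  refine Finset.sum_congr rfl fun i _ => ?_
  simp [bas, EuclideanSpace.inner_single_right]

theorem norm_bas (i : Fin 4) : ‖bas i‖ = 1 := by simp [bas]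

namespace Frame

variable {Γ O : Set E4} {n : E4 → E4}

theorem sum_norm (h : Frame l Γ O n) (hl : 0 < l) (hΓ : Γ ⊆ M l) {q : E4} (hq : q ∈ Γ ∩ O) :
    ∑ i : Fin 4, ‖(tangentSpace Γ q).starProjection (bas i)‖ ^ 2 = 2 := by
  have h1 := norm_Nf hl (hΓ hq.1)
  have h2 := h.unit q hq
  have h3 := h.orth q hq
  have h4 : ∀ i : Fin 4, ‖(tangentSpace Γ q).starProjection (bas i)‖ ^ 2 =
      1 - inner ℝ (Nf l q) (bas i) ^ 2 - inner ℝ (n q) (bas i) ^ 2 := by
    intro i
    rw [h.proj hl hΓ hq, ← real_inner_self_eq_norm_sq]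
    simp only [inner_sub_left, inner_sub_right, inner_smul_left, inner_smul_right,
      real_inner_self_eq_norm_sq, h1, h2, h3, norm_bas, real_inner_comm (Nf l q) (n q),
      real_inner_comm (Nf l q) (bas i), real_inner_comm (n q) (bas i)]
    simp only [conj_trivial]
    ring
  simp_rw [h4]
  rw [Finset.sum_sub_distrib, Finset.sum_sub_distrib, sum_inner_bas, sum_inner_bas, h1, h2]
  simp
  norm_num

end Frame

theorem sum_zc (K : Submodule ℝ E4) :
    ∑ i : Fin 4, zc (K.starProjection (bas i)) ^ 2 = ‖K.starProjection ez‖ ^ 2 := by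
  rw [← sum_inner_bas]
  refine Finset.sum_congr rfl fun i _ => ?_
  rw [← inner_ez_left]
  congr 1
  exact ((K.starProjection_isSymmetric) ez (bas i)).symm

/-- divergence along the surface of a field whose symmetrised derivative is a combination of the
metric and of the square of the height differential -/
theorem surfaceDiv_eq (hl : 0 < l) {Γ : Set E4} (hS : IsEmbeddedSurface (M l) Γ) {q : E4}
    (hq : q ∈ Γ) {X : E4 → E4} {a b : ℝ}
    (hX : ∀ v ∈ tangentSpace (M l) q, inner ℝ (fderiv ℝ X q v) v = a * ‖v‖ ^ 2 + b * zc v ^ 2) :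
    surfaceDiv Γ X q = 2 * a + b * hh Γ q := by
  obtain ⟨O, n, hqO, h⟩ := exists_frame hl hS hq
  have hmem : ∀ i : Fin 4, (tangentSpace Γ q).starProjection (bas i) ∈ tangentSpace (M l) q := by
    intro i
    have h1 := (tangentSpace Γ q).starProjection_apply_mem (bas i)
    rw [h.tangent q ⟨hq, hqO⟩] at h1
    rw [mem_tangentSpace_M' hl (hS.subset hq)]
    exact h1.1
  unfold surfaceDiv
  simp_rw [fun i => hX _ (hmem i)]
  rw [Finset.sum_add_distrib, ← Finset.mul_sum, ← Finset.mul_sum, h.sum_norm hl hS.subset ⟨hq, hqO⟩,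
    sum_zc, hh]
  ring

/-- conformal-type vector fields -/
def XF (l : ℝ) (k : ℝ → ℝ) (x : E4) : E4 :=
  (-(k (zc x) * G1 l (zc x))) • x +
    (2 * k (zc x) * (1 - G l (zc x)) + k (zc x) * G1 l (zc x) * zc x) • ez

theorem contDiff_XF {k : ℝ → ℝ} (hk : ContDiff ℝ ∞ k) : ContDiff ℝ ∞ (XF l k) := by
  have h0 : ContDiff ℝ ∞ (fun x : E4 => k (zc x)) := hk.comp zc.contDiff
  have h1 : ContDiff ℝ ∞ (fun x : E4 => G1 l (zc x)) := contDiff_G1.comp zc.contDiff
  have h2 : ContDiff ℝ ∞ (fun x : E4 => G l (zc x)) := contDiff_G.comp zc.contDiff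
  have h3 : ContDiff ℝ ∞ (fun x : E4 => zc x) := zc.contDiff
  have h4 : ContDiff ℝ ∞ (fun x : E4 => (-(k (zc x) * G1 l (zc x))) • x) :=
    (h0.mul h1).neg.smul contDiff_id
  have h5 : ContDiff ℝ ∞ (fun x : E4 => (2 * k (zc x) * (1 - G l (zc x)) +
      k (zc x) * G1 l (zc x) * zc x) • ez) :=
    (((contDiff_const.mul h0).mul (contDiff_const.sub h2)).add ((h0.mul h1).mul h3)).smul
      contDiff_const
  exact h4.add h5

theorem inner_gr_XF {k : ℝ → ℝ} {q : E4} (hq : q ∈ M l) : inner ℝ (gr l q) (XF l k q) = 0 := by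
  have h1 := mem_M.1 hq
  unfold gr XF
  simp only [inner_add_left, inner_add_right, inner_smul_left, inner_smul_right,
    real_inner_self_eq_norm_sq, inner_ez_left, inner_ez_right, norm_ez, conj_trivial]
  linear_combination (-2 * k (zc q) * G1 l (zc q)) * h1

theorem inner_fderiv_XF (hl : 0 < l) {k : ℝ → ℝ} (hk : ContDiff ℝ ∞ k) {q : E4} (hq : q ∈ M l)
    {v : E4} (hv : v ∈ tangentSpace (M l) q) :
    inner ℝ (fderiv ℝ (XF l k) q v) v = (-(k (zc q) * G1 l (zc q))) * ‖v‖ ^ 2 +
      (deriv k (zc q) * D l (zc q) / 2 +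
        k (zc q) * (-4 * G1 l (zc q) + 2 * G1 l (zc q) * G2 l (zc q)) / 4) * zc v ^ 2 := by
  have hkd : HasDerivAt k (deriv k (zc q)) (zc q) :=
    (hk.differentiable (by simp)).differentiableAt.hasDerivAt
  have hG := hasDerivAt_G (l := l) (zc q)
  have hG1 := hasDerivAt_G1 (l := l) (zc q)
  have ha : HasDerivAt (fun t => -(k t * G1 l t))
      (-(deriv k (zc q) * G1 l (zc q) + k (zc q) * G2 l (zc q))) (zc q) := (hkd.mul hG1).neg
  have hb : HasDerivAt (fun t => 2 * k t * (1 - G l t) + k t * G1 l t * t)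
      ((2 * deriv k (zc q) * (1 - G l (zc q)) + 2 * k (zc q) * (- G1 l (zc q))) +
        ((deriv k (zc q) * G1 l (zc q) + k (zc q) * G2 l (zc q)) * zc q +
          k (zc q) * G1 l (zc q) * 1)) (zc q) := by
    exact ((hkd.const_mul 2).mul (hG.const_sub 1)).add ((hkd.mul hG1).mul (hasDerivAt_id _))
  have ha' := ha.comp_hasFDerivAt q zc.hasFDerivAt
  have hb' := hb.comp_hasFDerivAt q zc.hasFDerivAt
  have hX := (ha'.smul (hasFDerivAt_id q)).add (hb'.smul_const ez)
  have hfd : fderiv ℝ (XF l k) q v = (-(k (zc q) * G1 l (zc q))) • v +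
      (-(deriv k (zc q) * G1 l (zc q) + k (zc q) * G2 l (zc q)) * zc v) • q +
      (((2 * deriv k (zc q) * (1 - G l (zc q)) + 2 * k (zc q) * (- G1 l (zc q))) +
        ((deriv k (zc q) * G1 l (zc q) + k (zc q) * G2 l (zc q)) * zc q +
          k (zc q) * G1 l (zc q) * 1)) * zc v) • ez := by
    have : HasFDerivAt (XF l k) _ q := hX
    rw [this.fderiv]
    simp
  have hv' := (mem_tangentSpace_M hl hq).1 hv
  unfold gr at hv'
  simp only [inner_add_left, inner_smul_left, inner_ez_left, conj_trivial] at hv'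
  rw [hfd]
  simp only [inner_add_left, inner_smul_left, inner_ez_left, conj_trivial,
    real_inner_self_eq_norm_sq, D]
  linear_combination (-(deriv k (zc q) * G1 l (zc q) + k (zc q) * G2 l (zc q)) * zc v / 2) * hv'

/-- the integrand of the first variation along the conformal fields -/
def fluxDensity (l : ℝ) (k : ℝ → ℝ) (Γ : Set E4) (q : E4) : ℝ :=
  -2 * k (zc q) * G1 l (zc q) +
      (deriv k (zc q) * D l (zc q) / 2 +
        k (zc q) * (-4 * G1 l (zc q) + 2 * G1 l (zc q) * G2 l (zc q)) / 4) * hh Γ q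

theorem norm_sq_le {q : E4} (hq : q ∈ M l) : ‖q‖ ^ 2 ≤ zc q ^ 2 + 1 := by
  have h1 := mem_M.1 hq
  have h2 := G_nonneg (l := l) (zc q)
  linarith

theorem flux (hl : 0 < l) {Γ : Set E4} (hΓ : IsFiniteAreaMinimal (M l) Γ) {k : ℝ → ℝ}
    (hk : ContDiff ℝ ∞ k) (hkc : HasCompactSupport k) :
    ∫ q in Γ, fluxDensity l k Γ q ∂(μH[2] : Measure E4) = 0 := by
  obtain ⟨A, hA0, hA⟩ : ∃ A : ℝ, 0 < A ∧ ∀ t ∈ tsupport k, |t| ≤ A := by
    obtain ⟨A, hA0, hA⟩ := hkc.isCompact.isBounded.exists_pos_norm_le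
    exact ⟨A, hA0, fun t ht => by simpa using hA t ht⟩
  let η : ContDiffBump (0 : E4) := ⟨A + 2, A + 3, by positivity, by linarith⟩
  have hX : ContDiff ℝ ∞ (fun x => η x • XF l k x) := η.contDiff.smul (contDiff_XF hk)
  have hXc : HasCompactSupport (fun x => η x • XF l k x) := η.hasCompactSupport.smul_right
  have hXt : ∀ p ∈ M l, η p • XF l k p ∈ tangentSpace (M l) p := by
    intro p hp
    apply Submodule.smul_mem
    rw [mem_tangentSpace_M hl hp, inner_gr_XF hp]
  have h := hΓ.minimal _ hX hXc hXt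
  rw [← h]
  refine setIntegral_congr_fun hΓ.embedded.isClosed.measurableSet fun q hq => ?_
  have hqM := hΓ.embedded.subset hq
  by_cases hqs : zc q ∈ tsupport k
  · -- near `q` the cutoff is `1`
    have h1 : |zc q| ≤ A := hA _ hqs
    have h2 := norm_sq_le hqM
    have h3 : ‖q‖ < A + 2 := by
      have h4 : zc q ^ 2 ≤ A ^ 2 := by
        rw [← sq_abs]; gcongr
      nlinarith [norm_nonneg q]
    have hev : (fun x => η x • XF l k x) =ᶠ[𝓝 q] XF l k := by
      have hball : ball (0 : E4) (A + 2) ∈ 𝓝 q :=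
        isOpen_ball.mem_nhds (by rw [mem_ball_zero_iff]; exact h3)
      filter_upwards [hball] with x hx
      rw [η.one_of_mem_closedBall (ball_subset_closedBall hx), one_smul]
    have hsd : surfaceDiv Γ (fun x => η x • XF l k x) q = surfaceDiv Γ (XF l k) q := by
      unfold surfaceDiv
      rw [hev.fderiv_eq]
    show fluxDensity l k Γ q = surfaceDiv Γ (fun x => η x • XF l k x) q
    rw [hsd, surfaceDiv_eq hl hΓ.embedded hq fun v hv => inner_fderiv_XF hl hk hqM hv, fluxDensity]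
    ring
  · -- near `q` the field vanishes
    have hev0 : ∀ᶠ t in 𝓝 (zc q), k t = 0 := by
      have := notMem_tsupport_iff_eventuallyEq.1 hqs
      exact this
    have hev : (fun x => η x • XF l k x) =ᶠ[𝓝 q] fun _ => 0 := by
      filter_upwards [(zc.continuous.tendsto q).eventually hev0] with x hx
      unfold XF
      rw [hx]; simp
    have hk0 : k (zc q) = 0 := hev0.self_of_nhds
    have hk1 : deriv k (zc q) = 0 := by
      have : k =ᶠ[𝓝 (zc q)] fun _ => 0 := hev0
      rw [this.deriv_eq]; simp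
    show fluxDensity l k Γ q = surfaceDiv Γ (fun x => η x • XF l k x) q
    unfold surfaceDiv
    rw [hev.fderiv_eq]
    simp [fluxDensity, hk0, hk1]

end Pool.Agent.W556.Cap
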