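import Mathlib
import Pool.Agent.W556.CapHomeo
import Pool.Agent.W556.CapFlux
import Pool.Agent.W556.CapBox

/-!
# The width condition
-/

set_option autoImplicit false

noncomputable section

open Set Filter Topology MeasureTheory Metric
open scoped ContDiff NNReal

namespace Pool.Agent.W556.Cap

variable {l : ℝ}

theorem dist_sq_E4 (x y : E4) : dist x y ^ 2 = ∑ i : Fin 4, (x i - y i) ^ 2 := by
  rw [EuclideanSpace.dist_eq, Real.sq_sqrt (Finset.sum_nonneg fun i _ => by positivity)]
  simp [Real.dist_eq, sq_abs]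

/-- the projections of a subset of `E4` control its area -/
theorem area_ge (A : Set E4) (i j : Fin 4) (F : Set (ℝ × ℝ))
    (hF : ∀ p ∈ F, p ∈ Icc (0 : ℝ) 1 ×ˢ Icc (0 : ℝ) 1 → ∃ x ∈ A, 2 * x i = p.1 ∧ 2 * x j = p.2)
    (h : 1 / 6 ≤ P2 F) : 1 / 24 ≤ (μH[2] : Measure E4) A := by
  let T : E4 → (Fin 2 → ℝ) := fun x => ![2 * x i, 2 * x j]
  have hco : ∀ (x y : E4) (k : Fin 4), |x k - y k| ≤ dist x y := by
    intro x y k
    have h1 := dist_sq_E4 x y
    have h2 : (x k - y k) ^ 2 ≤ ∑ i : Fin 4, (x i - y i) ^ 2 :=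
      Finset.single_le_sum (f := fun i : Fin 4 => (x i - y i) ^ 2) (fun i _ => by positivity)
        (Finset.mem_univ k)
    rw [← h1] at h2
    exact abs_le_of_sq_le_sq h2 dist_nonneg
  have hT : LipschitzWith 2 T := by
    refine LipschitzWith.of_dist_le_mul fun x y => ?_
    rw [dist_pi_le_iff (by positivity)]
    intro k
    fin_cases k
    · show dist (2 * x i) (2 * y i) ≤ _
      rw [Real.dist_eq, ← mul_sub, abs_mul]
      have := hco x y i
      norm_num
      linarith
    · show dist (2 * x j) (2 * y j) ≤ _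
      rw [Real.dist_eq, ← mul_sub, abs_mul]
      have := hco x y j
      norm_num
      linarith
  have h1 := hT.hausdorffMeasure_image_le (d := 2) (by norm_num) A
  rw [haus2] at h1
  have hmp := (volume_preserving_finTwoArrow ℝ).symm
  have hsub : (MeasurableEquiv.finTwoArrow (α := ℝ)).symm '' (F ∩ Icc (0 : ℝ) 1 ×ˢ Icc (0 : ℝ) 1) ⊆
      T '' A := by
    rintro _ ⟨p, ⟨hp1, hp2⟩, rfl⟩
    obtain ⟨x, hx, hx1, hx2⟩ := hF p hp1 hp2
    refine ⟨x, hx, ?_⟩
    have : (MeasurableEquiv.finTwoArrow (α := ℝ)) (T x) = p := by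
      apply Prod.ext
      · exact hx1
      · exact hx2
    rw [← this, MeasurableEquiv.symm_apply_apply]
  have h2 : (volume : Measure (ℝ × ℝ)) (F ∩ Icc (0 : ℝ) 1 ×ˢ Icc (0 : ℝ) 1) ≤
      (volume : Measure (Fin 2 → ℝ)) (T '' A) := by
    refine le_trans (le_of_eq ?_) (measure_mono hsub)
    rw [MeasurableEquiv.image_symm]
    exact ((volume_preserving_finTwoArrow ℝ).measure_preimage_equiv _).symm
  have h3 : P2 F = (volume : Measure (ℝ × ℝ)) (F ∩ Icc (0 : ℝ) 1 ×ˢ Icc (0 : ℝ) 1) := by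
    rw [P2_eq, Measure.restrict_apply' (measurableSet_Icc.prod measurableSet_Icc)]
  have h4 : (1 / 6 : ENNReal) ≤ 4 * (μH[2] : Measure E4) A := by
    calc (1 / 6 : ENNReal) ≤ P2 F := h
      _ ≤ (volume : Measure (Fin 2 → ℝ)) (T '' A) := by rw [h3]; exact h2
      _ ≤ ((2 : ℝ≥0) : ENNReal) ^ (2 : ℝ) * (μH[2] : Measure E4) A := h1
      _ = 4 * (μH[2] : Measure E4) A := by
        congr 1
        norm_num
  have h5 : (1 / 24 : ENNReal) = 4⁻¹ * (1 / 6) := by
    rw [one_div, one_div, ← ENNReal.mul_inv (by simp) (by simp)]; norm_num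
  rw [h5]
  calc 4⁻¹ * (1 / 6) ≤ 4⁻¹ * (4 * (μH[2] : Measure E4) A) := by gcongr
    _ = (μH[2] : Measure E4) A := by
      rw [← mul_assoc, ENNReal.inv_mul_cancel (by simp) (by simp), one_mul]

/-- restriction to the unit interval -/
def cl (u : ℝ) : ℝ := max 0 (min 1 u)
theorem continuous_cl : Continuous cl := by unfold cl; fun_prop
theorem cl_mem (u : ℝ) : cl u ∈ Icc (0 : ℝ) 1 := ⟨le_max_left _ _, max_le zero_le_one (min_le_left _ _)⟩
theorem cl_eq {u : ℝ} (h : u ∈ Icc (0 : ℝ) 1) : cl u = u := by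
  unfold cl; rw [min_eq_right h.2, max_eq_right h.1]

/-- a chart of a cube in the cylinder -/
def chart (u v w : ℝ) : E4 :=
  mk4 !₂[cl u / 2, cl v / 2, √(1 - (cl u / 2) ^ 2 - (cl v / 2) ^ 2)] (cl w / 2)

theorem continuous_chart : Continuous fun p : ℝ × ℝ × ℝ => chart p.1 p.2.1 p.2.2 := by
  have h1 : Continuous fun p : ℝ × ℝ × ℝ => cl p.1 := continuous_cl.comp continuous_fst
  have h2 : Continuous fun p : ℝ × ℝ × ℝ => cl p.2.1 :=
    continuous_cl.comp (continuous_fst.comp continuous_snd)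
  have h3 : Continuous fun p : ℝ × ℝ × ℝ => cl p.2.2 :=
    continuous_cl.comp (continuous_snd.comp continuous_snd)
  have h4 : Continuous fun p : ℝ × ℝ × ℝ =>
      (!₂[cl p.1 / 2, cl p.2.1 / 2, √(1 - (cl p.1 / 2) ^ 2 - (cl p.2.1 / 2) ^ 2)] : E3) := by
    refine (PiLp.continuous_toLp 2 _).comp (continuous_pi fun i => ?_)
    fin_cases i <;> simp <;> fun_prop
  exact continuous_mk4.comp (h4.prodMk (h3.div_const 2))

theorem chart_mem (hl : 1 ≤ l) (u v w : ℝ) : chart u v w ∈ M l := by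
  have hu := cl_mem u
  have hv := cl_mem v
  have hw := cl_mem w
  rw [mem_M, ← norm_yy_sq]
  unfold chart
  rw [yy_mk4, zc_mk4, G_mid (by linarith [hw.1]) (by linarith [hw.2]), EuclideanSpace.norm_sq_eq,
    Fin.sum_univ_three]
  simp only [Matrix.cons_val_zero, Matrix.cons_val_one, Matrix.cons_val_two,
    Real.norm_eq_abs, sq_abs]
  simp
  rw [Real.sq_sqrt]
  · ring
  · have h1 : (cl u) ^ 2 ≤ 1 := by nlinarith [hu.1, hu.2]
    have h2 : (cl v) ^ 2 ≤ 1 := by nlinarith [hv.1, hv.2]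
    nlinarith

theorem chart_coord (u v w : ℝ) : 2 * chart u v w 0 = cl u ∧ 2 * chart u v w 1 = cl v ∧
    2 * chart u v w 3 = cl w := by
  unfold chart mk4
  refine ⟨?_, ?_, ?_⟩ <;> simp <;> ring

theorem zc_chart_le (u v w : ℝ) : zc (chart u v w) ≤ 1 / 2 := by
  unfold chart; rw [zc_mk4]; linarith [(cl_mem w).2]

/-- the domain below height `T` -/
def dom (l T : ℝ) : Set E4 := M l ∩ {x | zc x < T}

theorem fiber_ge (hl : 1 ≤ l) {T : ℝ} (hT : l < T) {f : E4 → ℝ} {O : Set E4} (hO : IsOpen O)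
    (hUO : dom l T ⊆ O) (hfO : ContinuousOn f O) :
    ∃ t : ℝ, 1 / 24 ≤ (μH[2] : Measure E4) {x | x ∈ dom l T ∧ f x = t} := by
  have hmem : ∀ u v w, chart u v w ∈ dom l T := fun u v w =>
    ⟨chart_mem hl u v w, by
      have := zc_chart_le u v w
      show zc (chart u v w) < T
      linarith⟩
  have hcont : Continuous fun p : ℝ × ℝ × ℝ => f (chart p.1 p.2.1 p.2.2) := by
    rw [continuous_iff_continuousAt]
    intro p
    have h1 : ContinuousAt f (chart p.1 p.2.1 p.2.2) :=
      hfO.continuousAt (hO.mem_nhds (hUO (hmem _ _ _)))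
    exact ContinuousAt.comp (f := fun p : ℝ × ℝ × ℝ => chart p.1 p.2.1 p.2.2) h1
      continuous_chart.continuousAt
  obtain ⟨t, ht⟩ := box (f := fun u v w => f (chart u v w)) hcont
  refine ⟨t, ?_⟩
  rcases ht with h | h | h
  · refine area_ge _ 1 3 _ ?_ h
    rintro p ⟨x, -, hx⟩ ⟨hp1, hp2⟩
    obtain ⟨-, e1, e2⟩ := chart_coord x p.1 p.2
    exact ⟨_, ⟨hmem _ _ _, hx⟩, e1.trans (cl_eq hp1), e2.trans (cl_eq hp2)⟩
  · refine area_ge _ 0 3 _ ?_ h
    rintro p ⟨x, -, hx⟩ ⟨hp1, hp2⟩
    obtain ⟨e1, -, e2⟩ := chart_coord p.1 x p.2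
    exact ⟨_, ⟨hmem _ _ _, hx⟩, e1.trans (cl_eq hp1), e2.trans (cl_eq hp2)⟩
  · refine area_ge _ 0 1 _ ?_ h
    rintro p ⟨x, -, hx⟩ ⟨hp1, hp2⟩
    obtain ⟨e1, e2, -⟩ := chart_coord p.1 p.2 x
    exact ⟨_, ⟨hmem _ _ _, hx⟩, e1.trans (cl_eq hp1), e2.trans (cl_eq hp2)⟩

/-- the parametrisation of horizontal spheres -/
def sph (r T : ℝ) (p : Fin 2 → ℝ) : E4 :=
  mk4 !₂[r * (Real.sin (p 0) * Real.cos (p 1)), r * (Real.sin (p 0) * Real.sin (p 1)),
    r * Real.cos (p 0)] T

theorem sph_lip {r : ℝ} (hr : 0 ≤ r) (T : ℝ) : LipschitzWith (4 * ⟨r, hr⟩) (sph r T) := by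
  refine LipschitzWith.of_dist_le_mul fun p q => ?_
  have hs : ∀ a b : ℝ, |Real.sin a - Real.sin b| ≤ |a - b| := fun a b => by
    have := Real.lipschitzWith_sin.dist_le_mul a b
    simpa [Real.dist_eq] using this
  have hc : ∀ a b : ℝ, |Real.cos a - Real.cos b| ≤ |a - b| := fun a b => by
    have := Real.lipschitzWith_cos.dist_le_mul a b
    simpa [Real.dist_eq] using this
  set d := dist p q with hd
  have hd0 : 0 ≤ d := dist_nonneg
  have h0 : |p 0 - q 0| ≤ d := by
    have := dist_le_pi_dist p q 0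
    rwa [Real.dist_eq] at this
  have h1 : |p 1 - q 1| ≤ d := by
    have := dist_le_pi_dist p q 1
    rwa [Real.dist_eq] at this
  have e1 : |Real.sin (p 0) * Real.cos (p 1) - Real.sin (q 0) * Real.cos (q 1)| ≤ 2 * d := by
    have : Real.sin (p 0) * Real.cos (p 1) - Real.sin (q 0) * Real.cos (q 1) =
      (Real.sin (p 0) - Real.sin (q 0)) * Real.cos (p 1) +
      Real.sin (q 0) * (Real.cos (p 1) - Real.cos (q 1)) := by ring
    rw [this]
    refine (abs_add_le _ _).trans ?_
    rw [abs_mul, abs_mul]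
    have f1 := Real.abs_cos_le_one (p 1)
    have f2 := Real.abs_sin_le_one (q 0)
    have f3 := (hs (p 0) (q 0)).trans h0
    have f4 := (hc (p 1) (q 1)).trans h1
    nlinarith [abs_nonneg (Real.sin (p 0) - Real.sin (q 0)), abs_nonneg (Real.cos (p 1)),
      abs_nonneg (Real.sin (q 0)), abs_nonneg (Real.cos (p 1) - Real.cos (q 1))]
  have e2 : |Real.sin (p 0) * Real.sin (p 1) - Real.sin (q 0) * Real.sin (q 1)| ≤ 2 * d := by
    have : Real.sin (p 0) * Real.sin (p 1) - Real.sin (q 0) * Real.sin (q 1) =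
      (Real.sin (p 0) - Real.sin (q 0)) * Real.sin (p 1) +
      Real.sin (q 0) * (Real.sin (p 1) - Real.sin (q 1)) := by ring
    rw [this]
    refine (abs_add_le _ _).trans ?_
    rw [abs_mul, abs_mul]
    have f1 := Real.abs_sin_le_one (p 1)
    have f2 := Real.abs_sin_le_one (q 0)
    have f3 := (hs (p 0) (q 0)).trans h0
    have f4 := (hs (p 1) (q 1)).trans h1
    nlinarith [abs_nonneg (Real.sin (p 0) - Real.sin (q 0)), abs_nonneg (Real.sin (p 1)),
      abs_nonneg (Real.sin (q 0)), abs_nonneg (Real.sin (p 1) - Real.sin (q 1))]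
  have e3 : |Real.cos (p 0) - Real.cos (q 0)| ≤ d := (hc _ _).trans h0
  have hsq : dist (sph r T p) (sph r T q) ^ 2 ≤ (4 * r * d) ^ 2 := by
    rw [dist_sq_E4, Fin.sum_univ_four]
    have k1 : (Real.sin (p 0) * Real.cos (p 1) - Real.sin (q 0) * Real.cos (q 1)) ^ 2 ≤
        (2 * d) ^ 2 := sq_le_sq' (by linarith [(abs_le.1 e1).1]) (abs_le.1 e1).2
    have k2 : (Real.sin (p 0) * Real.sin (p 1) - Real.sin (q 0) * Real.sin (q 1)) ^ 2 ≤
        (2 * d) ^ 2 := sq_le_sq' (by linarith [(abs_le.1 e2).1]) (abs_le.1 e2).2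
    have k3 : (Real.cos (p 0) - Real.cos (q 0)) ^ 2 ≤ d ^ 2 :=
      sq_le_sq' (by linarith [(abs_le.1 e3).1]) (abs_le.1 e3).2
    have m0 : sph r T p 0 - sph r T q 0 =
      r * (Real.sin (p 0) * Real.cos (p 1) - Real.sin (q 0) * Real.cos (q 1)) := by
      simp [sph, mk4]; ring
    have m1 : sph r T p 1 - sph r T q 1 =
      r * (Real.sin (p 0) * Real.sin (p 1) - Real.sin (q 0) * Real.sin (q 1)) := by
      simp [sph, mk4]; ring
    have m2 : sph r T p 2 - sph r T q 2 = r * (Real.cos (p 0) - Real.cos (q 0)) := by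
      simp [sph, mk4]; ring
    have m3 : sph r T p 3 - sph r T q 3 = 0 := by simp [sph, mk4]
    rw [m0, m1, m2, m3]
    have hr2 : 0 ≤ r ^ 2 := by positivity
    nlinarith [mul_le_mul_of_nonneg_left k1 hr2, mul_le_mul_of_nonneg_left k2 hr2,
      mul_le_mul_of_nonneg_left k3 hr2, mul_nonneg hr2 (sq_nonneg d)]
  have h2 := abs_le_of_sq_le_sq hsq (by positivity)
  rw [abs_of_nonneg dist_nonneg] at h2
  exact h2

theorem sph_surj {r T : ℝ} (hr : 0 < r) {y : E3} (hy : ‖y‖ = r) :
    ∃ p ∈ Icc (fun _ => -4 : Fin 2 → ℝ) (fun _ => 4), sph r T p = mk4 y T := by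
  have hy2 : y 0 ^ 2 + y 1 ^ 2 + y 2 ^ 2 = r ^ 2 := by
    rw [← hy, EuclideanSpace.norm_sq_eq, Fin.sum_univ_three]
    simp
  set a := Real.arccos (y 2 / r) with ha
  let z : ℂ := ⟨y 0, y 1⟩
  set b := Complex.arg z with hb
  have hle : |y 2 / r| ≤ 1 := by
    rw [abs_div, abs_of_pos hr, div_le_one hr]
    apply abs_le_of_sq_le_sq _ hr.le
    nlinarith [sq_nonneg (y 0), sq_nonneg (y 1)]
  have hcos : Real.cos a = y 2 / r := Real.cos_arccos (abs_le.1 hle).1 (abs_le.1 hle).2
  have hsin : r * Real.sin a = ‖z‖ := by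
    rw [ha, Real.sin_arccos]
    have h1 : ‖z‖ = √(y 0 ^ 2 + y 1 ^ 2) := by
      rw [Complex.norm_def, Complex.normSq_mk]
      congr 1; ring
    rw [h1]
    have h2 : y 0 ^ 2 + y 1 ^ 2 = r ^ 2 * (1 - (y 2 / r) ^ 2) := by
      field_simp
      linarith
    rw [h2, Real.sqrt_mul (by positivity), Real.sqrt_sq hr.le]
  refine ⟨![a, b], ?_, ?_⟩
  · have hpi : Real.pi < 4 := by linarith [Real.pi_lt_d2]
    have h1 := Real.arccos_nonneg (y 2 / r)
    have h2 := Real.arccos_le_pi (y 2 / r)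
    have h3 := Complex.neg_pi_lt_arg z
    have h4 := Complex.arg_le_pi z
    constructor
    · intro i
      fin_cases i
      · show (-4 : ℝ) ≤ a
        linarith
      · show (-4 : ℝ) ≤ b
        linarith
    · intro i
      fin_cases i
      · show a ≤ 4
        linarith
      · show b ≤ 4
        linarith
  · have h1 : r * (Real.sin a * Real.cos b) = y 0 := by
      rw [← mul_assoc, hsin, hb]
      exact Complex.norm_mul_cos_arg z
    have h2 : r * (Real.sin a * Real.sin b) = y 1 := by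
      rw [← mul_assoc, hsin, hb]
      exact Complex.norm_mul_sin_arg z
    have h3 : r * Real.cos a = y 2 := by rw [hcos]; field_simp
    unfold sph
    simp only [Matrix.cons_val_zero, Matrix.cons_val_one]
    rw [h1, h2, h3]
    congr 1
    ext i
    fin_cases i <;> simp

/-- area of the horizontal spheres -/
theorem area_sphere (hl : 0 < l) {T : ℝ} (hT : tip l < T) :
    (μH[2] : Measure E4) {x | x ∈ M l ∧ zc x = T} ≤ ENNReal.ofReal (1024 * (1 - G l T)) := by
  have hr : 0 < rho l T := rho_pos hl hT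
  have hsub : {x | x ∈ M l ∧ zc x = T} ⊆
      sph (rho l T) T '' Icc (fun _ => -4 : Fin 2 → ℝ) (fun _ => 4) := by
    rintro x ⟨hx, hxT⟩
    have h1 : ‖yy x‖ = rho l T := by rw [norm_yy hx, hxT]
    obtain ⟨p, hp, hpe⟩ := sph_surj (T := T) hr h1
    refine ⟨p, hp, ?_⟩
    rw [hpe, ← hxT, mk4_yy]
  have h2 := (sph_lip hr.le T).hausdorffMeasure_image_le (d := 2) (by norm_num)
    (Icc (fun _ => -4 : Fin 2 → ℝ) (fun _ => 4))
  rw [haus2, Real.volume_Icc_pi, Fin.prod_univ_two] at h2
  refine (measure_mono hsub).trans (h2.trans (le_of_eq ?_))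
  have h3 : (((4 * ⟨rho l T, hr.le⟩ : ℝ≥0)) : ENNReal) = ENNReal.ofReal (4 * rho l T) := by
    rw [ENNReal.ofReal, ENNReal.coe_inj]
    apply NNReal.eq
    rw [Real.coe_toNNReal _ (by positivity)]
    rfl
  rw [h3, ENNReal.ofReal_rpow_of_pos (by positivity), ← ENNReal.ofReal_mul (by norm_num),
    ← ENNReal.ofReal_mul (by positivity)]
  congr 1
  rw [← rho_sq hl hT.le]
  norm_num
  ring

theorem isSmoothDomain_dom (hl : 0 < l) {T : ℝ} (hT : l < T) : IsSmoothDomain (M l) (dom l T) where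
  nonempty := by
    refine ⟨ofR3 l 0, ofR3_mem hl 0, ?_⟩
    show zc (ofR3 l 0) < T
    unfold ofR3
    rw [zc_mk4, norm_zero, add_zero]
    have := tip_lt hl
    linarith
  isOpen := ⟨{x | zc x < T}, isOpen_lt zc.continuous continuous_const, rfl⟩
  isBounded := by
    rw [isBounded_iff_forall_norm_le]
    refine ⟨|tip l| + T + 1, ?_⟩
    rintro x ⟨hx, hxT⟩
    have hxT : zc x < T := hxT
    have h1 := tip_le hl hx
    have h2 := norm_sq_le hx
    have h3 : |zc x| ≤ |tip l| + T := by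
      rw [abs_le]
      have := neg_abs_le (tip l)
      have := abs_nonneg (tip l)
      constructor <;> linarith
    have h4 : zc x ^ 2 ≤ (|tip l| + T) ^ 2 := by
      rw [← sq_abs (zc x)]; gcongr
    have h5 : 0 ≤ |tip l| + T := by
      have := abs_nonneg (tip l)
      linarith
    nlinarith [norm_nonneg x]
  boundary := by
    rintro p ⟨hp1, hp2⟩
    have hpM : p ∈ M l := by
      have : closure (dom l T) ⊆ M l := closure_minimal inter_subset_left isClosed_M
      exact this hp1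
    have hple : zc p ≤ T := by
      have : closure (dom l T) ⊆ {x | zc x ≤ T} :=
        closure_minimal (fun x hx => (show zc x ≤ T from le_of_lt (show zc x < T from hx.2)))
          (isClosed_le zc.continuous continuous_const)
      exact this hp1
    have hpT : zc p = T := by
      refine le_antisymm hple ?_
      by_contra hcon
      exact hp2 ⟨hpM, not_le.1 hcon⟩
    have hfd : fderiv ℝ (fun x : E4 => zc x - T) p = zc := by
      rw [fderiv_sub_const]
      exact zc.fderiv
    refine ⟨univ, isOpen_univ, mem_univ _, fun x => zc x - T,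
      (zc.contDiff.sub contDiff_const).contDiffOn, by simp [hpT], ?_, ?_⟩
    · have hD := norm_gr_sq_M hpM
      have hG := G_lt_one hl (z := zc p) (by have := tip_lt hl; linarith)
      have hin : inner ℝ (gr l p) ez = G1 l (zc p) := by
        unfold gr
        simp only [inner_add_left, inner_smul_left, inner_ez_right, conj_trivial,
          real_inner_self_eq_norm_sq, norm_ez]
        ring
      have hgr := gr_ne_zero hl hpM
      have hg2 : 0 < ‖gr l p‖ ^ 2 := by positivity
      refine ⟨ez - (G1 l (zc p) / ‖gr l p‖ ^ 2) • gr l p, ?_, ?_⟩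
      · rw [mem_tangentSpace_M hl hpM, inner_sub_right, hin, inner_smul_right,
          real_inner_self_eq_norm_sq]
        field_simp
        ring
      · rw [hfd, map_sub, map_smul, zc_ez, smul_eq_mul]
        have h1 : zc (gr l p) = G1 l (zc p) := by rw [← inner_ez_right, hin]
        rw [h1, hD]
        have hDp : 0 < D l (zc p) := by rw [← hD]; exact hg2
        have h2 : 1 - G1 l (zc p) / D l (zc p) * G1 l (zc p) =
            4 * (1 - G l (zc p)) / D l (zc p) := by
          field_simp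
          unfold D
          ring
        rw [h2]
        have h3 : 0 < 4 * (1 - G l (zc p)) := by linarith
        positivity
    · rintro q ⟨hqM, -⟩
      constructor
      · intro hq
        have : zc q < T := hq.2
        show zc q - T < 0
        linarith
      · intro hq
        have hq : zc q - T < 0 := hq
        exact ⟨hqM, show zc q < T by linarith⟩

theorem exists_dom (hl : 1 ≤ l) : ∃ T, l < T ∧
    (μH[2] : Measure E4) (closure (dom l T) \ dom l T) ≤ (1 / 24) / 10 := by
  have hl0 : 0 < l := by linarith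
  have hlim := (tendsto_G hl0).eventually (lt_mem_nhds (show (1 - 1 / 245760 : ℝ) < 1 by norm_num))
  obtain ⟨T, hT1, hT2⟩ := (hlim.and (eventually_gt_atTop l)).exists
  refine ⟨T, hT2, ?_⟩
  have hsub : closure (dom l T) \ dom l T ⊆ {x | x ∈ M l ∧ zc x = T} := by
    rintro p ⟨hp1, hp2⟩
    have hpM : p ∈ M l := by
      have : closure (dom l T) ⊆ M l := closure_minimal inter_subset_left isClosed_M
      exact this hp1
    have hple : zc p ≤ T := by
      have : closure (dom l T) ⊆ {x | zc x ≤ T} :=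
        closure_minimal (fun x hx => (show zc x ≤ T from le_of_lt (show zc x < T from hx.2)))
          (isClosed_le zc.continuous continuous_const)
      exact this hp1
    refine ⟨hpM, le_antisymm hple ?_⟩
    by_contra hcon
    exact hp2 ⟨hpM, not_le.1 hcon⟩
  have htip : tip l < T := by have := tip_lt hl0; linarith
  calc (μH[2] : Measure E4) (closure (dom l T) \ dom l T)
      ≤ ENNReal.ofReal (1024 * (1 - G l T)) := (measure_mono hsub).trans (area_sphere hl0 htip)
    _ ≤ ENNReal.ofReal (1 / 240) := by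
        apply ENNReal.ofReal_le_ofReal
        linarith
    _ = (1 / 24) / 10 := by
        rw [ENNReal.ofReal_div_of_pos (by norm_num), ENNReal.div_eq_inv_mul, ENNReal.div_eq_inv_mul,
          ENNReal.div_eq_inv_mul, ← mul_assoc, ← ENNReal.mul_inv (by simp) (by simp)]
        norm_num

end Pool.Agent.W556.Cap
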