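import Mathlib

/-!
# Minimal surfaces in complete three-dimensional hypersurfaces of Euclidean four-space
-/

set_option autoImplicit false

noncomputable section

open Set Filter Topology MeasureTheory Metric
open scoped ContDiff

namespace Pool.Agent.W556.CapS

/-- Euclidean four-space. -/
abbrev E4 := EuclideanSpace ℝ (Fin 4)

/-- The standard orthonormal basis of Euclidean four-space. -/
abbrev bas (i : Fin 4) : E4 := EuclideanSpace.single i (1 : ℝ)

/-- The scalar product of Euclidean four-space. -/
def dot (v w : E4) : ℝ := inner ℝ v w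

/-- The derivative at `p`, in the direction `v`, of a map of Euclidean four-space. -/
def dMap (F : E4 → E4) (p v : E4) : E4 := fderiv ℝ F p v

/-- The derivative at `p`, in the direction `v`, of a real function. -/
def dFun (f : E4 → ℝ) (p v : E4) : ℝ := fderiv ℝ f p v

/-- `U` is open and the map `F` is smooth on `U`. -/
def IsSmoothMapOn (F : E4 → E4) (U : Set E4) : Prop := IsOpen U ∧ ContDiffOn ℝ ∞ F U

/-- `U` is open and the real function `f` is smooth on `U`. -/
def IsSmoothFunOn (f : E4 → ℝ) (U : Set E4) : Prop := IsOpen U ∧ ContDiffOn ℝ ∞ f U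

/-- The tangent space at `p` of a subset `S` of Euclidean space: the span of its tangent cone. -/
def tangentSpace (S : Set E4) (p : E4) : Submodule ℝ E4 :=
  Submodule.span ℝ (tangentConeAt ℝ S p)

/-- The orthogonal projection of `v` to the tangent space of `S` at `p`. -/
def tangentProj (S : Set E4) (p v : E4) : E4 := (tangentSpace S p).starProjection v

/-- `M` is a connected smooth hypersurface of Euclidean four-space which is closed as a subset
(so that, with the induced Riemannian metric, it is a complete Riemannian manifold of dimension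
`3`), and `N` is a unit normal field of `M`, smooth in a neighbourhood of `M`. -/
structure IsCompleteHypersurface (M : Set E4) (N : E4 → E4) : Prop where
  isClosed : IsClosed M
  isConnected : IsConnected M
  smooth : ∀ p ∈ M, ∃ (U : Set E4) (f : E4 → ℝ), p ∈ U ∧ IsSmoothFunOn f U ∧
    (∃ v, dFun f p v ≠ 0) ∧ ∀ q ∈ U, (q ∈ M ↔ f q = 0)
  normal_smooth : ∃ U : Set E4, M ⊆ U ∧ IsSmoothMapOn N U
  normal_unit : ∀ p ∈ M, dot (N p) (N p) = 1
  normal_dot : ∀ p ∈ M, ∀ v ∈ tangentSpace M p, dot (N p) v = 0

/-- The second fundamental form of a hypersurface with unit normal field `N`. -/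
def secondFund (N : E4 → E4) (p v w : E4) : ℝ := dot (dMap N p v) w

/-- The Ricci curvature `Ric(v, v)` of the hypersurface `M`, for `v` tangent to `M` at `p`, by the
Gauss equation: the sum over an orthonormal frame `e_i` of the tangent space of
`B(e_i, e_i) B(v, v) - B(e_i, v)²`, where `B` is the second fundamental form (the sum is expressed
with the orthogonal projections of the standard basis to the tangent space). -/
def ricci (M : Set E4) (N : E4 → E4) (p v : E4) : ℝ :=
  ∑ i : Fin 4,
    (secondFund N p (tangentProj M p (bas i)) (tangentProj M p (bas i)) * secondFund N p v v -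
      secondFund N p (tangentProj M p (bas i)) v ^ 2)

/-- `Γ` is an embedded surface without boundary in `M`, closed as a subset: near each of its
points it is the zero set in `M` of a smooth function whose differential does not vanish on the
tangent space of `M`. -/
structure IsEmbeddedSurface (M Γ : Set E4) : Prop where
  subset : Γ ⊆ M
  isClosed : IsClosed Γ
  smooth : ∀ p ∈ Γ, ∃ (U : Set E4) (g : E4 → ℝ), p ∈ U ∧ IsSmoothFunOn g U ∧
    (∃ v ∈ tangentSpace M p, dFun g p v ≠ 0) ∧ ∀ q ∈ U, (q ∈ Γ ↔ q ∈ M ∧ g q = 0)

/-- The normal line of the surface `Γ` in `M` at `p`: the vectors tangent to `M` and orthogonal to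
`Γ`. -/
def normalLine (M Γ : Set E4) (p : E4) : Submodule ℝ E4 :=
  tangentSpace M p ⊓ (tangentSpace Γ p)ᗮ

/-- The orthogonal projection of `v` to the normal line of `Γ` in `M` at `p`. -/
def normalProj (M Γ : Set E4) (p v : E4) : E4 := (normalLine M Γ p).starProjection v

/-- The normal bundle of `Γ` in `M` is trivial: there is a continuous unit normal field. -/
def IsTwoSided (M Γ : Set E4) : Prop :=
  ∃ ν : E4 → E4, ContinuousOn ν Γ ∧ ∀ p ∈ Γ, dot (ν p) (ν p) = 1 ∧ ν p ∈ normalLine M Γ p

/-- `M` contains no one-sided embedded surface. -/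
def HasNoOneSidedSurface (M : Set E4) : Prop :=
  ∀ Γ : Set E4, IsEmbeddedSurface M Γ → IsTwoSided M Γ

/-- The area of a subset: its two-dimensional Hausdorff measure. -/
def area (S : Set E4) : ENNReal := (μH[2] : Measure E4) S

/-- The integral of a function over a surface, for the area measure. -/
def surfaceIntegral (Γ : Set E4) (f : E4 → ℝ) : ℝ := ∫ p in Γ, f p ∂(μH[2] : Measure E4)

/-- The divergence of the vector field `X` along the surface `Γ`: the trace over the tangent plane
of the derivative of `X`. -/
def surfaceDiv (Γ : Set E4) (X : E4 → E4) (p : E4) : ℝ :=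
  ∑ i : Fin 4, dot (dMap X p (tangentProj Γ p (bas i))) (tangentProj Γ p (bas i))

/-- `Γ` is a nonempty embedded minimal surface of finite area in `M`, minimality being the
vanishing of the first variation of area for all compactly supported vector fields of `M`. -/
structure IsFiniteAreaMinimal (M Γ : Set E4) : Prop where
  nonempty : Γ.Nonempty
  embedded : IsEmbeddedSurface M Γ
  finite_area : area Γ < ⊤
  minimal : ∀ X : E4 → E4, IsSmoothMapOn X univ → HasCompactSupport X →
    (∀ p ∈ M, X p ∈ tangentSpace M p) → surfaceIntegral Γ (surfaceDiv Γ X) = 0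

/-- `V` is a compactly supported normal variation of the surface `Γ` in `M`. -/
structure IsNormalVariation (M Γ : Set E4) (V : E4 → E4) : Prop where
  smooth : IsSmoothMapOn V univ
  compact : HasCompactSupport V
  normal : ∀ p ∈ Γ, V p ∈ normalLine M Γ p

/-- The squared length of the covariant derivative of `V` in the normal bundle of `Γ` in `M`. -/
def normalDerivSq (M Γ : Set E4) (V : E4 → E4) (p : E4) : ℝ :=
  ∑ i : Fin 4, dot (normalProj M Γ p (dMap V p (tangentProj Γ p (bas i))))
    (normalProj M Γ p (dMap V p (tangentProj Γ p (bas i))))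

/-- The squared length of the second fundamental form of `Γ` in the direction of the normal field
`V`, that is, of the tangential part of the derivative of `V` along `Γ`. -/
def secondFundSq (Γ : Set E4) (V : E4 → E4) (p : E4) : ℝ :=
  ∑ i : Fin 4, dot (tangentProj Γ p (dMap V p (tangentProj Γ p (bas i))))
    (tangentProj Γ p (dMap V p (tangentProj Γ p (bas i))))

/-- The second variation of area of the minimal surface `Γ` for the normal variation `V`:
the integral of `|∇^⊥ V|² - |⟨A, V⟩|² - Ric(V, V)`. -/
def secondVariation (M : Set E4) (N : E4 → E4) (Γ : Set E4) (V : E4 → E4) : ℝ :=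
  surfaceIntegral Γ fun p => normalDerivSq M Γ V p - secondFundSq Γ V p - ricci M N p (V p)

/-- The Morse index of `Γ` is at least `k`: the second variation of area is negative definite on
some `k`-dimensional space of compactly supported normal variations. -/
def MorseIndexAtLeast (M : Set E4) (N : E4 → E4) (Γ : Set E4) (k : ℕ) : Prop :=
  ∃ V : Fin k → E4 → E4, (∀ i, IsNormalVariation M Γ (V i)) ∧
    ∀ c : Fin k → ℝ, c ≠ 0 → secondVariation M N Γ (fun x => ∑ i, c i • V i x) < 0

/-- The Morse index of `Γ` is equal to one. -/
def HasMorseIndexOne (M : Set E4) (N : E4 → E4) (Γ : Set E4) : Prop :=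
  MorseIndexAtLeast M N Γ 1 ∧ ¬ MorseIndexAtLeast M N Γ 2

/-- The Hessian of the restriction to `M` of the function `f`. -/
def hessian (N : E4 → E4) (f : E4 → ℝ) (p v w : E4) : ℝ :=
  dFun (fun x => dFun f x w) p v - dFun f p (N p) * secondFund N p v w

/-- `f` is a Morse function on the open subset `U` of `M` with values in `[0, 1]`. -/
structure IsMorseOn (M : Set E4) (N : E4 → E4) (U : Set E4) (f : E4 → ℝ) : Prop where
  smooth : ∃ O : Set E4, U ⊆ O ∧ IsSmoothFunOn f O
  mem_Icc : ∀ p ∈ U, f p ∈ Icc (0 : ℝ) 1
  nondegenerate : ∀ p ∈ U, (∀ v ∈ tangentSpace M p, dFun f p v = 0) →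
    ∀ v ∈ tangentSpace M p, v ≠ 0 → ∃ w ∈ tangentSpace M p, hessian N f p v w ≠ 0

/-- The relative width of `U`: the supremum of all `a` such that every Morse function on `U` with
values in `[0, 1]` has a fiber of area at least `a`. -/
def relativeWidth (M : Set E4) (N : E4 → E4) (U : Set E4) : ENNReal :=
  sSup {a : ENNReal | ∀ f : E4 → ℝ, IsMorseOn M N U f → ∃ t : ℝ, a ≤ area {x | x ∈ U ∧ f x = t}}

/-- `U` is a nonempty bounded open subset of `M` with smooth boundary `closure U \ U`: near each
boundary point, `U` is the part of `M` where a smooth function is negative, the differential of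
this function being nonzero on the tangent space of `M`. -/
structure IsSmoothDomain (M U : Set E4) : Prop where
  nonempty : U.Nonempty
  isOpen : ∃ O : Set E4, IsOpen O ∧ U = M ∩ O
  isBounded : Bornology.IsBounded U
  boundary : ∀ p ∈ closure U \ U, ∃ (O : Set E4) (g : E4 → ℝ), p ∈ O ∧ IsSmoothFunOn g O ∧
    g p = 0 ∧ (∃ v ∈ tangentSpace M p, dFun g p v ≠ 0) ∧ ∀ q ∈ M ∩ O, (q ∈ U ↔ g q < 0)

/-- Condition (*): some bounded open set `U` with smooth boundary satisfies
`area (∂U) ≤ W(U) / 10`. -/
def SatisfiesStar (M : Set E4) (N : E4 → E4) : Prop :=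
  ∃ U : Set E4, IsSmoothDomain M U ∧ area (closure U \ U) ≤ relativeWidth M N U / 10

end Pool.Agent.W556.CapS
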