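import Mathlib
import Pool.Agent.W556.CapFlux

/-!
# Flux, and surfaces with vanishing flux
-/

set_option autoImplicit false

noncomputable section

open Set Filter Topology MeasureTheory Metric
open scoped ContDiff NNReal

namespace Pool.Agent.W556.Cap

variable {l : ℝ}

abbrev μ2 : Measure E4 := (μH[2] : Measure E4)

theorem integrable_of_cont {Γ : Set E4} (hΓ : IsFiniteAreaMinimal (M l) Γ) {F : E4 → ℝ}
    (hF : ContinuousOn F Γ) {C : ℝ} (hC : ∀ q ∈ Γ, |F q| ≤ C) : IntegrableOn F Γ μ2 := by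
  have hfin : IsFiniteMeasure (μ2.restrict Γ) :=
    ⟨by rw [Measure.restrict_apply_univ]; exact hΓ.finite_area⟩
  refine Integrable.of_bound
    (hF.aestronglyMeasurable hΓ.embedded.isClosed.measurableSet) C ?_
  filter_upwards [ae_restrict_mem hΓ.embedded.isClosed.measurableSet] with q hq
  exact hC q hq

theorem eq_zero_of_integral (hl : 0 < l) {Γ : Set E4} (hΓ : IsFiniteAreaMinimal (M l) Γ)
    {F : E4 → ℝ} (hF : ContinuousOn F Γ) (hint : IntegrableOn F Γ μ2) (h0 : ∀ q ∈ Γ, 0 ≤ F q)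
    (hI : ∫ q in Γ, F q ∂μ2 = 0) : ∀ q ∈ Γ, F q = 0 := by
  have hm := hΓ.embedded.isClosed.measurableSet
  have h1 : F =ᵐ[μ2.restrict Γ] 0 := by
    refine (setIntegral_eq_zero_iff_of_nonneg_ae ?_ hint).1 hI
    filter_upwards [ae_restrict_mem hm] with q hq
    exact h0 q hq
  intro p hp
  by_contra hne
  have hpos : 0 < F p := lt_of_le_of_ne (h0 p hp) (Ne.symm hne)
  have h2 : ∀ᶠ q in 𝓝[Γ] p, 0 < F q := (hF p hp).eventually (lt_mem_nhds hpos)
  obtain ⟨V, hV, hVs⟩ := mem_nhdsWithin_iff_exists_mem_nhds_inter.1 h2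
  have h3 := area_pos hl hΓ.embedded hp hV
  have h4 : μ2 (Γ ∩ V) = 0 := by
    have h5 : (μ2.restrict Γ) {q | F q ≠ 0} = 0 := h1
    rw [Measure.restrict_apply₀' hm.nullMeasurableSet] at h5
    refine measure_mono_null ?_ h5
    rintro q ⟨hq1, hq2⟩
    exact ⟨(hVs ⟨hq2, hq1⟩ : 0 < F q).ne', hq1⟩
  exact absurd h4 h3.ne'

/-- the flux density expressed with a normalised cutoff -/
def fluxD2 (l : ℝ) (χ : ℝ → ℝ) (Γ : Set E4) (q : E4) : ℝ :=
  -2 * χ (zc q) * G1 l (zc q) / √(D l (zc q)) + deriv χ (zc q) * √(D l (zc q)) / 2 * hh Γ q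

theorem exists_k (hl : 0 < l) {χ : ℝ → ℝ}
    (hχ : ContDiff ℝ ∞ χ) (hχc : HasCompactSupport χ) (hχt : tsupport χ ⊆ Ioi (tip l)) :
    ∃ k : ℝ → ℝ, ContDiff ℝ ∞ k ∧ HasCompactSupport k ∧
      ∀ Γ : Set E4, ∀ q ∈ M l, fluxD2 l χ Γ q = fluxDensity l k Γ q := by
  have hk : ContDiff ℝ ∞ (fun t => χ t / √(D l t)) := by
    rw [contDiff_iff_contDiffAt]
    intro t
    by_cases ht : t ∈ tsupport χ
    · have hD : D l t ≠ 0 := (D_pos hl (le_of_lt (hχt ht))).ne'
      have hD' : √(D l t) ≠ 0 := Real.sqrt_ne_zero'.2 (D_pos hl (le_of_lt (hχt ht)))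
      exact hχ.contDiffAt.div (contDiff_D.contDiffAt.sqrt hD) hD'
    · have h0 : χ =ᶠ[𝓝 t] 0 := notMem_tsupport_iff_eventuallyEq.1 ht
      have h1 : (fun t => χ t / √(D l t)) =ᶠ[𝓝 t] fun _ => 0 := by
        filter_upwards [h0] with s hs
        rw [hs]; simp
      exact contDiffAt_const.congr_of_eventuallyEq h1
  have hkc : HasCompactSupport (fun t => χ t / √(D l t)) := by
    refine hχc.mono fun t ht => ?_
    intro h0
    apply ht
    show χ t / _ = 0
    rw [h0, zero_div]
  refine ⟨_, hk, hkc, fun Γ q hq => ?_⟩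
  have hD := D_pos hl (tip_le hl hq)
  have hs : 0 < √(D l (zc q)) := Real.sqrt_pos.2 hD
  have hss : √(D l (zc q)) ^ 2 = D l (zc q) := Real.sq_sqrt hD.le
  have hd : deriv (fun t => χ t / √(D l t)) (zc q) =
      (deriv χ (zc q) * √(D l (zc q)) - χ (zc q) *
        ((-4 * G1 l (zc q) + 2 * G1 l (zc q) * G2 l (zc q)) / (2 * √(D l (zc q))))) /
          √(D l (zc q)) ^ 2 := by
    have h1 : HasDerivAt χ (deriv χ (zc q)) (zc q) :=
      (hχ.differentiable (by simp)).differentiableAt.hasDerivAt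
    have h2 := (hasDerivAt_D (l := l) (zc q)).sqrt hD.ne'
    exact (h1.div h2 hs.ne').deriv
  rw [fluxD2, fluxDensity, hd]
  have e1 : D l (zc q) = √(D l (zc q)) ^ 2 := hss.symm
  set s := √(D l (zc q)) with hs'
  rw [e1]
  field_simp
  ring

theorem flux2 (hl : 0 < l) {Γ : Set E4} (hΓ : IsFiniteAreaMinimal (M l) Γ) {χ : ℝ → ℝ}
    (hχ : ContDiff ℝ ∞ χ) (hχc : HasCompactSupport χ) (hχt : tsupport χ ⊆ Ioi (tip l)) :
    ∫ q in Γ, fluxD2 l χ Γ q ∂μ2 = 0 := by
  obtain ⟨k, hk, hkc, h⟩ := exists_k hl hχ hχc hχt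
  rw [← flux hl hΓ hk hkc]
  exact setIntegral_congr_fun hΓ.embedded.isClosed.measurableSet
    fun q hq => h Γ q (hΓ.embedded.subset hq)

theorem fluxDensity_cont (hl : 0 < l) {Γ : Set E4} (hΓ : IsFiniteAreaMinimal (M l) Γ) {k : ℝ → ℝ}
    (hk : ContDiff ℝ ∞ k) (hkc : HasCompactSupport k) :
    ContinuousOn (fluxDensity l k Γ) Γ ∧ IntegrableOn (fluxDensity l k Γ) Γ μ2 := by
  have hhc := continuousOn_hh hl hΓ.embedded
  have hk' : Continuous (deriv k) := hk.continuous_deriv (by simp)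
  have hkc' : HasCompactSupport (deriv k) := hkc.deriv
  have hG1 : Continuous (G1 l) := contDiff_G1.continuous
  have hG2 : Continuous (G2 l) := contDiff_G2.continuous
  have hD : Continuous (D l) := contDiff_D.continuous
  have hk0 := hk.continuous
  have ha : Continuous (fun t => -2 * k t * G1 l t) := by fun_prop
  have hb : Continuous (fun t => deriv k t * D l t / 2 +
      k t * (-4 * G1 l t + 2 * G1 l t * G2 l t) / 4) := by fun_prop
  have hac : HasCompactSupport (fun t => -2 * k t * G1 l t) := by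
    refine hkc.mono fun t ht h0 => ht ?_
    show -2 * k t * G1 l t = 0
    rw [h0]; ring
  have hbc : HasCompactSupport (fun t => deriv k t * D l t / 2 +
      k t * (-4 * G1 l t + 2 * G1 l t * G2 l t) / 4) := by
    refine (hkc.isCompact.union hkc'.isCompact).of_isClosed_subset (isClosed_tsupport _)
      (closure_minimal ?_ ((isClosed_tsupport _).union (isClosed_tsupport _)))
    intro t ht
    by_contra hcon
    rw [mem_union, not_or] at hcon
    apply ht
    show deriv k t * D l t / 2 + k t * (-4 * G1 l t + 2 * G1 l t * G2 l t) / 4 = 0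
    rw [image_eq_zero_of_notMem_tsupport hcon.1, image_eq_zero_of_notMem_tsupport hcon.2]
    ring
  obtain ⟨C1, hC1⟩ := hac.exists_bound_of_continuous ha
  obtain ⟨C2, hC2⟩ := hbc.exists_bound_of_continuous hb
  have hcont : ContinuousOn (fluxDensity l k Γ) Γ := by
    have h1 : ContinuousOn (fun q : E4 => -2 * k (zc q) * G1 l (zc q)) Γ :=
      (ha.comp zc.continuous).continuousOn
    have h2 : ContinuousOn (fun q : E4 => deriv k (zc q) * D l (zc q) / 2 +
      k (zc q) * (-4 * G1 l (zc q) + 2 * G1 l (zc q) * G2 l (zc q)) / 4) Γ :=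
      (hb.comp zc.continuous).continuousOn
    exact h1.add (h2.mul hhc)
  refine ⟨hcont, integrable_of_cont hΓ hcont (C := C1 + C2) fun q _ => ?_⟩
  have h1 := hC1 (zc q)
  have h2 := hC2 (zc q)
  rw [Real.norm_eq_abs] at h1 h2
  unfold fluxDensity
  refine (abs_add_le _ _).trans (add_le_add h1 ?_)
  rw [abs_mul, abs_of_nonneg (hh_nonneg Γ q)]
  have h3 := hh_le_one Γ q
  have h4 := hh_nonneg Γ q
  have h5 := abs_nonneg (deriv k (zc q) * D l (zc q) / 2 +
      k (zc q) * (-4 * G1 l (zc q) + 2 * G1 l (zc q) * G2 l (zc q)) / 4)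
  nlinarith

/-- if the flux density has a sign then it vanishes -/
theorem fluxD2_eq_zero (hl : 0 < l) {Γ : Set E4} (hΓ : IsFiniteAreaMinimal (M l) Γ) {χ : ℝ → ℝ}
    (hχ : ContDiff ℝ ∞ χ) (hχc : HasCompactSupport χ) (hχt : tsupport χ ⊆ Ioi (tip l))
    {s : ℝ} (hs : s ≠ 0) (h0 : ∀ q ∈ Γ, 0 ≤ s * fluxD2 l χ Γ q) :
    ∀ q ∈ Γ, fluxD2 l χ Γ q = 0 := by
  obtain ⟨k, hk, hkc, h⟩ := exists_k hl hχ hχc hχt
  obtain ⟨h1, h2⟩ := fluxDensity_cont hl hΓ hk hkc
  have h3 : ∫ q in Γ, s * fluxDensity l k Γ q ∂μ2 = 0 := by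
    rw [integral_const_mul]
    have := flux hl hΓ hk hkc
    rw [this, mul_zero]
  have h4 := eq_zero_of_integral hl hΓ (continuousOn_const.mul h1) (h2.const_mul s)
    (fun q hq => by
      have := h0 q hq
      rwa [h Γ q (hΓ.embedded.subset hq)] at this) h3
  intro q hq
  have h5 := h4 q hq
  rw [h Γ q (hΓ.embedded.subset hq)]
  simpa [hs] using h5

/-- the vertical flux -/
theorem flux_mid (hl : 0 < l) {Γ : Set E4} (hΓ : IsFiniteAreaMinimal (M l) Γ) {χ : ℝ → ℝ}
    (hχ : ContDiff ℝ ∞ χ) (hχc : HasCompactSupport χ) (hχt : tsupport χ ⊆ Ioo (-l) l) :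
    ∫ q in Γ, deriv χ (zc q) * hh Γ q ∂μ2 = 0 := by
  have h := flux2 hl hΓ hχ hχc (fun t ht => (tip_lt hl).trans (hχt ht).1)
  rw [← h]
  refine setIntegral_congr_fun hΓ.embedded.isClosed.measurableSet fun q _ => ?_
  show deriv χ (zc q) * hh Γ q = fluxD2 l χ Γ q
  unfold fluxD2
  by_cases hq : zc q ∈ tsupport χ
  · obtain ⟨h1, h2⟩ := hχt hq
    rw [G1_mid h1.le h2.le, D, G_mid h1.le h2.le, G1_mid h1.le h2.le]
    have : √(4 * (1 - 0) + 0 ^ 2) = (2 : ℝ) := by
      rw [show (4 * (1 - 0) + 0 ^ 2 : ℝ) = 2 ^ 2 by norm_num]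
      exact Real.sqrt_sq (by norm_num)
    rw [this]; ring
  · have h0 : χ =ᶠ[𝓝 (zc q)] 0 := notMem_tsupport_iff_eventuallyEq.1 hq
    have h1 : deriv χ (zc q) = 0 := by
      rw [h0.deriv_eq]
      exact deriv_const' (0 : ℝ) |> fun h => congrFun h _
    have h2 : χ (zc q) = 0 := h0.self_of_nhds
    rw [h1, h2]; simp

theorem exists_radius {K : Set ℝ} (hK : IsCompact K) (hs : K ⊆ Ioo (-l) l) (hl : 0 < l) :
    ∃ r, 0 < r ∧ r < l ∧ ∀ t ∈ K, |t| < r := by
  rcases K.eq_empty_or_nonempty with h | h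
  · exact ⟨l / 2, by linarith, by linarith, by simp [h]⟩
  · obtain ⟨m, hm, hmax⟩ := hK.exists_isMaxOn h (continuous_abs.continuousOn)
    have h1 : |m| < l := abs_lt.2 (hs hm)
    refine ⟨(|m| + l) / 2, by positivity, by linarith, fun t ht => ?_⟩
    have : |t| ≤ |m| := hmax ht
    linarith

/-- a primitive with compact support -/
theorem exists_primitive (hl : 0 < l) {κ : ℝ → ℝ} (hκ : ContDiff ℝ ∞ κ)
    (hκc : HasCompactSupport κ) (hκt : tsupport κ ⊆ Ioo (-l) l) (h0 : ∫ t, κ t = 0) :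
    ∃ χ : ℝ → ℝ, ContDiff ℝ ∞ χ ∧ HasCompactSupport χ ∧ tsupport χ ⊆ Ioo (-l) l ∧
      deriv χ = κ := by
  obtain ⟨r, hr0, hrl, hr⟩ := exists_radius hκc.isCompact hκt hl
  have hz : ∀ t, r ≤ |t| → κ t = 0 := by
    intro t ht
    by_contra hne
    exact absurd (hr t (subset_tsupport _ hne)) (not_lt.2 ht)
  let χ : ℝ → ℝ := fun z => ∫ t in (-l)..z, κ t
  have hd : ∀ z, HasDerivAt χ (κ z) z := fun z =>
    intervalIntegral.integral_hasDerivAt_right (hκ.continuous.intervalIntegrable _ _)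
      (hκ.continuous.stronglyMeasurableAtFilter _ _) hκ.continuous.continuousAt
  have hderiv : deriv χ = κ := funext fun z => (hd z).deriv
  have hsupp : Function.support χ ⊆ Icc (-r) r := by
    intro z hz'
    by_contra hcon
    apply hz'
    rw [mem_Icc, not_and_or, not_le, not_le] at hcon
    rcases hcon with h | h
    · show ∫ t in (-l)..z, κ t = 0
      rw [intervalIntegral.integral_congr (g := fun _ => (0 : ℝ))]
      · simp
      · intro t ht
        apply hz
        rw [uIcc, mem_Icc] at ht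
        have h1 : t ≤ max (-l) z := ht.2
        have h2 : max (-l) z ≤ -r := max_le (by linarith) h.le
        rw [abs_of_neg (by linarith)]; linarith
    · show ∫ t in (-l)..z, κ t = 0
      rw [intervalIntegral.integral_eq_integral_of_support_subset, h0]
      intro t ht
      have h1 : |t| < r := by
        by_contra h2
        exact ht (hz t (not_lt.1 h2))
      rw [abs_lt] at h1
      exact ⟨by linarith, by linarith⟩
  have hts : tsupport χ ⊆ Icc (-r) r := closure_minimal hsupp isClosed_Icc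
  refine ⟨χ, ?_, ?_, ?_, hderiv⟩
  · rw [contDiff_infty_iff_deriv]
    exact ⟨fun z => (hd z).differentiableAt, by rw [hderiv]; exact hκ⟩
  · exact isCompact_Icc.of_isClosed_subset (isClosed_tsupport _) hts
  · exact hts.trans (Icc_subset_Ioo (by linarith) hrl)

/-- the vertical component of the area is a multiple of the height measure in the cylinder -/
theorem flux_measure (hl : 0 < l) {Γ : Set E4} (hΓ : IsFiniteAreaMinimal (M l) Γ) :
    ∃ c : ℝ, 0 ≤ c ∧ ∀ K : ℝ → ℝ, ContDiff ℝ ∞ K → HasCompactSupport K →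
      tsupport K ⊆ Ioo (-l) l → ∫ q in Γ, K (zc q) * hh Γ q ∂μ2 = c * ∫ t, K t := by
  let b : ContDiffBump (0 : ℝ) := ⟨l / 4, l / 2, by positivity, by linarith⟩
  let K0 : ℝ → ℝ := b.normed volume
  have hK0 : ContDiff ℝ ∞ K0 := b.contDiff_normed
  have hK0c : HasCompactSupport K0 := b.hasCompactSupport_normed
  have hK0t : tsupport K0 ⊆ Ioo (-l) l := by
    rw [b.tsupport_normed_eq]
    intro t ht
    have h1 : |t| ≤ l / 2 := by simpa using ht
    rw [abs_le] at h1
    exact ⟨by linarith, by linarith⟩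
  have hK0i : ∫ t, K0 t = 1 := b.integral_normed
  have hhc := continuousOn_hh hl hΓ.embedded
  have hint : ∀ K : ℝ → ℝ, Continuous K → HasCompactSupport K →
      IntegrableOn (fun q => K (zc q) * hh Γ q) Γ μ2 := by
    intro K hK hKc
    obtain ⟨C, hC⟩ := hKc.exists_bound_of_continuous hK
    refine integrable_of_cont hΓ ((hK.comp zc.continuous).continuousOn.mul hhc) (C := C)
      fun q _ => ?_
    rw [abs_mul, abs_of_nonneg (hh_nonneg Γ q)]
    have h1 := hC (zc q)
    rw [Real.norm_eq_abs] at h1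
    have h2 := hh_le_one Γ q
    have h3 := abs_nonneg (K (zc q))
    have h4 := hh_nonneg Γ q
    nlinarith
  refine ⟨∫ q in Γ, K0 (zc q) * hh Γ q ∂μ2, ?_, ?_⟩
  · exact integral_nonneg fun q => mul_nonneg (b.nonneg_normed _) (hh_nonneg Γ q)
  · intro K hK hKc hKt
    set m := ∫ t, K t with hm
    have hκ : ContDiff ℝ ∞ (fun t => K t - m * K0 t) := hK.sub (contDiff_const.mul hK0)
    have hκs : Function.support (fun t => K t - m * K0 t) ⊆ tsupport K ∪ tsupport K0 := by
      intro t ht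
      by_contra hcon
      rw [mem_union, not_or] at hcon
      apply ht
      show K t - m * K0 t = 0
      rw [image_eq_zero_of_notMem_tsupport hcon.1, image_eq_zero_of_notMem_tsupport hcon.2]
      ring
    have hκts : tsupport (fun t => K t - m * K0 t) ⊆ tsupport K ∪ tsupport K0 :=
      closure_minimal hκs ((isClosed_tsupport _).union (isClosed_tsupport _))
    have hκc : HasCompactSupport (fun t => K t - m * K0 t) :=
      (hKc.isCompact.union hK0c.isCompact).of_isClosed_subset (isClosed_tsupport _) hκts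
    have hκi : ∫ t, (K t - m * K0 t) = 0 := by
      rw [integral_sub (hK.continuous.integrable_of_hasCompactSupport hKc)
        ((hK0.continuous.integrable_of_hasCompactSupport hK0c).const_mul m),
        integral_const_mul, hK0i, ← hm]
      ring
    obtain ⟨χ, hχ, hχc, hχt, hχd⟩ := exists_primitive hl hκ hκc
      (hκts.trans (union_subset hKt hK0t)) hκi
    have h := flux_mid hl hΓ hχ hχc hχt
    rw [hχd] at h
    have h2 : ∀ q, (K (zc q) - m * K0 (zc q)) * hh Γ q =
        K (zc q) * hh Γ q - m * (K0 (zc q) * hh Γ q) := fun q => by ring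
    simp_rw [h2] at h
    rw [integral_sub (hint K hK.continuous hKc) ((hint K0 hK0.continuous hK0c).const_mul m),
      integral_const_mul] at h
    linarith

end Pool.Agent.W556.Cap
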