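import Mathlib
import Pool.Agent.W556.CapZero

/-!
# Surfaces with vanishing flux are horizontal
-/

set_option autoImplicit false

noncomputable section

open Set Filter Topology MeasureTheory Metric
open scoped ContDiff NNReal

namespace Pool.Agent.W556.Cap

variable {l : ℝ}

/-- the surface has no vertical flux -/
def NoFlux (l : ℝ) (Γ : Set E4) : Prop :=
  ∀ K : ℝ → ℝ, ContDiff ℝ ∞ K → HasCompactSupport K →
      tsupport K ⊆ Ioo (-l) l → ∫ q in Γ, K (zc q) * hh Γ q ∂μ2 = 0

theorem hh_mid (hl : 0 < l) {Γ : Set E4} (hΓ : IsFiniteAreaMinimal (M l) Γ) (hf : NoFlux l Γ)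
    {p : E4} (hp : p ∈ Γ) (h1 : -l < zc p) (h2 : zc p < l) : hh Γ p = 0 := by
  set r := min (l - zc p) (zc p + l) / 2 with hr
  have hr0 : 0 < r := by
    have : 0 < min (l - zc p) (zc p + l) := lt_min (by linarith) (by linarith)
    positivity
  have hr1 : 2 * r ≤ l - zc p := by
    have := min_le_left (l - zc p) (zc p + l)
    linarith
  have hr2 : 2 * r ≤ zc p + l := by
    have := min_le_right (l - zc p) (zc p + l)
    linarith
  let b : ContDiffBump (zc p) := ⟨r / 2, r, by positivity, by linarith⟩
  have hbt : tsupport b ⊆ Ioo (-l) l := by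
    rw [b.tsupport_eq]
    intro t ht
    rw [mem_closedBall, Real.dist_eq, abs_le] at ht
    have h3 : b.rOut = r := rfl
    rw [h3] at ht
    constructor <;> linarith [ht.1, ht.2]
  have hI := hf b b.contDiff b.hasCompactSupport hbt
  have hcont : ContinuousOn (fun q => b (zc q) * hh Γ q) Γ :=
    (b.continuous.comp zc.continuous).continuousOn.mul (continuousOn_hh hl hΓ.embedded)
  have hint : IntegrableOn (fun q => b (zc q) * hh Γ q) Γ μ2 := by
    refine integrable_of_cont hΓ hcont (C := 1) fun q _ => ?_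
    have e1 : 0 ≤ b (zc q) := b.nonneg
    have e2 : b (zc q) ≤ 1 := b.le_one
    have e3 := hh_nonneg Γ q
    have e4 := hh_le_one Γ q
    rw [abs_of_nonneg (mul_nonneg e1 e3)]
    nlinarith
  have h := eq_zero_of_integral hl hΓ hcont hint
    (fun q _ => mul_nonneg b.nonneg (hh_nonneg Γ q)) hI p hp
  have h3 : b (zc p) = 1 := b.one_of_mem_closedBall (mem_closedBall_self b.rIn_pos.le)
  rw [h3, one_mul] at h
  exact h

theorem sT_deriv_nonneg (t : ℝ) : 0 ≤ deriv Real.smoothTransition t :=
  Real.smoothTransition.monotone.deriv_nonneg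

theorem no_right (hl : 0 < l) {Γ : Set E4} (hΓ : IsFiniteAreaMinimal (M l) Γ) (hf : NoFlux l Γ)
    {p : E4} (hp : p ∈ Γ) : zc p ≤ l := by
  by_contra hcon
  push Not at hcon
  set T := zc p + 2 with hT
  let χ : ℝ → ℝ := fun t => Real.smoothTransition (2 * t / l) * Real.smoothTransition (T - t)
  have hχ : ContDiff ℝ ∞ χ := by
    have h1 : ContDiff ℝ ∞ (fun t : ℝ => Real.smoothTransition (2 * t / l)) :=
      Real.smoothTransition.contDiff.comp ((contDiff_const.mul contDiff_id).div_const l)
    have h2 : ContDiff ℝ ∞ (fun t : ℝ => Real.smoothTransition (T - t)) :=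
      Real.smoothTransition.contDiff.comp (contDiff_const.sub contDiff_id)
    exact h1.mul h2
  have hneg : ∀ t, t ≤ 0 → χ t = 0 := by
    intro t ht
    have : Real.smoothTransition (2 * t / l) = 0 := by
      apply Real.smoothTransition.zero_of_nonpos
      apply div_nonpos_of_nonpos_of_nonneg _ hl.le
      linarith
    show Real.smoothTransition (2 * t / l) * _ = 0
    rw [this, zero_mul]
  have hbig : ∀ t, T ≤ t → χ t = 0 := by
    intro t ht
    have : Real.smoothTransition (T - t) = 0 :=
      Real.smoothTransition.zero_of_nonpos (by linarith)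
    show _ * Real.smoothTransition (T - t) = 0
    rw [this, mul_zero]
  have hsupp : tsupport χ ⊆ Icc 0 T := by
    refine closure_minimal (fun t ht => ?_) isClosed_Icc
    by_contra hc
    rw [mem_Icc, not_and_or, not_le, not_le] at hc
    rcases hc with h | h
    · exact ht (hneg t h.le)
    · exact ht (hbig t h.le)
  have hχc : HasCompactSupport χ := isCompact_Icc.of_isClosed_subset (isClosed_tsupport _) hsupp
  have htip := tip_lt hl
  have hχt : tsupport χ ⊆ Ioi (tip l) := fun t ht => by
    have := (hsupp ht).1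
    show tip l < t
    linarith
  have hχ0 : ∀ t, 0 ≤ χ t := fun t =>
    mul_nonneg (Real.smoothTransition.nonneg _) (Real.smoothTransition.nonneg _)
  have hmono : ∀ t, l ≤ t → deriv χ t ≤ 0 := by
    intro t ht
    have hev : χ =ᶠ[𝓝 t] fun s => Real.smoothTransition (T - s) := by
      filter_upwards [lt_mem_nhds (show l / 2 < t by linarith)] with s hs
      have : Real.smoothTransition (2 * s / l) = 1 := by
        apply Real.smoothTransition.one_of_one_le
        rw [le_div_iff₀ hl]; linarith
      show Real.smoothTransition (2 * s / l) * _ = _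
      rw [this, one_mul]
    rw [hev.deriv_eq]
    apply Antitone.deriv_nonpos
    intro a b hab
    exact Real.smoothTransition.monotone (by linarith)
  have hsign : ∀ q ∈ Γ, 0 ≤ (-1) * fluxD2 l χ Γ q := by
    intro q hq
    have hD := D_pos hl (tip_le hl (hΓ.embedded.subset hq))
    have hs : 0 < √(D l (zc q)) := Real.sqrt_pos.2 hD
    have hh0 := hh_nonneg Γ q
    unfold fluxD2
    rcases le_or_gt l (zc q) with h | h
    · have h1 := hmono _ h
      have h2 := hχ0 (zc q)
      have h3 : 0 ≤ G1 l (zc q) := by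
        rcases h.eq_or_lt with h' | h'
        · rw [← h', G1_mid (by linarith) le_rfl]
        · exact (G1_pos hl h').le
      have h4 : 0 ≤ 2 * χ (zc q) * G1 l (zc q) / √(D l (zc q)) := by positivity
      have h5 : 0 ≤ (-deriv χ (zc q)) * √(D l (zc q)) / 2 * hh Γ q := by
        have : 0 ≤ -deriv χ (zc q) := by linarith
        positivity
      have h6 : (-1 : ℝ) * (-2 * χ (zc q) * G1 l (zc q) / √(D l (zc q)) +
        deriv χ (zc q) * √(D l (zc q)) / 2 * hh Γ q) =
          2 * χ (zc q) * G1 l (zc q) / √(D l (zc q)) +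
          (-deriv χ (zc q)) * √(D l (zc q)) / 2 * hh Γ q := by ring
      rw [h6]; linarith
    · rcases lt_or_ge (-l) (zc q) with h' | h'
      · rw [hh_mid hl hΓ hf hq h' h, G1_mid h'.le h.le]; simp
      · have h1 : χ (zc q) = 0 := hneg _ (by linarith)
        have h2 : deriv χ (zc q) = 0 := by
          have hev : χ =ᶠ[𝓝 (zc q)] fun _ => 0 := by
            filter_upwards [gt_mem_nhds (show zc q < 0 by linarith)] with s hs
            exact hneg s (le_of_lt hs)
          rw [hev.deriv_eq]; simp
        rw [h1, h2]; simp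
  have h := fluxD2_eq_zero hl hΓ hχ hχc hχt (s := -1) (by norm_num) hsign p hp
  have hD := D_pos hl (tip_le hl (hΓ.embedded.subset hp))
  have hs : 0 < √(D l (zc p)) := Real.sqrt_pos.2 hD
  have h1 : χ (zc p) = 1 := by
    have e1 : Real.smoothTransition (2 * zc p / l) = 1 := by
      apply Real.smoothTransition.one_of_one_le
      rw [le_div_iff₀ hl]; linarith
    have e2 : Real.smoothTransition (T - zc p) = 1 := by
      apply Real.smoothTransition.one_of_one_le
      rw [hT]; linarith
    show Real.smoothTransition (2 * zc p / l) * Real.smoothTransition (T - zc p) = 1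
    rw [e1, e2, one_mul]
  have h2 := hmono _ hcon.le
  have h3 := G1_pos hl hcon
  unfold fluxD2 at h
  rw [h1] at h
  have h4 : 0 < 2 * 1 * G1 l (zc p) / √(D l (zc p)) := by positivity
  have h5 : 0 ≤ (-deriv χ (zc p)) * √(D l (zc p)) / 2 * hh Γ p := by
    have : 0 ≤ -deriv χ (zc p) := by linarith
    have := hh_nonneg Γ p
    positivity
  have h6 : -2 * 1 * G1 l (zc p) / √(D l (zc p)) +
      deriv χ (zc p) * √(D l (zc p)) / 2 * hh Γ p =
      -(2 * 1 * G1 l (zc p) / √(D l (zc p))) -
        (-deriv χ (zc p)) * √(D l (zc p)) / 2 * hh Γ p := by ring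
  rw [h6] at h
  linarith

theorem no_left_aux (hl : 0 < l) {Γ : Set E4} (hΓ : IsFiniteAreaMinimal (M l) Γ) (hf : NoFlux l Γ)
    {p : E4} (hp : p ∈ Γ) (hpt : tip l < zc p) : -l ≤ zc p := by
  by_contra hcon
  push Not at hcon
  have htip := tip_lt hl
  set a := (tip l + zc p) / 2 with ha
  have ha1 : tip l < a := by rw [ha]; linarith
  have ha2 : a < zc p := by rw [ha]; linarith
  have hd : 0 < zc p - a := by linarith
  let χ : ℝ → ℝ := fun t => Real.smoothTransition (-2 * t / l) *
    Real.smoothTransition ((t - a) / (zc p - a))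
  have hχ : ContDiff ℝ ∞ χ := by
    have h1 : ContDiff ℝ ∞ (fun t : ℝ => Real.smoothTransition (-2 * t / l)) :=
      Real.smoothTransition.contDiff.comp ((contDiff_const.mul contDiff_id).div_const l)
    have h2 : ContDiff ℝ ∞ (fun t : ℝ => Real.smoothTransition ((t - a) / (zc p - a))) :=
      Real.smoothTransition.contDiff.comp ((contDiff_id.sub contDiff_const).div_const _)
    exact h1.mul h2
  have hpos : ∀ t, 0 ≤ t → χ t = 0 := by
    intro t ht
    have : Real.smoothTransition (-2 * t / l) = 0 := by
      apply Real.smoothTransition.zero_of_nonpos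
      apply div_nonpos_of_nonpos_of_nonneg _ hl.le
      linarith
    show Real.smoothTransition (-2 * t / l) * _ = 0
    rw [this, zero_mul]
  have hsmall : ∀ t, t ≤ a → χ t = 0 := by
    intro t ht
    have : Real.smoothTransition ((t - a) / (zc p - a)) = 0 := by
      apply Real.smoothTransition.zero_of_nonpos
      exact div_nonpos_of_nonpos_of_nonneg (by linarith) hd.le
    show _ * Real.smoothTransition ((t - a) / (zc p - a)) = 0
    rw [this, mul_zero]
  have hsupp : tsupport χ ⊆ Icc a 0 := by
    refine closure_minimal (fun t ht => ?_) isClosed_Icc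
    by_contra hc
    rw [mem_Icc, not_and_or, not_le, not_le] at hc
    rcases hc with h | h
    · exact ht (hsmall t h.le)
    · exact ht (hpos t h.le)
  have hχc : HasCompactSupport χ := isCompact_Icc.of_isClosed_subset (isClosed_tsupport _) hsupp
  have hχt : tsupport χ ⊆ Ioi (tip l) := fun t ht => by
    have := (hsupp ht).1
    show tip l < t
    linarith
  have hχ0 : ∀ t, 0 ≤ χ t := fun t =>
    mul_nonneg (Real.smoothTransition.nonneg _) (Real.smoothTransition.nonneg _)
  have hmono : ∀ t, t ≤ -l → 0 ≤ deriv χ t := by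
    intro t ht
    have hev : χ =ᶠ[𝓝 t] fun s => Real.smoothTransition ((s - a) / (zc p - a)) := by
      filter_upwards [gt_mem_nhds (show t < -l / 2 by linarith)] with s hs
      have : Real.smoothTransition (-2 * s / l) = 1 := by
        apply Real.smoothTransition.one_of_one_le
        rw [le_div_iff₀ hl]; linarith
      show Real.smoothTransition (-2 * s / l) * _ = _
      rw [this, one_mul]
    rw [hev.deriv_eq]
    apply Monotone.deriv_nonneg
    intro x y hxy
    exact Real.smoothTransition.monotone (by gcongr)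
  have hsign : ∀ q ∈ Γ, 0 ≤ (1 : ℝ) * fluxD2 l χ Γ q := by
    intro q hq
    have hD := D_pos hl (tip_le hl (hΓ.embedded.subset hq))
    have hs : 0 < √(D l (zc q)) := Real.sqrt_pos.2 hD
    have hh0 := hh_nonneg Γ q
    unfold fluxD2
    rcases le_or_gt (zc q) (-l) with h | h
    · have h1 := hmono _ h
      have h2 := hχ0 (zc q)
      have h3 : 0 ≤ -G1 l (zc q) := by
        rcases h.eq_or_lt with h' | h'
        · rw [h', G1_mid le_rfl (by linarith)]; simp
        · have := G1_neg hl h'; linarith
      have h4 : 0 ≤ 2 * χ (zc q) * (-G1 l (zc q)) / √(D l (zc q)) := by positivity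
      have h5 : 0 ≤ (deriv χ (zc q)) * √(D l (zc q)) / 2 * hh Γ q := by positivity
      have h6 : (1 : ℝ) * (-2 * χ (zc q) * G1 l (zc q) / √(D l (zc q)) +
        deriv χ (zc q) * √(D l (zc q)) / 2 * hh Γ q) =
          2 * χ (zc q) * (-G1 l (zc q)) / √(D l (zc q)) +
          (deriv χ (zc q)) * √(D l (zc q)) / 2 * hh Γ q := by ring
      rw [h6]; linarith
    · rcases lt_or_ge (zc q) l with h' | h'
      · rw [hh_mid hl hΓ hf hq h h', G1_mid h.le h'.le]; simp
      · have h1 : χ (zc q) = 0 := hpos _ (by linarith)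
        have h2 : deriv χ (zc q) = 0 := by
          have hev : χ =ᶠ[𝓝 (zc q)] fun _ => 0 := by
            filter_upwards [lt_mem_nhds (show 0 < zc q by linarith)] with s hs
            exact hpos s (le_of_lt hs)
          rw [hev.deriv_eq]; simp
        rw [h1, h2]; simp
  have h := fluxD2_eq_zero hl hΓ hχ hχc hχt (s := 1) (by norm_num) hsign p hp
  have hD := D_pos hl (tip_le hl (hΓ.embedded.subset hp))
  have hs : 0 < √(D l (zc p)) := Real.sqrt_pos.2 hD
  have h1 : χ (zc p) = 1 := by
    have e1 : Real.smoothTransition (-2 * zc p / l) = 1 := by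
      apply Real.smoothTransition.one_of_one_le
      rw [le_div_iff₀ hl]; linarith
    have e2 : Real.smoothTransition ((zc p - a) / (zc p - a)) = 1 := by
      apply Real.smoothTransition.one_of_one_le
      rw [div_self hd.ne']
    show Real.smoothTransition (-2 * zc p / l) *
      Real.smoothTransition ((zc p - a) / (zc p - a)) = 1
    rw [e1, e2, one_mul]
  have h2 := hmono _ hcon.le
  have h3 := G1_neg hl hcon
  unfold fluxD2 at h
  rw [h1] at h
  have h4 : 0 < 2 * 1 * (-G1 l (zc p)) / √(D l (zc p)) := by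
    have : 0 < -G1 l (zc p) := by linarith
    positivity
  have h5 : 0 ≤ (deriv χ (zc p)) * √(D l (zc p)) / 2 * hh Γ p := by
    have := hh_nonneg Γ p
    positivity
  have h6 : -2 * 1 * G1 l (zc p) / √(D l (zc p)) +
      deriv χ (zc p) * √(D l (zc p)) / 2 * hh Γ p =
      (2 * 1 * (-G1 l (zc p)) / √(D l (zc p))) +
        (deriv χ (zc p)) * √(D l (zc p)) / 2 * hh Γ p := by ring
  rw [h6] at h
  linarith

theorem no_left (hl : 0 < l) {Γ : Set E4} (hΓ : IsFiniteAreaMinimal (M l) Γ) (hf : NoFlux l Γ)
    {p : E4} (hp : p ∈ Γ) : -l ≤ zc p := by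
  by_contra hcon
  push Not at hcon
  have htip := tip_lt hl
  have hV : {q : E4 | zc q < -l} ∈ 𝓝 p :=
    (isOpen_lt zc.continuous continuous_const).mem_nhds hcon
  have h1 := area_pos hl hΓ.embedded hp hV
  have h2 : Γ ∩ {q : E4 | zc q < -l} ⊆ {tip l • ez} := by
    rintro q ⟨hq1, hq2⟩
    have hq2 : zc q < -l := hq2
    have hqM := hΓ.embedded.subset hq1
    have h3 : zc q = tip l := by
      rcases (tip_le hl hqM).eq_or_lt with h | h
      · exact h.symm
      · have := no_left_aux hl hΓ hf hq1 h
        linarith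
    have h4 := mem_M.1 hqM
    rw [h3, G_tip hl] at h4
    have h5 : ‖q - tip l • ez‖ ^ 2 = 0 := by
      rw [← real_inner_self_eq_norm_sq]
      simp only [inner_sub_left, inner_sub_right, inner_smul_left, inner_smul_right,
        inner_ez_left, inner_ez_right, real_inner_self_eq_norm_sq, norm_ez, conj_trivial, h3]
      linarith
    have h6 : q - tip l • ez = 0 := by
      have : ‖q - tip l • ez‖ = 0 := by simpa using h5
      exact norm_eq_zero.1 this
    exact sub_eq_zero.1 h6
  have h3 : (μH[2] : Measure E4) {tip l • ez} = 0 := by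
    have := Measure.nullSingletonClass_hausdorff E4 (d := 2) (by norm_num)
    exact measure_singleton _
  have h4 := measure_mono_null h2 h3
  exact absurd h4 h1.ne'

/-- surfaces without flux are horizontal -/
theorem hh_zero (hl : 0 < l) {Γ : Set E4} (hΓ : IsFiniteAreaMinimal (M l) Γ) (hf : NoFlux l Γ)
    {p : E4} (hp : p ∈ Γ) : hh Γ p = 0 := by
  have hle : ∀ q ∈ Γ, |zc q| ≤ l := fun q hq =>
    abs_le.2 ⟨no_left hl hΓ hf hq, no_right hl hΓ hf hq⟩
  have hmid : ∀ q ∈ Γ, |zc q| < l → hh Γ q = 0 := fun q hq h =>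
    hh_mid hl hΓ hf hq (abs_lt.1 h).1 (abs_lt.1 h).2
  by_cases hfreq : ∃ᶠ q in 𝓝[Γ] p, |zc q| < l
  · by_contra hne
    have h1 : ∀ᶠ q in 𝓝[Γ] p, hh Γ q ≠ 0 :=
      ((continuousOn_hh hl hΓ.embedded) p hp).eventually_ne hne
    have h2 : ∀ᶠ q in 𝓝[Γ] p, q ∈ Γ := self_mem_nhdsWithin
    obtain ⟨q, hq1, hq2, hq3⟩ := (hfreq.and_eventually (h1.and h2)).exists
    exact hq2 (hmid q hq3 hq1)
  · rw [not_frequently] at hfreq
    -- the height is constant near `p`
    have hev : ∀ᶠ q in 𝓝[Γ] p, zc q = zc p := by
      have h2 : ∀ᶠ q in 𝓝[Γ] p, q ∈ Γ := self_mem_nhdsWithin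
      have h3 : ∀ᶠ q in 𝓝[Γ] p, |zc q - zc p| < l := by
        have : Tendsto (fun q => |zc q - zc p|) (𝓝 p) (𝓝 0) := by
          have hc : Continuous fun q : E4 => |zc q - zc p| := by fun_prop
          have := hc.tendsto p
          simpa using this
        exact (this.eventually (gt_mem_nhds hl)).filter_mono nhdsWithin_le_nhds
      have hp1 : |zc p| = l := le_antisymm (hle p hp)
        (not_lt.1 (hfreq.self_of_nhdsWithin hp))
      filter_upwards [hfreq, h2, h3] with q h4 h5 h6
      have h7 : |zc q| = l := le_antisymm (hle q h5) (not_lt.1 h4)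
      rcases abs_eq_abs.1 (h7.trans hp1.symm) with h | h
      · exact h
      · exfalso
        rw [h, ← neg_add', abs_neg, ← two_mul, abs_mul, hp1] at h6
        norm_num at h6
        linarith
    have hd : HasFDerivWithinAt (fun q : E4 => zc q) (0 : E4 →L[ℝ] ℝ) Γ p := by
      have hconst : HasFDerivWithinAt (fun _ : E4 => zc p) (0 : E4 →L[ℝ] ℝ) Γ p :=
        hasFDerivWithinAt_const _ _ _
      exact hconst.congr_of_eventuallyEq hev rfl
    have hd2 : HasFDerivWithinAt (fun q : E4 => zc q) zc Γ p :=
      zc.hasFDerivAt.hasFDerivWithinAt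
    have htan : tangentSpace Γ p ≤ LinearMap.ker (zc : E4 →ₗ[ℝ] ℝ) := by
      refine Submodule.span_le.2 fun v hv => ?_
      have := hd2.unique_on hd hv
      simpa using this
    have hperp : ez ∈ (tangentSpace Γ p)ᗮ := by
      rw [Submodule.mem_orthogonal]
      intro u hu
      rw [inner_ez_right]
      exact htan hu
    unfold hh
    rw [(Submodule.starProjection_apply_eq_zero_iff _).2 hperp]
    simp

end Pool.Agent.W556.Cap
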