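import Mathlib
import Pool.Agent.W556.CapFlat

/-!
# Surfaces without flux have index zero
-/

set_option autoImplicit false

noncomputable section

open Set Filter Topology MeasureTheory Metric
open scoped ContDiff NNReal

namespace Pool.Agent.W556.Cap

variable {l : ℝ}

theorem perp_of_hh {Γ : Set E4} {p : E4} (h : hh Γ p = 0) {v : E4} (hv : v ∈ tangentSpace Γ p) :
    zc v = 0 := by
  have h1 : (tangentSpace Γ p).starProjection ez = 0 := by
    have : ‖(tangentSpace Γ p).starProjection ez‖ = 0 := by simpa [hh] using h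
    exact norm_eq_zero.1 this
  rw [Submodule.starProjection_apply_eq_zero_iff] at h1
  have := (Submodule.mem_orthogonal _ _).1 h1 v hv
  rwa [inner_ez_right] at this

theorem density_nonneg (hl : 0 < l) {Γ : Set E4} (hΓ : IsFiniteAreaMinimal (M l) Γ)
    (hf : NoFlux l Γ) {V : E4 → E4} (hV : IsNormalVariation (M l) Γ V) {p : E4} (hp : p ∈ Γ) :
    0 ≤ secondVariationDensity (M l) (Nf l) Γ V p := by
  have hS := hΓ.embedded
  have hpM := hS.subset hp
  have hz1 := no_left hl hΓ hf hp
  have hz2 := no_right hl hΓ hf hp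
  have hz : ∀ q ∈ Γ, -l ≤ zc q ∧ zc q ≤ l := fun q hq => ⟨no_left hl hΓ hf hq, no_right hl hΓ hf hq⟩
  have hgrz : ∀ q ∈ Γ, inner ℝ (gr l q) ez = 0 := by
    intro q hq
    rw [gr, G1_mid (hz q hq).1 (hz q hq).2]
    simp only [inner_add_left, inner_smul_left, inner_ez_right, real_inner_self_eq_norm_sq,
      conj_trivial, norm_ez]
    ring
  have hezM : ∀ q ∈ Γ, ez ∈ tangentSpace (M l) q := fun q hq => by
    rw [mem_tangentSpace_M hl (hS.subset hq)]; exact hgrz q hq
  -- normal vectors are vertical
  have hvert : ∀ q ∈ Γ, ∀ v ∈ normalLine (M l) Γ q, v = zc v • ez := by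
    intro q hq v hv
    obtain ⟨O, n, hqO, h⟩ := exists_frame hl hS hq
    have hezN : ez ∈ normalLine (M l) Γ q := by
      refine ⟨hezM q hq, ?_⟩
      show ez ∈ (tangentSpace Γ q)ᗮ
      rw [Submodule.mem_orthogonal]
      intro u hu
      rw [inner_ez_right]
      exact perp_of_hh (hh_zero hl hΓ hf hq) hu
    rw [h.mem_normalLine hl hS.subset ⟨hq, hqO⟩] at hezN hv
    have h2 := h.unit q ⟨hq, hqO⟩
    set a := inner ℝ (n q) ez with ha
    set b := inner ℝ (n q) v with hb
    have ha2 : a ^ 2 = 1 := by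
      have h3 : ‖ez‖ ^ 2 = 1 := by rw [norm_ez]; norm_num
      rw [hezN, norm_smul, h2] at h3
      simpa using h3
    have h4 : zc v = b * a := by
      rw [← inner_ez_right v, hv, inner_smul_left, ← ha]
      simp
    rw [h4]
    conv_lhs => rw [hv]
    conv_rhs => rw [hezN]
    rw [smul_smul]
    congr 1
    linear_combination (-b) * ha2
  -- the derivative of `V` along `Γ` is vertical
  have hderiv : ∀ v ∈ tangentSpace Γ p, fderiv ℝ V p v = zc (fderiv ℝ V p v) • ez := by
    have hdV : HasFDerivAt V (fderiv ℝ V p) p :=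
      ((hV.smooth.differentiable (by simp)).differentiableAt).hasFDerivAt
    have h1 : HasFDerivWithinAt (fun x => V x - zc (V x) • ez)
        (fderiv ℝ V p - (zc.comp (fderiv ℝ V p)).smulRight ez) Γ p := by
      have h2 : HasFDerivAt (fun x => zc (V x)) (zc.comp (fderiv ℝ V p)) p :=
        zc.hasFDerivAt.comp p hdV
      exact (hdV.sub (h2.smul_const ez)).hasFDerivWithinAt
    have h2 : HasFDerivWithinAt (fun x => V x - zc (V x) • ez) (0 : E4 →L[ℝ] E4) Γ p := by
      have hconst : HasFDerivWithinAt (fun _ : E4 => (0 : E4)) (0 : E4 →L[ℝ] E4) Γ p :=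
        hasFDerivWithinAt_const _ _ _
      have h0 : ∀ x ∈ Γ, V x - zc (V x) • ez = 0 := fun x hx => by
        rw [sub_eq_zero]; exact hvert x hx _ (hV.normal x hx)
      exact hconst.congr h0 (h0 p hp)
    have h3 : tangentSpace Γ p ≤ LinearMap.ker
        ((fderiv ℝ V p - (zc.comp (fderiv ℝ V p)).smulRight ez : E4 →L[ℝ] E4) : E4 →ₗ[ℝ] E4) := by
      refine Submodule.span_le.2 fun v hv => ?_
      have := h1.unique_on h2 hv
      simpa using this
    intro v hv
    have h4 := h3 hv
    rw [LinearMap.mem_ker] at h4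
    have h5 : fderiv ℝ V p v - zc (fderiv ℝ V p v) • ez = 0 := h4
    exact sub_eq_zero.1 h5
  have hT : ∀ i : Fin 4, (tangentSpace Γ p).starProjection
      (fderiv ℝ V p ((tangentSpace Γ p).starProjection (bas i))) = 0 := by
    intro i
    rw [hderiv _ ((tangentSpace Γ p).starProjection_apply_mem _), map_smul]
    have h1 : (tangentSpace Γ p).starProjection ez = 0 := by
      have : ‖(tangentSpace Γ p).starProjection ez‖ = 0 := by
        have := hh_zero hl hΓ hf hp
        simpa [hh] using this
      exact norm_eq_zero.1 this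
    rw [h1, smul_zero]
  have hR : ricci (M l) (Nf l) p (V p) = 0 := by
    have hsf : ∀ v : E4, secondFund (Nf l) p v (V p) = 0 := by
      intro v
      have hVp := hvert p hp _ (hV.normal p hp)
      have hVM : V p ∈ tangentSpace (M l) p := (hV.normal p hp).1
      rw [secondFund_M hl hpM v hVM, G2_mid hz1 hz2]
      have : inner ℝ v (V p) = zc v * zc (V p) := by
        rw [hVp, inner_smul_right, inner_ez_right]
        simp
        ring
      rw [this]; ring
    unfold ricci
    apply Finset.sum_eq_zero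
    intro i _
    rw [hsf, hsf]; ring
  unfold secondVariationDensity
  rw [hR]
  simp_rw [hT]
  simp only [norm_zero]
  have : 0 ≤ ∑ i : Fin 4, ‖(normalLine (M l) Γ p).starProjection
      (fderiv ℝ V p ((tangentSpace Γ p).starProjection (bas i)))‖ ^ 2 :=
    Finset.sum_nonneg fun i _ => by positivity
  simp
  exact this

theorem index_zero (hl : 0 < l) {Γ : Set E4} (hΓ : IsFiniteAreaMinimal (M l) Γ)
    (hf : NoFlux l Γ) : ¬ MorseIndexAtLeast (M l) (Nf l) Γ 1 := by
  rintro ⟨V, hV, h⟩
  have h1 := h (fun _ => 1) (by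
    intro h0
    have := congrFun h0 0
    simp at this)
  have h2 : (fun x => ∑ i : Fin 1, (1 : ℝ) • V i x) = V 0 := by
    funext x; simp
  rw [h2] at h1
  have h3 : 0 ≤ secondVariation (M l) (Nf l) Γ (V 0) := by
    unfold secondVariation
    exact setIntegral_nonneg hΓ.embedded.isClosed.measurableSet
      fun q hq => density_nonneg hl hΓ hf (hV 0) hq
  linarith

end Pool.Agent.W556.Cap
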