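import Mathlib
import Pool.Agent.W556.CapZero

/-!
# Extension of unit normals and continuity of the second variation density
-/

set_option autoImplicit false

noncomputable section

open Set Filter Topology MeasureTheory Metric
open scoped ContDiff NNReal Manifold

namespace Pool.Agent.W556.Cap

variable {l : ℝ}

/-- a continuous unit normal extends to a smooth map of the ambient space -/
theorem exists_ext (hl : 0 < l) {Γ : Set E4} (hS : IsEmbeddedSurface (M l) Γ) {ν : E4 → E4}
    (hν : ContinuousOn ν Γ) (hν1 : ∀ p ∈ Γ, ‖ν p‖ = 1 ∧ ν p ∈ normalLine (M l) Γ p) :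
    ∃ W : E4 → E4, ContDiff ℝ ∞ W ∧ ∀ q ∈ Γ, W q = ν q := by
  have hconv : ∀ q : E4, Convex ℝ {w : E4 | q ∈ Γ → w = ν q} := by
    intro q x hx y hy a b ha hb hab hq
    rw [hx hq, hy hq, ← add_smul, hab, one_smul]
  have hloc : ∀ x : E4, ∃ U ∈ 𝓝 x, ∃ g : E4 → E4, ContMDiffOn 𝓘(ℝ, E4) 𝓘(ℝ, E4) ∞ g U ∧
      ∀ y ∈ U, g y ∈ {w : E4 | y ∈ Γ → w = ν y} := by
    intro x
    by_cases hx : x ∈ Γ
    · obtain ⟨O, n, hxO, h⟩ := exists_frame hl hS hx
      set s := inner ℝ (n x) (ν x) with hs
      have hpm : ∀ q ∈ Γ ∩ O, inner ℝ (n q) (ν q) ^ 2 = 1 ∧ ν q = inner ℝ (n q) (ν q) • n q := by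
        intro q hq
        have h1 := (h.mem_normalLine hl hS.subset hq).1 (hν1 q hq.1).2
        refine ⟨?_, h1⟩
        have h2 := (hν1 q hq.1).1
        rw [h1, norm_smul, h.unit q hq, mul_one, Real.norm_eq_abs] at h2
        rw [← sq_abs, h2]; norm_num
      have hcont : ContinuousWithinAt (fun q => inner ℝ (n q) (ν q)) Γ x :=
        (((h.smooth.continuousOn).continuousAt
          (h.isOpen.mem_nhds hxO)).continuousWithinAt).inner (hν x hx)
      have hev : ∀ᶠ q in 𝓝[Γ] x, |inner ℝ (n q) (ν q) - s| < 1 := by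
        have h1 : Tendsto (fun q => |inner ℝ (n q) (ν q) - s|) (𝓝[Γ] x) (𝓝 0) := by
          have h2 : ContinuousWithinAt (fun q => |inner ℝ (n q) (ν q) - s|) Γ x :=
            (hcont.sub continuousWithinAt_const).abs
          have h3 : Tendsto (fun q => |inner ℝ (n q) (ν q) - s|) (𝓝[Γ] x)
            (𝓝 (|inner ℝ (n x) (ν x) - s|)) := h2
          rwa [← hs, sub_self, abs_zero] at h3
        exact h1.eventually (gt_mem_nhds one_pos)
      rw [eventually_nhdsWithin_iff] at hev
      refine ⟨O ∩ {q | q ∈ Γ → |inner ℝ (n q) (ν q) - s| < 1},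
        inter_mem (h.isOpen.mem_nhds hxO) hev, fun q => s • n q, ?_, ?_⟩
      · rw [contMDiffOn_iff_contDiffOn]
        have h1 : ContDiffOn ℝ ∞ (fun q => s • n q) O := h.smooth.const_smul s
        exact h1.mono inter_subset_left
      · rintro q ⟨hqO, hq2⟩ hqΓ
        obtain ⟨h1, h2⟩ := hpm q ⟨hqΓ, hqO⟩
        obtain ⟨h3, -⟩ := hpm x ⟨hx, hxO⟩
        rw [← hs] at h3
        have h4 := hq2 hqΓ
        have h5 : inner ℝ (n q) (ν q) = s := by
          set t := inner ℝ (n q) (ν q) with ht
          have h6 : (t - s) * (t + s) = 0 := by linear_combination h1 - h3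
          rcases mul_eq_zero.1 h6 with h | h
          · linarith
          · exfalso
            have h7 : t = -s := by linarith
            rw [h7] at h4
            have h8 : |(-s - s)| = 2 * |s| := by
              rw [show -s - s = -(2 * s) by ring, abs_neg, abs_mul]; norm_num
            rw [h8] at h4
            have h9 : |s| = 1 := by
              have : |s| ^ 2 = 1 := by rw [sq_abs]; exact h3
              nlinarith [abs_nonneg s]
            rw [h9] at h4
            norm_num at h4
        show s • n q = ν q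
        rw [h2, h5]
    · refine ⟨Γᶜ, hS.isClosed.isOpen_compl.mem_nhds hx, fun _ => 0, contMDiffOn_const, ?_⟩
      intro y hy hyΓ
      exact absurd hyΓ hy
  obtain ⟨g, hg⟩ := exists_contMDiffMap_forall_mem_convex_of_local 𝓘(ℝ, E4) (n := ⊤)
    (t := fun q : E4 => {w : E4 | q ∈ Γ → w = ν q}) hconv hloc
  exact ⟨g, g.contMDiff.contDiff, fun q hq => hg q hq⟩

/-- continuity of the projection to the tangent space of `M` -/
theorem continuousOn_projM (hl : 0 < l) {Γ : Set E4} (hΓ : Γ ⊆ M l) (v : E4) :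
    ContinuousOn (fun q => (tangentSpace (M l) q).starProjection v) Γ := by
  have hN : ContinuousOn (Nf l) Γ := fun q hq =>
    (contDiffAt_Nf (gr_ne_zero hl (hΓ hq))).continuousAt.continuousWithinAt
  have e1 : ContinuousOn (fun q => inner ℝ (Nf l q) v) Γ := hN.inner continuousOn_const
  have e2 : ContinuousOn (fun q => inner ℝ (Nf l q) v • Nf l q) Γ := e1.smul hN
  have e3 : ContinuousOn (fun q => v - inner ℝ (Nf l q) v • Nf l q) Γ := continuousOn_const.sub e2
  exact e3.congr fun q hq => starProjection_M hl (hΓ hq) v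

theorem continuousOn_secondFund (hl : 0 < l) {Γ : Set E4} (hΓ : Γ ⊆ M l) {v w : E4 → E4}
    (hv : ContinuousOn v Γ) (hw : ContinuousOn w Γ) :
    ContinuousOn (fun q => secondFund (Nf l) q (v q) (w q)) Γ := by
  have hN : ContinuousOn (fderiv ℝ (Nf l)) Γ := fun q hq => by
    have h1 : ContDiffAt ℝ ∞ (Nf l) q := contDiffAt_Nf (gr_ne_zero hl (hΓ hq))
    exact (h1.fderiv_right (m := 0) (by simp)).continuousAt.continuousWithinAt
  have e1 : ContinuousOn (fun q => fderiv ℝ (Nf l) q (v q)) Γ := hN.clm_apply hv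
  exact e1.inner hw

theorem continuousOn_density (hl : 0 < l) {Γ : Set E4} (hS : IsEmbeddedSurface (M l) Γ)
    {V : E4 → E4} (hV : ContDiff ℝ ∞ V) :
    ContinuousOn (secondVariationDensity (M l) (Nf l) Γ V) Γ := by
  have hDV : Continuous (fderiv ℝ V) := hV.continuous_fderiv (by simp)
  have hDVP : ∀ i : Fin 4, ContinuousOn
      (fun q => fderiv ℝ V q ((tangentSpace Γ q).starProjection (bas i))) Γ := fun i =>
    hDV.continuousOn.clm_apply (continuousOn_proj hl hS _)
  have h1 : ContinuousOn (fun q => ∑ i : Fin 4, ‖(normalLine (M l) Γ q).starProjection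
      (fderiv ℝ V q ((tangentSpace Γ q).starProjection (bas i)))‖ ^ 2) Γ :=
    continuousOn_finsetSum _ fun i _ => (continuousOn_proj_normal hl hS (hDVP i)).norm.pow 2
  have h2 : ContinuousOn (fun q => ∑ i : Fin 4, ‖(tangentSpace Γ q).starProjection
      (fderiv ℝ V q ((tangentSpace Γ q).starProjection (bas i)))‖ ^ 2) Γ :=
    continuousOn_finsetSum _ fun i _ => (continuousOn_proj' hl hS (hDVP i)).norm.pow 2
  have hVc : ContinuousOn V Γ := hV.continuous.continuousOn
  have h3 : ContinuousOn (fun q => ricci (M l) (Nf l) q (V q)) Γ := by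
    unfold ricci
    refine continuousOn_finsetSum _ fun i _ => ?_
    have hP := continuousOn_projM hl hS.subset (bas i)
    exact ((continuousOn_secondFund hl hS.subset hP hP).mul
      (continuousOn_secondFund hl hS.subset hVc hVc)).sub
      ((continuousOn_secondFund hl hS.subset hP hVc).pow 2)
  exact (h1.sub h2).sub h3

theorem density_eq_zero {Γ : Set E4} {V : E4 → E4} {q : E4} (h : V =ᶠ[𝓝 q] 0) :
    secondVariationDensity (M l) (Nf l) Γ V q = 0 := by
  have h1 : fderiv ℝ V q = 0 := by
    rw [h.fderiv_eq]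
    simp
  have h2 : V q = 0 := h.self_of_nhds
  unfold secondVariationDensity ricci secondFund
  rw [h1, h2]
  simp

theorem integrable_density (hl : 0 < l) {Γ : Set E4} (hΓ : IsFiniteAreaMinimal (M l) Γ)
    {V : E4 → E4} (hV : ContDiff ℝ ∞ V) (hVc : HasCompactSupport V) :
    IntegrableOn (secondVariationDensity (M l) (Nf l) Γ V) Γ μ2 := by
  have hc := continuousOn_density hl hΓ.embedded hV
  have hK : IsCompact (Γ ∩ tsupport V) := hVc.isCompact.inter_left hΓ.embedded.isClosed
  obtain ⟨C, hC⟩ := hK.exists_bound_of_continuousOn (hc.mono inter_subset_left)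
  refine integrable_of_cont hΓ hc (C := |C|) fun q hq => ?_
  by_cases h : q ∈ tsupport V
  · exact (hC q ⟨hq, h⟩).trans (le_abs_self C)
  · rw [density_eq_zero (notMem_tsupport_iff_eventuallyEq.1 h), abs_zero]
    exact abs_nonneg C

end Pool.Agent.W556.Cap
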