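import Mathlib
import Pool.Agent.W556.CapExt

/-!
# Two-sided surfaces with positive flux have index at least two
-/

set_option autoImplicit false

noncomputable section

open Set Filter Topology MeasureTheory Metric
open scoped ContDiff NNReal

namespace Pool.Agent.W556.Cap

variable {l : ℝ}

/-- the Ricci curvature in the cylinder -/
theorem ricci_mid (hl : 0 < l) {q : E4} (hq : q ∈ M l) (h1 : -l ≤ zc q) (h2 : zc q ≤ l) {v : E4}
    (hv : v ∈ tangentSpace (M l) q) : ricci (M l) (Nf l) q v = ‖v‖ ^ 2 - zc v ^ 2 := by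
  have hnorm : ‖gr l q‖ = 2 := by
    have h3 := norm_gr_sq_M hq
    rw [D, G_mid h1 h2, G1_mid h1 h2] at h3
    have h4 : ‖gr l q‖ ^ 2 = 2 ^ 2 := by rw [h3]; norm_num
    exact (pow_left_inj₀ (norm_nonneg _) (by norm_num) (by norm_num)).1 h4
  have hsf : ∀ u w : E4, w ∈ tangentSpace (M l) q →
      secondFund (Nf l) q u w = inner ℝ u w - zc u * zc w := by
    intro u w hw
    rw [secondFund_M hl hq u hw, hnorm, G2_mid h1 h2]
    ring
  have hez : ez ∈ tangentSpace (M l) q := by
    rw [mem_tangentSpace_M hl hq, gr, G1_mid h1 h2]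
    simp only [inner_add_left, inner_smul_left, inner_ez_right, conj_trivial,
      real_inner_self_eq_norm_sq, norm_ez]
    ring
  have hPez : (tangentSpace (M l) q).starProjection ez = ez :=
    Submodule.starProjection_eq_self_iff.2 hez
  have hPv : (tangentSpace (M l) q).starProjection v = v :=
    Submodule.starProjection_eq_self_iff.2 hv
  have hmem : ∀ i : Fin 4, (tangentSpace (M l) q).starProjection (bas i) ∈ tangentSpace (M l) q :=
    fun i => Submodule.starProjection_apply_mem _ _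
  have hsum1 : ∑ i : Fin 4, ‖(tangentSpace (M l) q).starProjection (bas i)‖ ^ 2 = 3 := by
    have h4 : ∀ i : Fin 4, ‖(tangentSpace (M l) q).starProjection (bas i)‖ ^ 2 =
        1 - inner ℝ (Nf l q) (bas i) ^ 2 := by
      intro i
      rw [starProjection_M hl hq, ← real_inner_self_eq_norm_sq]
      simp only [inner_sub_left, inner_sub_right, inner_smul_left, inner_smul_right,
        real_inner_self_eq_norm_sq, norm_Nf hl hq, norm_bas, real_inner_comm (Nf l q) (bas i),
        conj_trivial]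
      ring
    simp_rw [h4]
    rw [Finset.sum_sub_distrib, sum_inner_bas, norm_Nf hl hq]
    simp
    norm_num
  have hsum2 : ∑ i : Fin 4, zc ((tangentSpace (M l) q).starProjection (bas i)) ^ 2 = 1 := by
    rw [sum_zc, hPez, norm_ez]; norm_num
  have hB1 : ∀ i : Fin 4, secondFund (Nf l) q ((tangentSpace (M l) q).starProjection (bas i))
      ((tangentSpace (M l) q).starProjection (bas i)) =
      ‖(tangentSpace (M l) q).starProjection (bas i)‖ ^ 2 -
        zc ((tangentSpace (M l) q).starProjection (bas i)) ^ 2 := by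
    intro i
    rw [hsf _ _ (hmem i), real_inner_self_eq_norm_sq]; ring
  have hB2 : ∀ i : Fin 4, secondFund (Nf l) q ((tangentSpace (M l) q).starProjection (bas i)) v =
      inner ℝ (v - zc v • ez) (bas i) := by
    intro i
    rw [hsf _ _ hv]
    have e1 : inner ℝ ((tangentSpace (M l) q).starProjection (bas i)) v = inner ℝ v (bas i) := by
      rw [real_inner_comm]
      conv_rhs => rw [← hPv]
      exact ((Submodule.starProjection_isSymmetric (tangentSpace (M l) q)) v (bas i)).symm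
    have e2 : zc ((tangentSpace (M l) q).starProjection (bas i)) = inner ℝ ez (bas i) := by
      rw [← inner_ez_left]
      conv_rhs => rw [← hPez]
      exact ((Submodule.starProjection_isSymmetric (tangentSpace (M l) q)) ez (bas i)).symm
    rw [e1, e2, inner_sub_left, inner_smul_left]
    simp
    ring
  have hvn : ‖v - zc v • ez‖ ^ 2 = ‖v‖ ^ 2 - zc v ^ 2 := by
    rw [← real_inner_self_eq_norm_sq]
    simp only [inner_sub_left, inner_sub_right, inner_smul_left, inner_smul_right, inner_ez_left,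
      inner_ez_right, real_inner_self_eq_norm_sq, norm_ez, conj_trivial]
    ring
  unfold ricci
  simp_rw [hB1, hB2]
  rw [Finset.sum_sub_distrib, sum_inner_bas, ← Finset.sum_mul, Finset.sum_sub_distrib, hsum1, hsum2,
    hsf v v hv, real_inner_self_eq_norm_sq, hvn]
  ring

/-- the density of the second variation of a field `ψ(z) ν` -/
theorem density_le (hl : 0 < l) {Γ : Set E4} (hS : IsEmbeddedSurface (M l) Γ)
    {W : E4 → E4} (hW : ContDiff ℝ ∞ W)
    (hW1 : ∀ p ∈ Γ, -l < zc p → zc p < l → ‖W p‖ = 1)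
    (hW2 : ∀ p ∈ Γ, W p ∈ normalLine (M l) Γ p) {ψ : ℝ → ℝ} (hψ : ContDiff ℝ ∞ ψ)
    (hψt : tsupport ψ ⊆ Ioo (-l) l) {q : E4} (hq : q ∈ Γ) :
    secondVariationDensity (M l) (Nf l) Γ (fun x => ψ (zc x) • W x) q ≤
      (deriv ψ (zc q) ^ 2 - ψ (zc q) ^ 2) * hh Γ q := by
  have hqM := hS.subset hq
  by_cases hz : zc q ∈ tsupport ψ
  swap
  · have hev0 : ψ =ᶠ[𝓝 (zc q)] 0 := notMem_tsupport_iff_eventuallyEq.1 hz
    have hev : (fun x => ψ (zc x) • W x) =ᶠ[𝓝 q] 0 := by
      filter_upwards [(zc.continuous.tendsto q).eventually hev0] with x hx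
      rw [hx]; simp
    have h1 : ψ (zc q) = 0 := hev0.self_of_nhds
    have h2 : deriv ψ (zc q) = 0 := by
      have : ψ =ᶠ[𝓝 (zc q)] fun _ => 0 := hev0
      rw [this.deriv_eq]; simp
    rw [density_eq_zero hev, h1, h2]
    simp
  obtain ⟨hz1, hz2⟩ := hψt hz
  obtain ⟨O, n, hqO, h⟩ := exists_frame hl hS hq
  have hn1 := h.unit q ⟨hq, hqO⟩
  have hWq := (h.mem_normalLine hl hS.subset ⟨hq, hqO⟩).1 (hW2 q hq)
  set s := inner ℝ (n q) (W q) with hs
  have hs2 : s ^ 2 = 1 := by
    have := hW1 q hq hz1 hz2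
    rw [hWq, norm_smul, hn1, mul_one, Real.norm_eq_abs] at this
    rw [← sq_abs, this]; norm_num
  have hs0 : s ≠ 0 := by
    intro h0; rw [h0] at hs2; norm_num at hs2
  -- derivatives
  have hdψ : HasDerivAt ψ (deriv ψ (zc q)) (zc q) :=
    ((hψ.differentiable (by simp)).differentiableAt).hasDerivAt
  have hdW : HasFDerivAt W (fderiv ℝ W q) q :=
    ((hW.differentiable (by simp)).differentiableAt).hasFDerivAt
  have hdV : ∀ v, fderiv ℝ (fun x => ψ (zc x) • W x) q v =
      ψ (zc q) • fderiv ℝ W q v + (deriv ψ (zc q) * zc v) • W q := by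
    intro v
    have h1 := (hdψ.comp_hasFDerivAt q zc.hasFDerivAt).smul hdW
    have h2 : HasFDerivAt (fun x => ψ (zc x) • W x) _ q := h1
    rw [h2.fderiv]
    simp
  -- `W` has unit length on `Γ` near `q`
  have horth : ∀ v ∈ tangentSpace Γ q, inner ℝ (W q) (fderiv ℝ W q v) = 0 := by
    have h1 : HasFDerivWithinAt (fun x => ‖W x‖ ^ 2)
        (2 • (innerSL ℝ (W q)).comp (fderiv ℝ W q)) Γ q :=
      (hdW.norm_sq).hasFDerivWithinAt
    have h2 : HasFDerivWithinAt (fun x => ‖W x‖ ^ 2) (0 : E4 →L[ℝ] ℝ) Γ q := by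
      have hconst : HasFDerivWithinAt (fun _ : E4 => (1 : ℝ)) (0 : E4 →L[ℝ] ℝ) Γ q :=
        hasFDerivWithinAt_const _ _ _
      refine hconst.congr_of_eventuallyEq ?_ (by rw [hW1 q hq hz1 hz2]; norm_num)
      have e1 : ∀ᶠ x in 𝓝[Γ] q, -l < zc x ∧ zc x < l :=
        ((isOpen_lt continuous_const zc.continuous).inter
          (isOpen_lt zc.continuous continuous_const)).mem_nhds ⟨hz1, hz2⟩ |> fun h =>
            mem_nhdsWithin_of_mem_nhds h
      filter_upwards [e1, self_mem_nhdsWithin] with x hx hxΓ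
      rw [hW1 x hxΓ hx.1 hx.2]; norm_num
    have h3 : tangentSpace Γ q ≤ LinearMap.ker
        ((2 • (innerSL ℝ (W q)).comp (fderiv ℝ W q) : E4 →L[ℝ] ℝ) : E4 →ₗ[ℝ] ℝ) := by
      refine Submodule.span_le.2 fun v hv => ?_
      have := h1.unique_on h2 hv
      simpa using this
    intro v hv
    have h4 := h3 hv
    rw [LinearMap.mem_ker] at h4
    have h5 : (2 • (innerSL ℝ (W q)).comp (fderiv ℝ W q) : E4 →L[ℝ] ℝ) v = 0 := h4
    simpa using h5
  have hA : ∀ i : Fin 4, ‖(normalLine (M l) Γ q).starProjection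
      (fderiv ℝ (fun x => ψ (zc x) • W x) q ((tangentSpace Γ q).starProjection (bas i)))‖ ^ 2 =
      deriv ψ (zc q) ^ 2 * zc ((tangentSpace Γ q).starProjection (bas i)) ^ 2 := by
    intro i
    set v := (tangentSpace Γ q).starProjection (bas i) with hv
    have hvm : v ∈ tangentSpace Γ q := Submodule.starProjection_apply_mem _ _
    have h1 : inner ℝ (n q) (fderiv ℝ W q v) = 0 := by
      have h2 := horth v hvm
      rw [hWq, inner_smul_left] at h2
      simpa [hs0] using h2
    rw [h.proj_normal hl hS.subset ⟨hq, hqO⟩, norm_smul, hn1, mul_one, Real.norm_eq_abs, sq_abs, hdV,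
      inner_add_right, inner_smul_right, inner_smul_right, h1, ← hs]
    linear_combination (deriv ψ (zc q) ^ 2 * zc v ^ 2) * hs2
  have hB : 0 ≤ ∑ i : Fin 4, ‖(tangentSpace Γ q).starProjection
      (fderiv ℝ (fun x => ψ (zc x) • W x) q ((tangentSpace Γ q).starProjection (bas i)))‖ ^ 2 :=
    Finset.sum_nonneg fun i _ => by positivity
  -- the curvature term
  have hWM : ψ (zc q) • W q ∈ tangentSpace (M l) q := Submodule.smul_mem _ _ (hW2 q hq).1
  have hC : ricci (M l) (Nf l) q (ψ (zc q) • W q) = ψ (zc q) ^ 2 * hh Γ q := by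
    rw [ricci_mid hl hqM hz1.le hz2.le hWM]
    have hNez : inner ℝ (Nf l q) ez = 0 := by
      rw [Nf, inner_smul_left, gr, G1_mid hz1.le hz2.le]
      simp only [inner_add_left, inner_smul_left, inner_ez_right, conj_trivial,
        real_inner_self_eq_norm_sq, norm_ez]
      ring
    have hhq : hh Γ q = 1 - inner ℝ (n q) ez ^ 2 := by
      rw [hh, h.proj hl hS.subset ⟨hq, hqO⟩, hNez, zero_smul, sub_zero,
        ← real_inner_self_eq_norm_sq]
      simp only [inner_sub_left, inner_sub_right, inner_smul_left, inner_smul_right,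
        real_inner_self_eq_norm_sq, norm_ez, hn1, inner_ez_left, inner_ez_right, conj_trivial]
      ring
    have hzW : zc (W q) = s * inner ℝ (n q) ez := by
      rw [← inner_ez_right (W q), hWq, inner_smul_left]
      simp
    rw [hhq, norm_smul, map_smul, smul_eq_mul, hzW, hW1 q hq hz1 hz2, Real.norm_eq_abs, mul_one,
      sq_abs]
    linear_combination (-(ψ (zc q) ^ 2 * inner ℝ (n q) ez ^ 2)) * hs2
  unfold secondVariationDensity
  simp_rw [hA]
  rw [← Finset.mul_sum, sum_zc, hC, ← hh]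
  have : (deriv ψ (zc q) ^ 2 - ψ (zc q) ^ 2) * hh Γ q =
      deriv ψ (zc q) ^ 2 * hh Γ q - ψ (zc q) ^ 2 * hh Γ q := by ring
  rw [this]
  linarith

/-- the second variation of a field `ψ(z) ν` -/
theorem secondVariation_le (hl : 0 < l) {Γ : Set E4} (hΓ : IsFiniteAreaMinimal (M l) Γ)
    {W : E4 → E4} (hW : ContDiff ℝ ∞ W) (hWc : HasCompactSupport W)
    (hW1 : ∀ p ∈ Γ, -l < zc p → zc p < l → ‖W p‖ = 1)
    (hW2 : ∀ p ∈ Γ, W p ∈ normalLine (M l) Γ p) {c : ℝ}
    (hc : ∀ K : ℝ → ℝ, ContDiff ℝ ∞ K → HasCompactSupport K →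
      tsupport K ⊆ Ioo (-l) l → ∫ q in Γ, K (zc q) * hh Γ q ∂μ2 = c * ∫ t, K t)
    {ψ : ℝ → ℝ} (hψ : ContDiff ℝ ∞ ψ) (hψc : HasCompactSupport ψ)
    (hψt : tsupport ψ ⊆ Ioo (-l) l) :
    secondVariation (M l) (Nf l) Γ (fun x => ψ (zc x) • W x) ≤
      c * ∫ t, (deriv ψ t ^ 2 - ψ t ^ 2) := by
  have hdψ : ContDiff ℝ ∞ (deriv ψ) := (contDiff_infty_iff_deriv.1 hψ).2
  have hK : ContDiff ℝ ∞ (fun t => deriv ψ t ^ 2 - ψ t ^ 2) := (hdψ.pow 2).sub (hψ.pow 2)
  have hKs : tsupport (fun t => deriv ψ t ^ 2 - ψ t ^ 2) ⊆ tsupport ψ := by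
    refine closure_minimal (fun t ht => ?_) (isClosed_tsupport _)
    by_contra hcon
    apply ht
    have h1 : ψ t = 0 := image_eq_zero_of_notMem_tsupport hcon
    have h2 : deriv ψ t = 0 := by
      have : ψ =ᶠ[𝓝 t] fun _ => 0 := notMem_tsupport_iff_eventuallyEq.1 hcon
      rw [this.deriv_eq]; simp
    show deriv ψ t ^ 2 - ψ t ^ 2 = 0
    rw [h1, h2]; ring
  have hKc : HasCompactSupport (fun t => deriv ψ t ^ 2 - ψ t ^ 2) :=
    hψc.isCompact.of_isClosed_subset (isClosed_tsupport _) hKs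
  rw [← hc _ hK hKc (hKs.trans hψt)]
  have hψz : ContDiff ℝ ∞ (fun x : E4 => ψ (zc x)) := hψ.comp zc.contDiff
  have hV : ContDiff ℝ ∞ (fun x => ψ (zc x) • W x) := hψz.smul hW
  have hVc : HasCompactSupport (fun x => ψ (zc x) • W x) := by
    refine hWc.mono fun x hx => ?_
    intro h0
    apply hx
    show ψ (zc x) • W x = 0
    rw [h0, smul_zero]
  obtain ⟨C, hC⟩ := hKc.exists_bound_of_continuous hK.continuous
  have hint : IntegrableOn (fun q => (deriv ψ (zc q) ^ 2 - ψ (zc q) ^ 2) * hh Γ q) Γ μ2 := by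
    have e1 : Continuous (fun q : E4 => deriv ψ (zc q) ^ 2 - ψ (zc q) ^ 2) :=
      hK.continuous.comp zc.continuous
    have e2 : ContinuousOn (fun q : E4 => (deriv ψ (zc q) ^ 2 - ψ (zc q) ^ 2) * hh Γ q) Γ :=
      e1.continuousOn.mul (continuousOn_hh hl hΓ.embedded)
    refine integrable_of_cont hΓ e2 (C := C) fun q _ => ?_
    rw [abs_mul, abs_of_nonneg (hh_nonneg Γ q)]
    have h1 := hC (zc q)
    rw [Real.norm_eq_abs] at h1
    have h2 := hh_le_one Γ q
    have h3 := abs_nonneg (deriv ψ (zc q) ^ 2 - ψ (zc q) ^ 2)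
    have h4 := hh_nonneg Γ q
    nlinarith
  unfold secondVariation
  exact setIntegral_mono_on (integrable_density hl hΓ hV hVc) hint
    hΓ.embedded.isClosed.measurableSet
    fun q hq => density_le hl hΓ.embedded hW hW1 hW2 hψ hψt hq

end Pool.Agent.W556.Cap
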