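import Mathlib
import Pool.Agent.W556.CapUnstable
import Pool.Agent.W556.CapStable

/-!
# Index at least two, and the dichotomy
-/

set_option autoImplicit false

noncomputable section

open Set Filter Topology MeasureTheory Metric
open scoped ContDiff NNReal

namespace Pool.Agent.W556.Cap

/-- the model cutoff -/
def bb : ContDiffBump (0 : ℝ) := ⟨1, 2, one_pos, one_lt_two⟩

def I0 : ℝ := ∫ t, (bb t) ^ 2
def I1 : ℝ := ∫ t, (deriv bb t) ^ 2

theorem bb_smooth : ContDiff ℝ ∞ (bb : ℝ → ℝ) := bb.contDiff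

theorem bb_sq_int : Integrable (fun t => (bb t) ^ 2) := by
  refine ((bb.continuous.pow 2)).integrable_of_hasCompactSupport ?_
  refine bb.hasCompactSupport.mono fun t ht h0 => ht ?_
  show bb t ^ 2 = 0
  rw [h0]; ring

theorem dbb_cont : Continuous (deriv bb) := bb_smooth.continuous_deriv (by simp)

theorem dbb_sq_int : Integrable (fun t => (deriv bb t) ^ 2) := by
  refine ((dbb_cont.pow 2)).integrable_of_hasCompactSupport ?_
  refine (bb.hasCompactSupport.deriv).mono fun t ht h0 => ht ?_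
  show deriv bb t ^ 2 = 0
  rw [h0]; ring

theorem I0_pos : 0 < I0 := by
  unfold I0
  rw [integral_pos_iff_support_of_nonneg (fun t => by positivity) bb_sq_int]
  have h1 : Ioo (-1 : ℝ) 1 ⊆ Function.support (fun t => (bb t) ^ 2) := by
    intro t ht
    have h2 : bb t = 1 := by
      apply bb.one_of_mem_closedBall
      rw [mem_closedBall, Real.dist_eq, sub_zero]
      exact (abs_lt.2 ht).le
    show bb t ^ 2 ≠ 0
    rw [h2]; norm_num
  refine lt_of_lt_of_le ?_ (measure_mono h1)
  rw [Real.volume_Ioo]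
  simp

theorem exists_L : ∃ L : ℝ, 1 ≤ L ∧ L * (I1 / L ^ 2 - I0) < 0 := by
  have h0 := I0_pos
  have h1 : 0 ≤ I1 := integral_nonneg fun t => by positivity
  refine ⟨I1 / I0 + 1, ?_, ?_⟩
  · have : 0 ≤ I1 / I0 := by positivity
    linarith
  have hL : 0 < I1 / I0 + 1 := by positivity
  have h2 : I1 / (I1 / I0 + 1) ^ 2 < I0 := by
    rw [div_lt_iff₀ (by positivity)]
    have h3 : I0 * (I1 / I0 + 1) ^ 2 = I1 * (I1 / I0 + 1) + I0 * (I1 / I0 + 1) := by
      field_simp
    have h4 : I0 * (I1 / I0 + 1) = I1 + I0 := by field_simp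
    have h5 : 0 ≤ I1 * (I1 / I0 + 1) := by positivity
    rw [h3, h4]
    linarith
  nlinarith

/-- the length scale -/
def LL : ℝ := exists_L.choose
theorem one_le_LL : 1 ≤ LL := exists_L.choose_spec.1
theorem LL_pos : 0 < LL := one_pos.trans_le one_le_LL
theorem LL_neg : LL * (I1 / LL ^ 2 - I0) < 0 := exists_L.choose_spec.2

/-- half the length of the cylinder -/
def l0 : ℝ := 5 * LL
theorem l0_pos : 0 < l0 := by have := LL_pos; unfold l0; positivity

/-- the test profiles -/
def psi (m t : ℝ) : ℝ := bb ((t - m) / LL)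

theorem psi_smooth (m : ℝ) : ContDiff ℝ ∞ (psi m) := by
  have h1 : ContDiff ℝ ∞ (fun t : ℝ => (t - m) / LL) := (contDiff_id.sub contDiff_const).div_const _
  exact bb_smooth.comp h1

theorem deriv_psi (m t : ℝ) : deriv (psi m) t = deriv bb ((t - m) / LL) / LL := by
  have h1 : HasDerivAt (fun t : ℝ => (t - m) / LL) (1 / LL) t :=
    ((hasDerivAt_id t).sub_const m).div_const LL
  have h2 : HasDerivAt bb (deriv bb ((t - m) / LL)) ((t - m) / LL) :=
    ((bb_smooth.differentiable (by simp)).differentiableAt).hasDerivAt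
  have h3 : HasDerivAt (psi m) _ t := h2.comp t h1
  rw [h3.deriv]; ring

theorem psi_supp (m : ℝ) : tsupport (psi m) ⊆ Icc (m - 2 * LL) (m + 2 * LL) := by
  refine closure_minimal (fun t ht => ?_) isClosed_Icc
  by_contra hcon
  apply ht
  apply bb.zero_of_le_dist
  have hL := LL_pos
  rw [Real.dist_eq, sub_zero, abs_div, abs_of_pos hL, le_div_iff₀ hL]
  show 2 * LL ≤ _
  rw [mem_Icc, not_and_or, not_le, not_le] at hcon
  rcases hcon with h | h
  · rw [abs_of_neg (by linarith)]; linarith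
  · rw [abs_of_pos (by linarith)]; linarith

theorem psi_compact (m : ℝ) : HasCompactSupport (psi m) :=
  isCompact_Icc.of_isClosed_subset (isClosed_tsupport _) (psi_supp m)

theorem integral_psi (m : ℝ) :
    ∫ t, (deriv (psi m) t ^ 2 - psi m t ^ 2) = LL * (I1 / LL ^ 2 - I0) := by
  have hL := LL_pos
  have h1 : ∀ t, deriv (psi m) t ^ 2 - psi m t ^ 2 =
      (fun u => (fun w => deriv bb w ^ 2 / LL ^ 2 - bb w ^ 2) (u / LL)) (t - m) := by
    intro t
    rw [deriv_psi]
    simp only [psi, div_pow]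
  simp_rw [h1]
  rw [integral_sub_right_eq_self (fun u => (fun w => deriv bb w ^ 2 / LL ^ 2 - bb w ^ 2) (u / LL)) m]
  have h2 := Measure.integral_comp_div (fun w => deriv bb w ^ 2 / LL ^ 2 - bb w ^ 2) LL
  refine h2.trans ?_
  rw [abs_of_pos hL, smul_eq_mul, integral_sub (dbb_sq_int.div_const _) bb_sq_int, integral_div]
  rfl

theorem psi_K_int (m : ℝ) : Integrable (fun t => deriv (psi m) t ^ 2 - psi m t ^ 2) := by
  have h1 : Continuous (deriv (psi m)) := (psi_smooth m).continuous_deriv (by simp)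
  have h2 : Continuous (psi m) := (psi_smooth m).continuous
  have h3 : Continuous (fun t => deriv (psi m) t ^ 2 - psi m t ^ 2) := (h1.pow 2).sub (h2.pow 2)
  refine h3.integrable_of_hasCompactSupport ?_
  refine (psi_compact m).isCompact.of_isClosed_subset (isClosed_tsupport _) ?_
  refine closure_minimal (fun t ht => ?_) (isClosed_tsupport _)
  by_contra hcon
  apply ht
  have e1 : psi m t = 0 := image_eq_zero_of_notMem_tsupport hcon
  have e2 : deriv (psi m) t = 0 := by
    have : psi m =ᶠ[𝓝 t] fun _ => 0 := notMem_tsupport_iff_eventuallyEq.1 hcon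
    rw [this.deriv_eq]; simp
  show deriv (psi m) t ^ 2 - psi m t ^ 2 = 0
  rw [e1, e2]; ring

theorem psi_zero_of {m t : ℝ} (h : t ∉ Icc (m - 2 * LL) (m + 2 * LL)) :
    psi m t = 0 ∧ deriv (psi m) t = 0 := by
  have hcon : t ∉ tsupport (psi m) := fun h' => h (psi_supp m h')
  refine ⟨image_eq_zero_of_notMem_tsupport hcon, ?_⟩
  have : psi m =ᶠ[𝓝 t] fun _ => 0 := notMem_tsupport_iff_eventuallyEq.1 hcon
  rw [this.deriv_eq]; simp

/-- the centres of the two test profiles -/
def mm (i : Fin 2) : ℝ := if i = 0 then -(5 / 2) * LL else 5 / 2 * LL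

theorem index_ge_two {Γ : Set E4} (hΓ : IsFiniteAreaMinimal (M l0) Γ)
    (hts : IsTwoSided (M l0) Γ) {c : ℝ} (hc0 : 0 < c)
    (hc : ∀ K : ℝ → ℝ, ContDiff ℝ ∞ K → HasCompactSupport K →
      tsupport K ⊆ Ioo (-l0) l0 → ∫ q in Γ, K (zc q) * hh Γ q ∂μ2 = c * ∫ t, K t) :
    MorseIndexAtLeast (M l0) (Nf l0) Γ 2 := by
  have hl := l0_pos
  have hL := LL_pos
  obtain ⟨ν, hν, hν1⟩ := hts
  obtain ⟨W0, hW0, hW0ν⟩ := exists_ext hl hΓ.embedded hν hν1
  let η : ContDiffBump (0 : E4) := ⟨l0 + 2, l0 + 3, by positivity, by linarith⟩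
  let W : E4 → E4 := fun x => η x • W0 x
  have hW : ContDiff ℝ ∞ W := η.contDiff.smul hW0
  have hWc : HasCompactSupport W := by
    refine η.hasCompactSupport.mono fun x hx => ?_
    intro h0
    apply hx
    show η x • W0 x = 0
    rw [h0, zero_smul]
  have hW1 : ∀ p ∈ Γ, -l0 < zc p → zc p < l0 → ‖W p‖ = 1 := by
    intro p hp h1 h2
    have h3 : ‖p‖ ≤ l0 + 2 := by
      have h4 := norm_sq_le (hΓ.embedded.subset hp)
      have h5 : zc p ^ 2 ≤ l0 ^ 2 := by nlinarith
      nlinarith [norm_nonneg p]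
    have h4 : η p = 1 := η.one_of_mem_closedBall (by rw [mem_closedBall, dist_zero_right]; exact h3)
    show ‖η p • W0 p‖ = 1
    rw [h4, one_smul, hW0ν p hp, (hν1 p hp).1]
  have hW2 : ∀ p ∈ Γ, W p ∈ normalLine (M l0) Γ p := by
    intro p hp
    show η p • W0 p ∈ _
    rw [hW0ν p hp]
    exact Submodule.smul_mem _ _ (hν1 p hp).2
  have hψz : ∀ i : Fin 2, ContDiff ℝ ∞ (fun x : E4 => psi (mm i) (zc x)) := fun i =>
    (psi_smooth (mm i)).comp zc.contDiff
  refine ⟨fun i x => psi (mm i) (zc x) • W x, fun i => ⟨(hψz i).smul hW, ?_, ?_⟩, ?_⟩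
  · refine hWc.mono fun x hx => ?_
    intro h0
    apply hx
    show psi (mm i) (zc x) • W x = 0
    rw [h0, smul_zero]
  · exact fun p hp => Submodule.smul_mem _ _ (hW2 p hp)
  · intro a ha
    let ψ : ℝ → ℝ := fun t => a 0 * psi (mm 0) t + a 1 * psi (mm 1) t
    have hψ : ContDiff ℝ ∞ ψ :=
      (contDiff_const.mul (psi_smooth _)).add (contDiff_const.mul (psi_smooth _))
    have hm0 : mm 0 = -(5 / 2) * LL := by simp [mm]
    have hm1 : mm 1 = 5 / 2 * LL := by simp [mm]
    have hψs : tsupport ψ ⊆ Icc (-(9 / 2) * LL) (9 / 2 * LL) := by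
      refine closure_minimal (fun t ht => ?_) isClosed_Icc
      by_contra hcon
      apply ht
      have h0 : t ∉ Icc (mm 0 - 2 * LL) (mm 0 + 2 * LL) := by
        rw [hm0]
        intro h
        exact hcon ⟨by linarith [h.1], by linarith [h.2]⟩
      have h1 : t ∉ Icc (mm 1 - 2 * LL) (mm 1 + 2 * LL) := by
        rw [hm1]
        intro h
        exact hcon ⟨by linarith [h.1], by linarith [h.2]⟩
      show a 0 * psi (mm 0) t + a 1 * psi (mm 1) t = 0
      rw [(psi_zero_of h0).1, (psi_zero_of h1).1]; ring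
    have hψc : HasCompactSupport ψ := isCompact_Icc.of_isClosed_subset (isClosed_tsupport _) hψs
    have hψt : tsupport ψ ⊆ Ioo (-l0) l0 := by
      refine hψs.trans (Icc_subset_Ioo ?_ ?_) <;> · unfold l0; linarith
    have hsv := secondVariation_le hl hΓ hW hWc hW1 hW2 hc hψ hψc hψt
    have hVeq : (fun x => ∑ i : Fin 2, a i • (psi (mm i) (zc x) • W x)) =
        fun x => ψ (zc x) • W x := by
      funext x
      rw [Fin.sum_univ_two, smul_smul (a 0) _ (W x), smul_smul (a 1) _ (W x), ← add_smul]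
    show secondVariation (M l0) (Nf l0) Γ (fun x => ∑ i : Fin 2, a i • (psi (mm i) (zc x) • W x)) < 0
    rw [hVeq]
    refine lt_of_le_of_lt hsv ?_
    have hdψ : ∀ t, deriv ψ t = a 0 * deriv (psi (mm 0)) t + a 1 * deriv (psi (mm 1)) t := by
      intro t
      have h0 : HasDerivAt (psi (mm 0)) (deriv (psi (mm 0)) t) t :=
        (((psi_smooth (mm 0)).differentiable (by simp)).differentiableAt).hasDerivAt
      have h1 : HasDerivAt (psi (mm 1)) (deriv (psi (mm 1)) t) t :=
        (((psi_smooth (mm 1)).differentiable (by simp)).differentiableAt).hasDerivAt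
      exact ((h0.const_mul (a 0)).add (h1.const_mul (a 1))).deriv
    have hK : ∀ t, deriv ψ t ^ 2 - ψ t ^ 2 =
        a 0 ^ 2 * (deriv (psi (mm 0)) t ^ 2 - psi (mm 0) t ^ 2) +
        a 1 ^ 2 * (deriv (psi (mm 1)) t ^ 2 - psi (mm 1) t ^ 2) := by
      intro t
      have hψt : ψ t = a 0 * psi (mm 0) t + a 1 * psi (mm 1) t := rfl
      rw [hdψ, hψt]
      rcases le_total t 0 with h | h
      · have h1 : t ∉ Icc (mm 1 - 2 * LL) (mm 1 + 2 * LL) := by
          rw [hm1]; intro h'; linarith [h'.1]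
        rw [(psi_zero_of h1).1, (psi_zero_of h1).2]; ring
      · have h1 : t ∉ Icc (mm 0 - 2 * LL) (mm 0 + 2 * LL) := by
          rw [hm0]; intro h'; linarith [h'.2]
        rw [(psi_zero_of h1).1, (psi_zero_of h1).2]; ring
    simp_rw [hK]
    rw [integral_add ((psi_K_int _).const_mul _) ((psi_K_int _).const_mul _), integral_const_mul,
      integral_const_mul, integral_psi, integral_psi]
    have hneg := LL_neg
    have hpos : 0 < a 0 ^ 2 + a 1 ^ 2 := by
      by_contra hcon
      apply ha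
      have e0 : a 0 = 0 := by nlinarith [sq_nonneg (a 0), sq_nonneg (a 1)]
      have e1 : a 1 = 0 := by nlinarith [sq_nonneg (a 0), sq_nonneg (a 1)]
      funext i
      fin_cases i
      · exact e0
      · exact e1
    have h1 : a 0 ^ 2 * (LL * (I1 / LL ^ 2 - I0)) + a 1 ^ 2 * (LL * (I1 / LL ^ 2 - I0)) =
        (a 0 ^ 2 + a 1 ^ 2) * (LL * (I1 / LL ^ 2 - I0)) := by ring
    rw [h1]
    exact mul_neg_of_pos_of_neg hc0 (mul_neg_of_pos_of_neg hpos hneg)

/-- no two-sided finite area minimal surface of `M` has index one -/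
theorem not_index_one {Γ : Set E4} (hΓ : IsFiniteAreaMinimal (M l0) Γ)
    (hts : IsTwoSided (M l0) Γ) : ¬ HasMorseIndexOne (M l0) (Nf l0) Γ := by
  rintro ⟨h1, h2⟩
  obtain ⟨c, hc0, hc⟩ := flux_measure l0_pos hΓ
  rcases hc0.eq_or_lt with h | h
  · refine index_zero l0_pos hΓ (fun K hK hKc hKt => ?_) h1
    rw [hc K hK hKc hKt, ← h, zero_mul]
  · exact h2 (index_ge_two hΓ hts h hc)

end Pool.Agent.W556.Cap
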