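import Mathlib
import Pool.Agent.W556.CapStmt
import Pool.Agent.W556.CapTwo
import Pool.Agent.W556.CapSides
import Pool.Agent.W556.CapStar

/-!
# Translation between the two sets of definitions
-/

set_option autoImplicit false

noncomputable section

open Set Filter Topology MeasureTheory Metric
open scoped ContDiff

namespace Pool.Agent.W556.CapS

theorem exists_ne {L : E4 →L[ℝ] ℝ} (h : L ≠ 0) : ∃ v, L v ≠ 0 := by
  by_contra hcon
  push Not at hcon
  exact h (ContinuousLinearMap.ext hcon)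

theorem conv_hyper {M : Set E4} {N : E4 → E4} (h : Cap.IsCompleteHypersurface M N) :
    IsCompleteHypersurface M N where
  isClosed := h.isClosed
  isConnected := h.isConnected
  smooth := by
    intro p hp
    obtain ⟨U, hU, hpU, f, hf, hne, hiff⟩ := h.smooth p hp
    exact ⟨U, f, hpU, ⟨hU, hf⟩, exists_ne hne, hiff⟩
  normal_smooth := by
    obtain ⟨U, hU, hMU, hN⟩ := h.normal_smooth
    exact ⟨U, hMU, hU, hN⟩
  normal_unit := by
    intro p hp
    rw [dot, real_inner_self_eq_norm_sq, h.normal_norm p hp]; norm_num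
  normal_dot := h.normal_inner

theorem conv_surface {M Γ : Set E4} (h : IsEmbeddedSurface M Γ) : Cap.IsEmbeddedSurface M Γ where
  subset := h.subset
  isClosed := h.isClosed
  smooth := by
    intro p hp
    obtain ⟨U, g, hpU, ⟨hU, hg⟩, hv, hiff⟩ := h.smooth p hp
    exact ⟨U, hU, hpU, g, hg, hv, hiff⟩

theorem conv_twoSided {M Γ : Set E4} (h : Cap.IsTwoSided M Γ) : IsTwoSided M Γ := by
  obtain ⟨ν, hν, h1⟩ := h
  refine ⟨ν, hν, fun p hp => ⟨?_, (h1 p hp).2⟩⟩
  rw [dot, real_inner_self_eq_norm_sq, (h1 p hp).1]; norm_num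

theorem conv_minimal {M Γ : Set E4} (h : IsFiniteAreaMinimal M Γ) :
    Cap.IsFiniteAreaMinimal M Γ where
  nonempty := h.nonempty
  embedded := conv_surface h.embedded
  finite_area := h.finite_area
  minimal := fun X hX hXc hXt => h.minimal X ⟨isOpen_univ, hX.contDiffOn⟩ hXc hXt

theorem conv_variation {M Γ : Set E4} {V : E4 → E4} :
    IsNormalVariation M Γ V ↔ Cap.IsNormalVariation M Γ V :=
  ⟨fun h => ⟨contDiffOn_univ.1 h.smooth.2, h.compact, h.normal⟩,
    fun h => ⟨⟨isOpen_univ, h.smooth.contDiffOn⟩, h.compact, h.normal⟩⟩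

theorem conv_second (M : Set E4) (N : E4 → E4) (Γ : Set E4) (V : E4 → E4) :
    secondVariation M N Γ V = Cap.secondVariation M N Γ V := by
  unfold secondVariation Cap.secondVariation surfaceIntegral
  congr 1
  funext p
  unfold normalDerivSq secondFundSq Cap.secondVariationDensity
  simp only [dot, real_inner_self_eq_norm_sq]
  rfl

theorem conv_index {M : Set E4} {N : E4 → E4} {Γ : Set E4} {k : ℕ} :
    MorseIndexAtLeast M N Γ k ↔ Cap.MorseIndexAtLeast M N Γ k := by
  constructor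
  · rintro ⟨V, hV, h⟩
    refine ⟨V, fun i => conv_variation.1 (hV i), fun c hc => ?_⟩
    rw [← conv_second]; exact h c hc
  · rintro ⟨V, hV, h⟩
    refine ⟨V, fun i => conv_variation.2 (hV i), fun c hc => ?_⟩
    rw [conv_second]; exact h c hc

theorem conv_indexOne {M : Set E4} {N : E4 → E4} {Γ : Set E4} (h : HasMorseIndexOne M N Γ) :
    Cap.HasMorseIndexOne M N Γ :=
  ⟨conv_index.1 h.1, fun h2 => h.2 (conv_index.2 h2)⟩

theorem conv_domain {M U : Set E4} (h : Cap.IsSmoothDomain M U) : IsSmoothDomain M U where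
  nonempty := h.nonempty
  isOpen := h.isOpen
  isBounded := h.isBounded
  boundary := by
    intro p hp
    obtain ⟨O, hO, hpO, g, hg, hgp, hv, hiff⟩ := h.boundary p hp
    exact ⟨O, g, hpO, ⟨hO, hg⟩, hgp, hv, hiff⟩

theorem noOneSided {l : ℝ} (hl : 0 < l) : HasNoOneSidedSurface (Cap.M l) := fun Γ hΓ =>
  conv_twoSided (Cap.hasNoOneSided hl Γ (conv_surface hΓ))

theorem star {l : ℝ} (hl : 1 ≤ l) : SatisfiesStar (Cap.M l) (Cap.Nf l) := by
  obtain ⟨T, hT, h⟩ := Cap.exists_dom hl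
  refine ⟨Cap.dom l T, conv_domain (Cap.isSmoothDomain_dom (by linarith) hT), h.trans ?_⟩
  gcongr
  apply le_sSup
  intro f hf
  obtain ⟨O, hUO, hO, hfO⟩ := hf.smooth
  exact Cap.fiber_ge hl hT hO hUO hfO.continuousOn

theorem main : ∃ (M : Set E4) (N : E4 → E4),
    IsCompleteHypersurface M N ∧ ¬ IsCompact M ∧
    Nonempty (M ≃ₜ EuclideanSpace ℝ (Fin 3)) ∧
    HasNoOneSidedSurface M ∧ SatisfiesStar M N ∧
    ∀ Γ : Set E4, IsFiniteAreaMinimal M Γ → ¬ HasMorseIndexOne M N Γ :=
  ⟨Cap.M Cap.l0, Cap.Nf Cap.l0, conv_hyper (Cap.isCompleteHypersurface_M Cap.l0_pos),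
    Cap.not_isCompact_M Cap.l0_pos, ⟨Cap.homeoM Cap.l0_pos⟩,
    noOneSided Cap.l0_pos,
    star (by have := Cap.one_le_LL; unfold Cap.l0; linarith),
    fun Γ hΓ h => Cap.not_index_one (conv_minimal hΓ)
      (Cap.hasNoOneSided Cap.l0_pos Γ (conv_surface hΓ.embedded)) (conv_indexOne h)⟩

end Pool.Agent.W556.CapS
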