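import Pool.Agent.W556.CupTorus

namespace Pool.Agent.W556

open Equiv

variable {X : Type} [TopologicalSpace X] {q : ℕ}

/-- affine simplex with vertices `W i`, composed with `s` -/
noncomputable def aff (s : C(Fin (q + 1) → ℝ, X)) {p : ℕ} (W : Fin (p + 1) → (Fin (q + 1) → ℝ)) :
    Simp X p :=
  s.comp ⟨fun t => fun j => ∑ i, t i * W i j, by
    apply continuous_pi
    intro j
    apply continuous_finsetSum
    intro i _
    exact Continuous.mul ((continuous_apply i).comp continuous_subtype_val) continuous_const⟩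

theorem aff_apply (s : C(Fin (q + 1) → ℝ, X)) {p : ℕ} (W : Fin (p + 1) → (Fin (q + 1) → ℝ)) (t) :
    aff s W t = s (fun j => ∑ i, t i * W i j) := rfl

theorem sum_map {n p : ℕ} (v : Fin (p + 1) → Fin (n + 1)) (x : stdSimplex ℝ (Fin (p + 1)))
    (w : Fin (n + 1) → ℝ) : ∑ i, (stdSimplex.map v x) i * w i = ∑ k, x k * w (v k) := by
  simp only [stdSimplex.map_coe, FunOnFinite.linearMap_apply_apply, Finset.sum_mul]
  rw [← Finset.sum_fiberwise Finset.univ v (fun k => x k * w (v k))]
  refine Finset.sum_congr rfl fun i _ => Finset.sum_congr rfl fun k hk => ?_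
  rw [(Finset.mem_filter.1 hk).2]

theorem aff_sub (s : C(Fin (q + 1) → ℝ, X)) {n p : ℕ} (W : Fin (n + 1) → (Fin (q + 1) → ℝ))
    (v : Fin (p + 1) → Fin (n + 1)) : (aff s W).sub v = aff s (W ∘ v) := by
  refine ContinuousMap.ext fun x => ?_
  change s _ = s _
  congr 1
  funext j
  exact sum_map v x (fun i => W i j)

/-- vertices of the simplex of the permutation `π` in the cube -/
def vert (π : Perm (Fin (q + 1))) (i : Fin (q + 2)) : Fin (q + 1) → ℝ :=
  fun j => if (π.symm j : ℕ) < i then 1 else 0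

theorem vert_pos {π : Perm (Fin (q + 1))} {i : Fin (q + 2)} {j : Fin (q + 1)}
    (h : (π.symm j : ℕ) < i) : vert π i j = 1 := if_pos h

theorem vert_neg {π : Perm (Fin (q + 1))} {i : Fin (q + 2)} {j : Fin (q + 1)}
    (h : ¬ (π.symm j : ℕ) < i) : vert π i j = 0 := if_neg h

theorem disp_edge (s : C(Fin (q + 1) → ℝ, X)) (c : C(X, AddCircle (1 : ℝ))) (j : Fin (q + 1))
    (hc : ∀ x, c (s x) = ((x j : ℝ) : AddCircle (1 : ℝ))) (π : Perm (Fin (q + 1)))
    (i : Fin (q + 1)) :
    dispCochain c 1 ((aff s (vert π)).sub (edge i)) = if π i = j then 1 else 0 := by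
  rw [disp_sub c (aff s (vert π)) (fun t => ∑ i, t i * vert π i j) (by
    apply continuous_finsetSum
    intro i _
    exact Continuous.mul ((continuous_apply i).comp continuous_subtype_val) continuous_const)
    (fun x => by rw [aff_apply, hc])]
  have h : ∀ k : Fin (q + 2), ∑ i, (vtx k) i * vert π i j = vert π k j := by
    intro k
    simp [Pi.single_apply]
  rw [h, h]
  have e1 : ((edge i 1 : Fin (q + 2)) : ℕ) = i + 1 := rfl
  have e0 : ((edge i 0 : Fin (q + 2)) : ℕ) = i := rfl
  by_cases hij : π i = j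
  · subst hij
    rw [if_pos rfl, vert_pos (by rw [e1, Equiv.symm_apply_apply]; omega),
      vert_neg (by rw [e0, Equiv.symm_apply_apply]; omega), sub_zero]
  · have h1 : (π.symm j : ℕ) ≠ i := by
      intro h
      exact hij (by rw [← Fin.ext h, Equiv.apply_symm_apply])
    rw [if_neg hij]
    by_cases h2 : (π.symm j : ℕ) < i
    · rw [vert_pos (by rw [e1]; omega), vert_pos (by rw [e0]; omega), sub_self]
    · rw [vert_neg (by rw [e1]; omega), vert_neg (by rw [e0]; omega), sub_self]

/-- inner faces cancel -/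
theorem inner_face (s : C(Fin (q + 1) → ℝ, X)) (β : Simp X q → ℝ) (i : Fin (q + 2))
    (h0 : i ≠ 0) (h1 : i ≠ Fin.last (q + 1)) :
    ∑ π : Perm (Fin (q + 1)), ((Perm.sign π : ℤ) : ℝ) * β ((aff s (vert π)).sub i.succAbove) = 0 := by
  have hi0 : (i : ℕ) ≠ 0 := fun h => h0 (Fin.ext h)
  have hi1 : (i : ℕ) ≠ q + 1 := fun h => h1 (Fin.ext h)
  have hi2 := i.2
  let a : Fin (q + 1) := ⟨i - 1, by omega⟩
  let b : Fin (q + 1) := ⟨i, by omega⟩
  have hab : a ≠ b := by
    intro h
    have := congrArg Fin.val h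
    simp only [a, b] at this
    omega
  refine Finset.sum_involution (fun π _ => π * swap a b) ?_ ?_ (fun _ _ => Finset.mem_univ _) ?_
  · intro π _
    have hs : Perm.sign (π * swap a b) = - Perm.sign π := by
      rw [Perm.sign_mul, Perm.sign_swap hab, mul_neg_one]
    have hf : (aff s (vert (π * swap a b))).sub i.succAbove = (aff s (vert π)).sub i.succAbove := by
      rw [aff_sub, aff_sub]
      congr 1
      funext k j
      simp only [Function.comp, vert]
      have hk : (i.succAbove k : ℕ) ≠ i := fun h => Fin.succAbove_ne i k (Fin.ext h)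
      have e1 : ((π * swap a b).symm j : Fin (q + 1)) = swap a b (π.symm j) := by
        rw [Equiv.symm_apply_eq]
        simp [Perm.mul_apply]
      rw [e1]
      congr 1
      rw [Equiv.swap_apply_def]
      split_ifs with h2 h3
      · rw [h2]
        simp only [a, b]
        apply propext
        constructor <;> intro h <;> omega
      · rw [h3]
        simp only [a, b]
        apply propext
        constructor <;> intro h <;> omega
      · rfl
    rw [hs, hf]
    push_cast
    ring
  · intro π _ _ h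
    have h2 : swap a b = 1 := by
      have := congrArg (fun x => π⁻¹ * x) h
      simpa using this
    exact hab (Equiv.swap_eq_one_iff.1 h2)
  · intro π _
    simp [mul_assoc]

/-- outer faces cancel -/
theorem outer_face (s : C(Fin (q + 1) → ℝ, X))
    (hper : ∀ x (j : Fin (q + 1)), s (x + Pi.single j 1) = s x) (β : Simp X q → ℝ) :
    ∑ π : Perm (Fin (q + 1)), ((Perm.sign π : ℤ) : ℝ) *
        ((-1) ^ (q + 1) * β ((aff s (vert π)).sub (Fin.last (q + 1)).succAbove)) =
      - ∑ π : Perm (Fin (q + 1)), ((Perm.sign π : ℤ) : ℝ) *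
        β ((aff s (vert π)).sub (0 : Fin (q + 2)).succAbove) := by
  rw [← Finset.sum_neg_distrib]
  rw [← Equiv.sum_comp (Equiv.mulRight (finRotate (q + 1)))]
  refine Finset.sum_congr rfl fun π _ => ?_
  simp only [Equiv.coe_mulRight]
  have hs : ((Perm.sign (π * finRotate (q + 1)) : ℤ) : ℝ) = ((Perm.sign π : ℤ) : ℝ) * (-1) ^ q := by
    rw [Perm.sign_mul, sign_finRotate]
    push_cast
    ring
  have hf : (aff s (vert (π * finRotate (q + 1)))).sub (Fin.last (q + 1)).succAbove =
      (aff s (vert π)).sub (0 : Fin (q + 2)).succAbove := by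
    rw [aff_sub, aff_sub]
    refine ContinuousMap.ext fun t => ?_
    rw [aff_apply, aff_apply, ← hper _ (π 0)]
    congr 1
    funext j
    have ht := stdSimplex.sum_eq_one t
    have e0 : (Pi.single (π 0) (1 : ℝ) : Fin (q + 1) → ℝ) j = ∑ k, t k * (if π 0 = j then 1 else 0) := by
      rw [← Finset.sum_mul, ht, one_mul, Pi.single_apply]
      simp only [eq_comm]
    rw [Pi.add_apply, e0, ← Finset.sum_add_distrib]
    refine Finset.sum_congr rfl fun k _ => ?_
    rw [← mul_add]
    congr 1
    simp only [Function.comp, Fin.succAbove_last, Fin.succAbove_zero]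
    have e1 : ((π * finRotate (q + 1)).symm j : Fin (q + 1)) = (finRotate (q + 1)).symm (π.symm j) := by
      rw [Equiv.symm_apply_eq]
      simp [Perm.mul_apply]
    have f1 : ((Fin.castSucc k : Fin (q + 2)) : ℕ) = k := rfl
    have f2 : ((Fin.succ k : Fin (q + 2)) : ℕ) = k + 1 := rfl
    have hk := k.2
    by_cases h0 : π 0 = j
    · have h1 : π.symm j = 0 := by rw [← h0, Equiv.symm_apply_apply]
      have h2 : (finRotate (q + 1)).symm 0 = Fin.last q := by
        rw [Equiv.symm_apply_eq, finRotate_last]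
      rw [if_pos h0, vert_neg (by rw [e1, h1, h2, f1, Fin.val_last]; omega),
        vert_pos (by rw [h1, f2, Fin.val_zero]; omega)]
      ring
    · have h1 : π.symm j ≠ 0 := fun h => h0 (by rw [← h, Equiv.apply_symm_apply])
      have h2 : (((finRotate (q + 1)).symm (π.symm j) : Fin (q + 1)) : ℕ) + 1 = (π.symm j : ℕ) := by
        set m := (finRotate (q + 1)).symm (π.symm j) with hm
        have h3 : finRotate (q + 1) m = π.symm j := by rw [hm, Equiv.apply_symm_apply]
        have h4 : m ≠ Fin.last q := by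
          intro h
          rw [h, finRotate_last] at h3
          exact h1 h3.symm
        rw [← h3, coe_finRotate_of_ne_last h4]
      rw [if_neg h0, add_zero]
      by_cases h5 : (π.symm j : ℕ) < k + 1
      · rw [vert_pos (by rw [e1, f1]; omega), vert_pos (by rw [f2]; exact h5)]
      · rw [vert_neg (by rw [e1, f1]; omega), vert_neg (by rw [f2]; exact h5)]
  rw [hs, hf]
  have h1 : ((-1 : ℝ) ^ q) * (-1) ^ (q + 1) = -1 := by
    rw [← pow_add, show q + (q + 1) = 2 * q + 1 by ring, pow_succ, pow_mul]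
    simp
  calc ((Perm.sign π : ℤ) : ℝ) * (-1) ^ q * ((-1) ^ (q + 1) *
        β ((aff s (vert π)).sub (0 : Fin (q + 2)).succAbove))
      = ((Perm.sign π : ℤ) : ℝ) * ((-1) ^ q * (-1) ^ (q + 1)) *
        β ((aff s (vert π)).sub (0 : Fin (q + 2)).succAbove) := by ring
    _ = _ := by rw [h1]; ring

/-- every coboundary vanishes on the fundamental cycle of the torus -/
theorem cycle (s : C(Fin (q + 1) → ℝ, X))
    (hper : ∀ x (j : Fin (q + 1)), s (x + Pi.single j 1) = s x) (b : Cochain ℝ X) :
    ∑ π : Perm (Fin (q + 1)), ((Perm.sign π : ℤ) : ℝ) * coboundary b (q + 1) (aff s (vert π)) = 0 := by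
  have h : ∀ π : Perm (Fin (q + 1)), ((Perm.sign π : ℤ) : ℝ) * coboundary b (q + 1) (aff s (vert π)) =
      ∑ i : Fin (q + 2), (-1) ^ (i : ℕ) *
        (((Perm.sign π : ℤ) : ℝ) * b q ((aff s (vert π)).sub i.succAbove)) := by
    intro π
    change _ * ∑ i : Fin (q + 2), (-1) ^ (i : ℕ) * b q ((aff s (vert π)).sub i.succAbove) = _
    rw [Finset.mul_sum]
    refine Finset.sum_congr rfl fun i _ => ?_
    ring
  simp_rw [h]
  rw [Finset.sum_comm]
  simp_rw [← Finset.mul_sum]
  rw [Fin.sum_univ_succ, Fin.sum_univ_castSucc]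
  have hz : ∑ i : Fin q, (-1 : ℝ) ^ ((Fin.succ (Fin.castSucc i) : Fin (q + 2)) : ℕ) *
      ∑ π : Perm (Fin (q + 1)), ((Perm.sign π : ℤ) : ℝ) *
        b q ((aff s (vert π)).sub (Fin.succ (Fin.castSucc i)).succAbove) = 0 := by
    apply Finset.sum_eq_zero
    intro i _
    rw [inner_face s (b q) (Fin.succ (Fin.castSucc i)) (Fin.succ_ne_zero _) (by
      intro h
      have := congrArg Fin.val h
      simp at this
      have := i.2
      omega), mul_zero]
  rw [hz, zero_add]
  have ho := outer_face s hper (b q)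
  have h2 : ∑ π : Perm (Fin (q + 1)), ((Perm.sign π : ℤ) : ℝ) *
        ((-1) ^ (q + 1) * b q ((aff s (vert π)).sub (Fin.last (q + 1)).succAbove)) =
      (-1) ^ (q + 1) * ∑ π : Perm (Fin (q + 1)), ((Perm.sign π : ℤ) : ℝ) *
        b q ((aff s (vert π)).sub (Fin.last (q + 1)).succAbove) := by
    rw [Finset.mul_sum]
    refine Finset.sum_congr rfl fun π _ => ?_
    ring
  rw [h2] at ho
  simp only [Fin.val_zero, pow_zero, one_mul, Fin.succ_last, Fin.val_last]
  rw [ho]
  ring

/-- A space with `l = q + 1` maps to the circle and a compatible map from the torus has cup-length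
at least `l` over `ℝ`. -/
theorem cupLength_of_torus (s : C(Fin (q + 1) → ℝ, X))
    (hper : ∀ x (j : Fin (q + 1)), s (x + Pi.single j 1) = s x)
    (c : Fin (q + 1) → C(X, AddCircle (1 : ℝ)))
    (hc : ∀ j x, c j (s x) = ((x j : ℝ) : AddCircle (1 : ℝ))) :
    CupLengthAtLeast ℝ X (q + 1) := by
  refine ⟨fun j => dispCochain (c j), fun i => ⟨disp_cocycle _, 1, le_rfl, dispCochain_hom _⟩, ?_⟩
  rintro ⟨b, hb⟩
  have h1 := cycle s hper b
  rw [hb] at h1
  have h2 : ∀ π : Perm (Fin (q + 1)), cupProd (q + 1) (fun j => dispCochain (c j)) (q + 1)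
      (aff s (vert π)) = if π = 1 then 1 else 0 := by
    intro π
    rw [cupProd_deg_one _ _ (fun i => dispCochain_hom _)]
    have h3 : ∀ i : Fin (q + 1), dispCochain (c i) 1 ((aff s (vert π)).sub (edge i)) =
        if π i = i then 1 else 0 := fun i => disp_edge s (c i) i (hc i) π i
    simp_rw [h3]
    by_cases hπ : π = 1
    · subst hπ
      simp
    · rw [if_neg hπ]
      have : ∃ i, π i ≠ i := by
        by_contra hcon
        push Not at hcon
        exact hπ (Equiv.ext hcon)
      obtain ⟨i, hi⟩ := this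
      exact Finset.prod_eq_zero (Finset.mem_univ i) (if_neg hi)
  simp_rw [h2] at h1
  simp at h1

end Pool.Agent.W556
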