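import Mathlib

/-! Immersions of a manifold in a Euclidean space and their curvature. -/

open scoped Manifold ContDiff ENNReal

namespace Pool.Agent.W556

variable (V : Type) [NormedAddCommGroup V] [NormedSpace ℝ V] {X : Type} [TopologicalSpace X]
  [ChartedSpace V X] {N : ℕ}

/-- The differential of `f : X → ℝᴺ` at `x`, a linear map from the tangent space `T_x X` (which is
the model space `V`) to `ℝᴺ`. -/
noncomputable def differential (f : X → EuclideanSpace ℝ (Fin N)) (x : X) :
    V →L[ℝ] EuclideanSpace ℝ (Fin N) :=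
  mfderiv 𝓘(ℝ, V) 𝓘(ℝ, EuclideanSpace ℝ (Fin N)) f x

/-- `f : X → ℝᴺ` is a smooth immersion: it is smooth and its differential is injective at every
point. -/
def IsImmersion (f : X → EuclideanSpace ℝ (Fin N)) : Prop :=
  ContMDiff 𝓘(ℝ, V) 𝓘(ℝ, EuclideanSpace ℝ (Fin N)) ∞ f ∧
    ∀ x, Function.Injective (differential V f x)

/-- The normal space of `f` at `x`: the orthogonal complement in `ℝᴺ` of the image of the
differential of `f` at `x`. -/
noncomputable def normalSpace (f : X → EuclideanSpace ℝ (Fin N)) (x : X) :
    Submodule ℝ (EuclideanSpace ℝ (Fin N)) :=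
  (LinearMap.range (differential V f x).toLinearMap)ᗮ

/-- The curvature of an immersion `f : X → ℝᴺ`: the supremum, over all smooth curves `γ` in `X` for
which `f ∘ γ` has speed one at time `0`, of the norm of the component of the acceleration
`(f ∘ γ)''(0)` in the normal space of `f` at `γ 0`. This normal component is `II(v, v)`, with `II`
the second fundamental form of `f` and `v = γ'(0)` a unit tangent vector for the induced metric. -/
noncomputable def curvature (f : X → EuclideanSpace ℝ (Fin N)) : ℝ≥0∞ :=
  ⨆ (γ : ℝ → X) (_ : ContMDiff 𝓘(ℝ, ℝ) 𝓘(ℝ, V) ∞ γ) (_ : ‖deriv (f ∘ γ) 0‖ = 1),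
    ENNReal.ofReal ‖(normalSpace V f (γ 0)).starProjection (deriv (deriv (f ∘ γ)) 0)‖

end Pool.Agent.W556
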