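import Mathlib

/-! The torus `ℝⁿ / ℤⁿ` as a smooth manifold. -/

open Set Filter Topology
open scoped Manifold ContDiff

namespace Pool.Agent.W556.Tor

/-- Euclidean space -/
abbrev Eu (n : ℕ) : Type := EuclideanSpace ℝ (Fin n)

/-- the integer lattice -/
def lat (n : ℕ) : AddSubgroup (Eu n) where
  carrier := {x | ∀ j, ∃ k : ℤ, x j = k}
  zero_mem' := fun j => ⟨0, by simp⟩
  add_mem' := by
    intro a b ha hb j
    obtain ⟨k, hk⟩ := ha j
    obtain ⟨l, hl⟩ := hb j
    exact ⟨k + l, by rw [PiLp.add_apply, hk, hl]; push_cast; ring⟩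
  neg_mem' := by
    intro a ha j
    obtain ⟨k, hk⟩ := ha j
    exact ⟨-k, by rw [PiLp.neg_apply, hk]; push_cast; ring⟩

theorem mem_lat {n : ℕ} {x : Eu n} : x ∈ lat n ↔ ∀ j, ∃ k : ℤ, x j = k := Iff.rfl

instance instDiscrete (n : ℕ) : DiscreteTopology (lat n) := by
  rw [discreteTopology_iff_isOpen_singleton_zero]
  have h : ({0} : Set (lat n)) = Subtype.val ⁻¹' (Metric.ball (0 : Eu n) 1) := by
    ext ⟨x, hx⟩
    simp only [mem_singleton_iff, mem_preimage, Metric.mem_ball, dist_zero_right]
    constructor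
    · intro h
      have : x = 0 := congrArg Subtype.val h
      rw [this]; simp
    · intro h
      apply Subtype.ext
      change x = 0
      ext j
      obtain ⟨k, hk⟩ := hx j
      have h1 : |x j| ≤ ‖x‖ := by
        have := PiLp.norm_apply_le x j
        rwa [Real.norm_eq_abs] at this
      have h2 : |x j| < 1 := lt_of_le_of_lt h1 h
      rw [hk] at h2
      have h3 : |k| < 1 := by
        rw [← Int.cast_abs, ← Int.cast_one] at h2
        exact Int.cast_lt.1 h2
      have h4 : k = 0 := Int.abs_lt_one_iff.1 h3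
      rw [hk, h4]; simp
  rw [h]
  exact Metric.isOpen_ball.preimage continuous_subtype_val

variable {n : ℕ}

/-- the torus -/
abbrev Tr (n : ℕ) : Type := Eu n ⧸ lat n

/-- the projection -/
def pr : Eu n → Tr n := QuotientAddGroup.mk

theorem latClosed : IsClosed (lat n : Set (Eu n)) :=
  haveI : DiscreteTopology (lat n) := instDiscrete n
  AddSubgroup.isClosed_of_discrete (H := lat n)

instance instClosed : IsClosed (lat n : Set (Eu n)) := latClosed

lemma covering : IsCoveringMap (pr (n := n)) :=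
  haveI : DiscreteTopology ((lat n : Set (Eu n)) : Type) := instDiscrete n
  (AddSubgroup.isAddQuotientCoveringMap_of_comm (lat n) DiscreteTopology.isDiscrete).isCoveringMap

lemma locHomeo : IsLocalHomeomorph (pr (n := n)) := covering.isLocalHomeomorph

lemma pr_surj : Function.Surjective (pr (n := n)) := QuotientAddGroup.mk_surjective

lemma pr_eq_iff {x y : Eu n} : pr x = pr y ↔ y - x ∈ lat n := by
  unfold pr
  rw [QuotientAddGroup.eq, neg_add_eq_sub]

/-- charts: local inverses of the projection. -/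
noncomputable instance instCharted : ChartedSpace (Eu n) (Tr n) where
  atlas := {e | ∃ x : Eu n, e = locHomeo.localInverseAt x}
  chartAt q := locHomeo.localInverseAt (Function.surjInv pr_surj q)
  mem_chart_source q := by
    have h := locHomeo.apply_self_mem_localInverseAt_source (x := Function.surjInv (pr_surj (n := n)) q)
    rwa [Function.surjInv_eq pr_surj q] at h
  chart_mem_atlas q := ⟨_, rfl⟩

lemma atlas_symm {e : OpenPartialHomeomorph (Tr n) (Eu n)} (he : e ∈ atlas (Eu n) (Tr n)) :
    ∀ y, e.symm y = pr y := by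
  obtain ⟨x, rfl⟩ := he
  intro y
  rw [IsLocalHomeomorph.localInverseAt_symm]

lemma transition {e : OpenPartialHomeomorph (Tr n) (Eu n)} (he : e ∈ atlas (Eu n) (Tr n)) {y0 : Eu n}
    (h : pr y0 ∈ e.source) :
    ∃ l ∈ lat n, ∀ᶠ y in 𝓝 y0, e (pr y) = y + l := by
  have hcont : ContinuousAt (fun y => e (pr y) - y) y0 := by
    apply ContinuousAt.sub _ continuousAt_id
    exact ContinuousAt.comp (e.continuousAt h) covering.continuous.continuousAt
  have hsrc : ∀ᶠ y in 𝓝 y0, pr y ∈ e.source :=
    covering.continuous.continuousAt.eventually (e.open_source.mem_nhds h)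
  have hmem : ∀ y, pr y ∈ e.source → e (pr y) - y ∈ lat n := by
    intro y hy
    rw [← pr_eq_iff]
    have h2 := e.left_inv hy
    rw [atlas_symm he] at h2
    exact h2.symm
  have hd : ∃ U ∈ 𝓝 (e (pr y0) - y0), ∀ z ∈ U, z ∈ lat n → z = e (pr y0) - y0 := by
    have : IsOpen ({⟨e (pr y0) - y0, hmem y0 h⟩} : Set (lat n)) := isOpen_discrete _
    rw [isOpen_induced_iff] at this
    obtain ⟨U, hU, hU2⟩ := this
    refine ⟨U, hU.mem_nhds ?_, ?_⟩
    · have : (⟨e (pr y0) - y0, hmem y0 h⟩ : lat n) ∈ Subtype.val ⁻¹' U := by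
        rw [hU2]; rfl
      exact this
    · intro z hz hzΛ
      have : (⟨z, hzΛ⟩ : lat n) ∈ Subtype.val ⁻¹' U := hz
      rw [hU2] at this
      exact congrArg Subtype.val this
  obtain ⟨U, hU, hU2⟩ := hd
  refine ⟨e (pr y0) - y0, hmem y0 h, ?_⟩
  filter_upwards [hsrc, hcont.eventually hU] with y hy1 hy2
  have := hU2 _ hy2 (hmem y hy1)
  rw [← this]; abel

instance instIsManifold : IsManifold 𝓘(ℝ, Eu n) ∞ (Tr n) := by
  apply isManifold_of_contDiffOn
  intro e e' he he'
  simp only [modelWithCornersSelf_coe, modelWithCornersSelf_coe_symm, Function.comp_id,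
    Function.id_comp, range_id, inter_univ, preimage_id]
  intro y hy
  apply ContDiffAt.contDiffWithinAt
  have hy2 : pr y ∈ e'.source := by
    have := hy.2
    simpa [atlas_symm he] using this
  obtain ⟨l, hl, hev⟩ := transition he' hy2
  have : (e.symm ≫ₕ e' : Eu n → Eu n) =ᶠ[𝓝 y] fun z => z + l := by
    filter_upwards [hev] with z hz
    simp [atlas_symm he, hz]
  exact ContDiffAt.congr_of_eventuallyEq (by fun_prop) this

/-- The projection has derivative the identity. -/
lemma hasMFDerivAt_pr (x : Eu n) :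
    HasMFDerivAt 𝓘(ℝ, Eu n) 𝓘(ℝ, Eu n) pr x (ContinuousLinearMap.id ℝ (Eu n)) := by
  refine ⟨covering.continuous.continuousAt, ?_⟩
  have hx : pr x ∈ (chartAt (Eu n) (pr x)).source := mem_chart_source _ _
  obtain ⟨l, hl, hev⟩ := transition (chart_mem_atlas (Eu n) (pr x)) hx
  simp only [mfld_simps]
  have h1 : HasFDerivAt (fun y : Eu n => y + l) (ContinuousLinearMap.id ℝ (Eu n)) x :=
    (hasFDerivAt_id x).add_const l
  exact (h1.congr_of_eventuallyEq hev).hasFDerivWithinAt

/-- A function on the torus is smooth if its periodic version is. -/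
theorem contMDiff_of_comp_pr {F : Type} [NormedAddCommGroup F] [NormedSpace ℝ F] {g : Tr n → F}
    (h : ContDiff ℝ ∞ (g ∘ pr)) : ContMDiff 𝓘(ℝ, Eu n) 𝓘(ℝ, F) ∞ g := by
  have hc : Continuous g :=
    (covering.isQuotientMap pr_surj).continuous_iff.2 h.continuous
  rw [contMDiff_iff]
  refine ⟨hc, fun x y => ?_⟩
  have h1 : (extChartAt 𝓘(ℝ, F) y ∘ g ∘ (extChartAt 𝓘(ℝ, Eu n) x).symm) = g ∘ pr := by
    funext z
    have := atlas_symm (chart_mem_atlas (Eu n) x) z
    simp only [Function.comp, extChartAt_coe_symm, modelWithCornersSelf_coe_symm, id_eq, this,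
      extChartAt_model_space_eq_id, PartialEquiv.refl_coe]
  rw [h1]
  exact h.contDiffOn

instance instCompact : CompactSpace (Tr n) := by
  have hK : IsCompact ((WithLp.toLp 2 : (Fin n → ℝ) → Eu n) '' (Set.pi Set.univ fun _ => Set.Icc (0 : ℝ) 1)) := by
    apply IsCompact.image
    · exact isCompact_univ_pi fun _ => isCompact_Icc
    · exact PiLp.continuous_toLp 2 _
  have h : (Set.univ : Set (Tr n)) = pr '' ((WithLp.toLp 2 : (Fin n → ℝ) → Eu n) ''
      (Set.pi Set.univ fun _ => Set.Icc (0 : ℝ) 1)) := by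
    refine (Set.eq_univ_of_forall fun t => ?_).symm
    obtain ⟨x, rfl⟩ := pr_surj t
    refine ⟨WithLp.toLp 2 fun j => Int.fract (x j), ⟨_, fun j _ => ?_, rfl⟩, ?_⟩
    · exact ⟨Int.fract_nonneg _, (Int.fract_lt_one _).le⟩
    · rw [pr_eq_iff]
      intro j
      refine ⟨⌊x j⌋, ?_⟩
      simp
  refine ⟨?_⟩
  rw [h]
  exact hK.image covering.continuous

instance : T2Space (Tr n) := inferInstance

end Pool.Agent.W556.Tor
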