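import Pool.Agent.W556.TubeImm
import Pool.Agent.W556.TorusMfd

open Set Filter Topology Module
open scoped Manifold ContDiff ENNReal

namespace Pool.Agent.W556.Tube

open Pool.Agent.W556.Tor

instance factEu (q : ℕ) : Fact (Module.finrank ℝ (Eu (q + 1)) = q + 1) :=
  ⟨finrank_euclideanSpace_fin⟩

/-- the unit sphere of `ℝ^(q+1)` -/
abbrev Sp (q : ℕ) : Type := Metric.sphere (0 : Eu (q + 1)) 1

/-- the manifold `T^(q+1) × S^q` -/
abbrev XX (q : ℕ) : Type := Tr (q + 1) × Sp q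

/-- the model space -/
abbrev VV (q : ℕ) : Type := Eu (q + 1) × Eu q

noncomputable instance (q : ℕ) : ChartedSpace (VV q) (XX q) :=
  inferInstanceAs (ChartedSpace (ModelProd (Eu (q + 1)) (Eu q)) (Tr (q + 1) × Sp q))

theorem model_eq (q : ℕ) : (𝓘(ℝ, VV q) : ModelWithCorners ℝ (VV q) (VV q)) =
    (𝓘(ℝ, Eu (q + 1)).prod 𝓘(ℝ, Eu q) : ModelWithCorners ℝ (VV q) (VV q)) := modelWithCornersSelf_prod

instance (q : ℕ) : IsManifold 𝓘(ℝ, VV q) ∞ (XX q) := by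
  rw [model_eq]
  exact inferInstanceAs (IsManifold (𝓘(ℝ, Eu (q + 1)).prod 𝓘(ℝ, Eu q)) ∞ (Tr (q + 1) × Sp q))

theorem fst_smooth (q : ℕ) : ContMDiff 𝓘(ℝ, VV q) 𝓘(ℝ, Eu (q + 1)) ∞ (Prod.fst : XX q → Tr (q + 1)) := by
  rw [model_eq]
  exact contMDiff_fst

theorem snd_smooth (q : ℕ) : ContMDiff 𝓘(ℝ, VV q) 𝓘(ℝ, Eu q) ∞ (Prod.snd : XX q → Sp q) := by
  rw [model_eq]
  exact contMDiff_snd

/-- angular functions on the torus -/
noncomputable def trig {n : ℕ} (g : ℝ → ℝ) (hg : Function.Periodic g 1) (j : Fin n) : Tr n → ℝ :=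
  Quotient.lift (fun x : Eu n => g (x j)) (by
    intro a b hab
    have h : -a + b ∈ lat n := QuotientAddGroup.leftRel_apply.1 hab
    obtain ⟨k, hk⟩ := h j
    have h1 : b j = a j + k := by
      rw [PiLp.add_apply, PiLp.neg_apply] at hk
      linarith
    change g (a j) = g (b j)
    rw [h1]
    have := (hg.int_mul k) (a j)
    rw [mul_one] at this
    exact this.symm)

theorem trig_pr {n : ℕ} (g : ℝ → ℝ) (hg : Function.Periodic g 1) (j : Fin n) (x : Eu n) :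
    trig g hg j (pr x) = g (x j) := rfl

theorem trig_smooth {n : ℕ} (g : ℝ → ℝ) (hg : Function.Periodic g 1) (hs : ContDiff ℝ ∞ g) (j : Fin n) :
    ContMDiff 𝓘(ℝ, Eu n) 𝓘(ℝ, ℝ) ∞ (trig g hg j) := by
  apply contMDiff_of_comp_pr
  have : trig g hg j ∘ pr = g ∘ (EuclideanSpace.proj (𝕜 := ℝ) (ι := Fin n) j) := rfl
  rw [this]
  exact hs.comp (EuclideanSpace.proj (𝕜 := ℝ) (ι := Fin n) j).contDiff

theorem trig_deriv {n : ℕ} (g : ℝ → ℝ) (hg : Function.Periodic g 1) (hs : ContDiff ℝ ∞ g) (j : Fin n)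
    (x v : Eu n) : dd (Eu n) (trig g hg j) (pr x) v = deriv g (x j) * v j := by
  have h1 : HasMFDerivAt 𝓘(ℝ, Eu n) 𝓘(ℝ, ℝ) (trig g hg j) (pr x)
      (mfderiv 𝓘(ℝ, Eu n) 𝓘(ℝ, ℝ) (trig g hg j) (pr x)) :=
    ((trig_smooth g hg hs j (pr x)).mdifferentiableAt (by simp)).hasMFDerivAt
  have h2 := h1.comp x (hasMFDerivAt_pr x)
  have h3 : HasFDerivAt (g ∘ (EuclideanSpace.proj (𝕜 := ℝ) (ι := Fin n) j))
      ((deriv g (x j)) • (EuclideanSpace.proj (𝕜 := ℝ) (ι := Fin n) j : Eu n →L[ℝ] ℝ)) x := by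
    have h4 : HasDerivAt g (deriv g (x j)) (x j) := (hs.differentiable (by simp) (x j)).hasDerivAt
    exact h4.comp_hasFDerivAt x (EuclideanSpace.proj (𝕜 := ℝ) (ι := Fin n) j).hasFDerivAt
  have h5 := hasMFDerivAt_unique h2 h3.hasMFDerivAt
  exact congrArg (fun L : Eu n →L[ℝ] ℝ => L v) h5

theorem hasMFDerivAt_fst' {q : ℕ} (x : XX q) :
    HasMFDerivAt 𝓘(ℝ, VV q) 𝓘(ℝ, Eu (q + 1)) (Prod.fst : XX q → Tr (q + 1)) x
      (ContinuousLinearMap.fst ℝ (Eu (q + 1)) (Eu q)) := by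
  rw [model_eq]
  exact hasMFDerivAt_fst x

theorem hasMFDerivAt_snd' {q : ℕ} (x : XX q) :
    HasMFDerivAt 𝓘(ℝ, VV q) 𝓘(ℝ, Eu q) (Prod.snd : XX q → Sp q) x
      (ContinuousLinearMap.snd ℝ (Eu (q + 1)) (Eu q)) := by
  rw [model_eq]
  exact hasMFDerivAt_snd x

theorem dd_fst {q : ℕ} {g : Tr (q + 1) → ℝ} (hg : ContMDiff 𝓘(ℝ, Eu (q + 1)) 𝓘(ℝ, ℝ) ∞ g)
    (x : XX q) (v : VV q) : dd (VV q) (fun y : XX q => g y.1) x v = dd (Eu (q + 1)) g x.1 v.1 := by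
  have h1 : HasMFDerivAt 𝓘(ℝ, Eu (q + 1)) 𝓘(ℝ, ℝ) g x.1
      (mfderiv 𝓘(ℝ, Eu (q + 1)) 𝓘(ℝ, ℝ) g x.1) :=
    ((hg x.1).mdifferentiableAt (by simp)).hasMFDerivAt
  have h2 := (h1.comp x (hasMFDerivAt_fst' x)).mfderiv
  exact congrArg (fun L : VV q →L[ℝ] ℝ => L v) h2

theorem dd_snd {q : ℕ} {F : Type} [NormedAddCommGroup F] [NormedSpace ℝ F] {g : Sp q → F}
    (hg : ContMDiff 𝓘(ℝ, Eu q) 𝓘(ℝ, F) ∞ g)
    (x : XX q) (v : VV q) : dd (VV q) (fun y : XX q => g y.2) x v = dd (Eu q) g x.2 v.2 := by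
  have h1 : HasMFDerivAt 𝓘(ℝ, Eu q) 𝓘(ℝ, F) g x.2
      (mfderiv 𝓘(ℝ, Eu q) 𝓘(ℝ, F) g x.2) :=
    ((hg x.2).mdifferentiableAt (by simp)).hasMFDerivAt
  have h2 := (h1.comp x (hasMFDerivAt_snd' x)).mfderiv
  exact congrArg (fun L : VV q →L[ℝ] F => L v) h2

/-- the coordinates of the sphere -/
def crd {q : ℕ} (j : Fin (q + 1)) (u : Sp q) : ℝ := (u : Eu (q + 1)) j

theorem crd_smooth {q : ℕ} (j : Fin (q + 1)) : ContMDiff 𝓘(ℝ, Eu q) 𝓘(ℝ, ℝ) ∞ (crd (q := q) j) := by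
  have h1 : ContMDiff 𝓘(ℝ, Eu q) 𝓘(ℝ, Eu (q + 1)) ∞ ((↑) : Sp q → Eu (q + 1)) := contMDiff_coe_sphere
  exact (EuclideanSpace.proj (𝕜 := ℝ) (ι := Fin (q + 1)) j).contDiff.contMDiff.comp h1

theorem dd_crd {q : ℕ} (j : Fin (q + 1)) (u : Sp q) (v : Eu q) :
    dd (Eu q) (crd j) u v = (dd (Eu q) ((↑) : Sp q → Eu (q + 1)) u v) j := by
  have h1 : ContMDiff 𝓘(ℝ, Eu q) 𝓘(ℝ, Eu (q + 1)) ∞ ((↑) : Sp q → Eu (q + 1)) := contMDiff_coe_sphere
  have h2 := ((h1 u).mdifferentiableAt (by simp)).hasMFDerivAt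
  have h3 := (EuclideanSpace.proj (𝕜 := ℝ) (ι := Fin (q + 1)) j).hasFDerivAt (x := (u : Eu (q + 1)))
  have h4 := (h3.hasMFDerivAt.comp u h2).mfderiv
  exact congrArg (fun L : Eu q →L[ℝ] ℝ => L v) h4

theorem coe_inj {q : ℕ} (u : Sp q) (v : Eu q) (h : dd (Eu q) ((↑) : Sp q → Eu (q + 1)) u v = 0) :
    v = 0 := by
  have h1 := injective_mvfderiv_subtypeVal_sphere (n := q) (E := Eu (q + 1)) u
  have h2 : (mvfderiv 𝓘(ℝ, Eu q) ((↑) : Sp q → Eu (q + 1)) u : Eu q →L[ℝ] Eu (q + 1)) v = 0 := h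
  apply h1
  change (mvfderiv 𝓘(ℝ, Eu q) ((↑) : Sp q → Eu (q + 1)) u : Eu q →L[ℝ] Eu (q + 1)) v =
    (mvfderiv 𝓘(ℝ, Eu q) ((↑) : Sp q → Eu (q + 1)) u : Eu q →L[ℝ] Eu (q + 1)) 0
  rw [h2, map_zero]

/-- the angular functions -/
noncomputable def ang : Fin 2 → ℝ → ℝ :=
  ![fun s => Real.cos (2 * Real.pi * s), fun s => Real.sin (2 * Real.pi * s)]

theorem ang_periodic (b : Fin 2) : Function.Periodic (ang b) 1 := by
  intro s
  fin_cases b
  · change Real.cos (2 * Real.pi * (s + 1)) = Real.cos (2 * Real.pi * s)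
    rw [mul_add, mul_one, Real.cos_add_two_pi]
  · change Real.sin (2 * Real.pi * (s + 1)) = Real.sin (2 * Real.pi * s)
    rw [mul_add, mul_one, Real.sin_add_two_pi]

theorem ang_smooth (b : Fin 2) : ContDiff ℝ ∞ (ang b) := by
  fin_cases b
  · change ContDiff ℝ ∞ (fun s : ℝ => Real.cos (2 * Real.pi * s))
    fun_prop
  · change ContDiff ℝ ∞ (fun s : ℝ => Real.sin (2 * Real.pi * s))
    fun_prop

theorem ang_sq (s : ℝ) : ang 0 s ^ 2 + ang 1 s ^ 2 = 1 := by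
  change Real.cos (2 * Real.pi * s) ^ 2 + Real.sin (2 * Real.pi * s) ^ 2 = 1
  rw [Real.cos_sq_add_sin_sq]

theorem ang_deriv_ne (s : ℝ) : ¬ (deriv (ang 0) s = 0 ∧ deriv (ang 1) s = 0) := by
  have h0 : deriv (ang 0) s = - Real.sin (2 * Real.pi * s) * (2 * Real.pi) := by
    have : HasDerivAt (fun s : ℝ => Real.cos (2 * Real.pi * s))
        (- Real.sin (2 * Real.pi * s) * (2 * Real.pi)) s := by
      have h := (hasDerivAt_id s).const_mul (2 * Real.pi)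
      simpa using h.cos
    exact this.deriv
  have h1 : deriv (ang 1) s = Real.cos (2 * Real.pi * s) * (2 * Real.pi) := by
    have : HasDerivAt (fun s : ℝ => Real.sin (2 * Real.pi * s))
        (Real.cos (2 * Real.pi * s) * (2 * Real.pi)) s := by
      have h := (hasDerivAt_id s).const_mul (2 * Real.pi)
      simpa using h.sin
    exact this.deriv
  rintro ⟨e0, e1⟩
  rw [h0] at e0
  rw [h1] at e1
  have hpi := Real.pi_pos
  have e2 : Real.sin (2 * Real.pi * s) = 0 := by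
    rcases mul_eq_zero.1 e0 with h | h
    · linarith
    · linarith
  have e3 : Real.cos (2 * Real.pi * s) = 0 := by
    rcases mul_eq_zero.1 e1 with h | h
    · exact h
    · linarith
  have := Real.cos_sq_add_sin_sq (2 * Real.pi * s)
  rw [e2, e3] at this
  norm_num at this

/-- the data of the tube -/
noncomputable def data (q : ℕ) : Data (VV q) (XX q) (q + 1) (2 * q + 1 + 1) where
  e := (finCongr (by ring)).trans finProdFinEquiv.symm
  U j x := crd j x.2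
  W b j x := trig (ang b) (ang_periodic b) j x.1
  hU j := (crd_smooth j).comp (snd_smooth q)
  hW b j := (trig_smooth (ang b) (ang_periodic b) (ang_smooth b) j).comp (fst_smooth q)
  hU1 x := by
    have h := x.2.2
    rw [mem_sphere_zero_iff_norm] at h
    have h2 : ‖(x.2 : Eu (q + 1))‖ ^ 2 = 1 := by rw [h]; norm_num
    rw [EuclideanSpace.norm_sq_eq] at h2
    simpa [crd] using h2
  hW1 j x := by
    obtain ⟨y, hy⟩ := pr_surj x.1
    rw [← hy, trig_pr, trig_pr]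
    exact ang_sq _
  inj x v hUv hWv := by
    obtain ⟨y, hy⟩ := pr_surj x.1
    apply Prod.ext
    · ext j
      have h0 := hWv 0 j
      have h1 := hWv 1 j
      rw [dd_fst (trig_smooth (ang 0) (ang_periodic 0) (ang_smooth 0) j), ← hy,
        trig_deriv (ang 0) (ang_periodic 0) (ang_smooth 0)] at h0
      rw [dd_fst (trig_smooth (ang 1) (ang_periodic 1) (ang_smooth 1) j), ← hy,
        trig_deriv (ang 1) (ang_periodic 1) (ang_smooth 1)] at h1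
      by_contra hv
      have hv' : v.1 j ≠ 0 := hv
      exact ang_deriv_ne (y j) ⟨(mul_eq_zero.1 h0).resolve_right hv', (mul_eq_zero.1 h1).resolve_right hv'⟩
    · apply coe_inj x.2
      ext j
      have h := hUv j
      rw [dd_snd (crd_smooth j), dd_crd] at h
      exact h
  dim := by
    rw [Module.finrank_prod, finrank_euclideanSpace, finrank_euclideanSpace, Fintype.card_fin,
      Fintype.card_fin]
    ring

end Pool.Agent.W556.Tube
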