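import Mathlib

/-! Singular cochains with coefficients in a field, the cup product, and the cup-length. -/

namespace Pool.Agent.W556

/-- Singular `n`-simplices of `X`: continuous maps from the standard `n`-simplex to `X`. -/
abbrev Simp (X : Type) [TopologicalSpace X] (n : ℕ) : Type := C(stdSimplex ℝ (Fin (n + 1)), X)

/-- The singular `p`-simplex obtained from a singular `n`-simplex `σ` and a map of vertices
`v : {0, …, p} → {0, …, n}`, by precomposing `σ` with the affine map of standard simplices which
is `v` on the vertices. -/
noncomputable def Simp.sub {X : Type} [TopologicalSpace X] {n p : ℕ} (σ : Simp X n)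
    (v : Fin (p + 1) → Fin (n + 1)) : Simp X p :=
  σ.comp ⟨stdSimplex.map v, stdSimplex.continuous_map v⟩

/-- Singular cochains of `X` with coefficients in `K`, of all degrees together: a cochain assigns a
scalar to every singular simplex. -/
abbrev Cochain (K : Type) (X : Type) [TopologicalSpace X] : Type := (n : ℕ) → Simp X n → K

variable {K : Type} [Field K] {X : Type} [TopologicalSpace X]

/-- A cochain is homogeneous of degree `p` if it vanishes on all simplices of other dimensions. -/
def IsHomogeneous (p : ℕ) (c : Cochain K X) : Prop := ∀ n, n ≠ p → c n = 0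

/-- The singular coboundary: `(δ c)(σ) = ∑ i, (-1)^i c(σ ∘ i-th face)`. -/
noncomputable def coboundary (c : Cochain K X) : Cochain K X
  | 0 => fun _ => 0
  | n + 1 => fun σ => ∑ i : Fin (n + 2), (-1) ^ (i : ℕ) * c n (σ.sub i.succAbove)

/-- The inclusion of `{0, …, p}` in `{0, …, n}` as the first `p + 1` vertices. -/
def front {n : ℕ} (p : Fin (n + 1)) : Fin (p + 1) → Fin (n + 1) := fun i => ⟨i, by omega⟩

/-- The inclusion of `{0, …, n - p}` in `{0, …, n}` as the last `n - p + 1` vertices. -/
def back {n : ℕ} (p : Fin (n + 1)) : Fin (n - p + 1) → Fin (n + 1) := fun i => ⟨p + i, by omega⟩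

/-- The cup product of cochains: `(a ∪ b)(σ) = ∑ p, a(front p-face of σ) b(back (n-p)-face of σ)`
for a singular `n`-simplex `σ`. -/
noncomputable def cup (a b : Cochain K X) : Cochain K X := fun n σ =>
  ∑ p : Fin (n + 1), a p (σ.sub (front p)) * b (n - p) (σ.sub (back p))

/-- The unit cochain: `1` on every `0`-simplex and `0` in other degrees. -/
def unit : Cochain K X
  | 0 => fun _ => 1
  | _ + 1 => fun _ => 0

/-- The cup product of `l` cochains. -/
noncomputable def cupProd : (l : ℕ) → (Fin l → Cochain K X) → Cochain K X
  | 0, _ => unit
  | l + 1, h => cup (h 0) (cupProd l fun i => h i.succ)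

/-- `X` has cup-length at least `l` over `K`: there are singular cohomology classes of positive
degrees, represented by cocycles `h 0, …, h (l - 1)`, whose cup product is not zero in the
cohomology of `X` with coefficients in `K`, that is, is not a coboundary. -/
def CupLengthAtLeast (K : Type) [Field K] (X : Type) [TopologicalSpace X] (l : ℕ) : Prop :=
  ∃ h : Fin l → Cochain K X,
    (∀ i, coboundary (h i) = 0 ∧ ∃ p, 1 ≤ p ∧ IsHomogeneous p (h i)) ∧
      ¬ ∃ b : Cochain K X, coboundary b = cupProd l h

end Pool.Agent.W556
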