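import Pool.Agent.W556.CupDefs

namespace Pool.Agent.W556

variable {X : Type} [TopologicalSpace X]

theorem isCov : IsCoveringMap ((↑) : ℝ → AddCircle (1 : ℝ)) := AddCircle.isCoveringMap_coe 1

/-- straight line from vertex 0 -/
noncomputable def cone (p : ℕ) : C(unitInterval × stdSimplex ℝ (Fin (p + 1)), stdSimplex ℝ (Fin (p + 1))) where
  toFun tx := ⟨(1 - (tx.1 : ℝ)) • (stdSimplex.vertex (S := ℝ) (0 : Fin (p + 1)) : Fin (p + 1) → ℝ)
      + (tx.1 : ℝ) • (tx.2 : Fin (p + 1) → ℝ),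
    (convex_stdSimplex ℝ (Fin (p + 1))) (Subtype.property _) (Subtype.property _)
      (by have := tx.1.2.2; linarith) tx.1.2.1 (by ring)⟩
  continuous_toFun := by
    apply Continuous.subtype_mk
    fun_prop

theorem exists_lift {p : ℕ} (g : C(stdSimplex ℝ (Fin (p + 1)), AddCircle (1 : ℝ))) :
    ∃ G : C(stdSimplex ℝ (Fin (p + 1)), ℝ), ∀ x, ((G x : ℝ) : AddCircle (1 : ℝ)) = g x := by
  obtain ⟨e, he⟩ := QuotientAddGroup.mk_surjective (g (stdSimplex.vertex (S := ℝ) 0))
  have H0 : ∀ a, (g.comp (cone p)) (0, a) =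
      ((↑) : ℝ → AddCircle (1 : ℝ)) ((ContinuousMap.const (stdSimplex ℝ (Fin (p + 1))) e) a) := by
    intro a
    change g (cone p (0, a)) = ((e : ℝ) : AddCircle (1 : ℝ))
    have : cone p (0, a) = stdSimplex.vertex (S := ℝ) 0 := by
      apply Subtype.ext
      simp [cone]
    rw [this]
    exact he.symm
  let L := isCov.liftHomotopy (g.comp (cone p)) (ContinuousMap.const _ e) H0
  have hL := isCov.liftHomotopy_lifts (g.comp (cone p)) (ContinuousMap.const _ e) H0
  refine ⟨L.comp ((ContinuousMap.const _ (1 : unitInterval)).prodMk (ContinuousMap.id _)), fun x => ?_⟩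
  have h1 := congrFun hL (1, x)
  change ((L (1, x) : ℝ) : AddCircle (1 : ℝ)) = g x
  have h2 : cone p (1, x) = x := by
    apply Subtype.ext
    change (1 - ((1 : unitInterval) : ℝ)) • _ + ((1 : unitInterval) : ℝ) • _ = _
    rw [show ((1 : unitInterval) : ℝ) = 1 from rfl, sub_self, zero_smul, one_smul, zero_add]
    rfl
  calc ((L (1, x) : ℝ) : AddCircle (1 : ℝ)) = g (cone p (1, x)) := h1
    _ = g x := by rw [h2]

/-- two lifts of the same map have the same differences -/
theorem lift_diff {A : Type} [TopologicalSpace A] [PreconnectedSpace A] {G G' : A → ℝ}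
    (hG : Continuous G) (hG' : Continuous G')
    (h : ∀ x, ((G x : ℝ) : AddCircle (1 : ℝ)) = (G' x : ℝ)) (x y : A) :
    G y - G x = G' y - G' x := by
  have h0 : G = fun z => G' z + (G x - G' x) := by
    apply isCov.eq_of_comp_eq hG (hG'.add continuous_const) _ x (by simp)
    funext z
    simp only [Function.comp]
    change ((G z : ℝ) : AddCircle (1 : ℝ)) = ((G' z + (G x - G' x) : ℝ) : AddCircle (1 : ℝ))
    rw [AddCircle.coe_add, AddCircle.coe_sub, h x, h z, sub_self, add_zero]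
  have h1 : G y = G' y + (G x - G' x) := congrFun h0 y
  linarith

/-- a lift of a map from a simplex to the circle -/
noncomputable def lft {p : ℕ} (g : C(stdSimplex ℝ (Fin (p + 1)), AddCircle (1 : ℝ))) :
    C(stdSimplex ℝ (Fin (p + 1)), ℝ) := (exists_lift g).choose

theorem lft_spec {p : ℕ} (g : C(stdSimplex ℝ (Fin (p + 1)), AddCircle (1 : ℝ))) (x) :
    ((lft g x : ℝ) : AddCircle (1 : ℝ)) = g x := (exists_lift g).choose_spec x

/-- the vertex -/
noncomputable abbrev vtx {n : ℕ} (i : Fin (n + 1)) : stdSimplex ℝ (Fin (n + 1)) :=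
  stdSimplex.vertex (S := ℝ) i

/-- displacement cochain of a map to the circle -/
noncomputable def dispCochain (c : C(X, AddCircle (1 : ℝ))) : Cochain ℝ X
  | 1 => fun σ => lft (c.comp σ) (vtx 1) - lft (c.comp σ) (vtx 0)
  | 0 => fun _ => 0
  | _ + 2 => fun _ => 0

theorem dispCochain_hom (c : C(X, AddCircle (1 : ℝ))) : IsHomogeneous 1 (dispCochain c) := by
  intro n hn
  match n with
  | 0 => rfl
  | 1 => exact absurd rfl hn
  | _ + 2 => rfl

/-- displacement along an edge computed from any lift -/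
theorem disp_sub (c : C(X, AddCircle (1 : ℝ))) {n : ℕ} (σ : Simp X n) (G : stdSimplex ℝ (Fin (n + 1)) → ℝ)
    (hG : Continuous G) (h : ∀ x, ((G x : ℝ) : AddCircle (1 : ℝ)) = c (σ x))
    (v : Fin 2 → Fin (n + 1)) :
    dispCochain c 1 (σ.sub v) = G (vtx (v 1)) - G (vtx (v 0)) := by
  change lft (c.comp (σ.sub v)) (vtx 1) - lft (c.comp (σ.sub v)) (vtx 0) = _
  have h1 := lift_diff (A := stdSimplex ℝ (Fin (1 + 1))) (G := lft (c.comp (σ.sub v)))
    (G' := fun x => G (stdSimplex.map v x))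
    (lft (c.comp (σ.sub v))).continuous (hG.comp (stdSimplex.continuous_map v))
    (fun x => by
      rw [lft_spec, h]
      rfl) (vtx 0) (vtx 1)
  rw [h1]
  simp only [stdSimplex.map_vertex]

theorem disp_cocycle (c : C(X, AddCircle (1 : ℝ))) : coboundary (dispCochain c) = 0 := by
  funext n σ
  match n, σ with
  | 0, σ => rfl
  | 1, σ =>
    change ∑ i : Fin 2, (-1 : ℝ) ^ (i : ℕ) * dispCochain c 0 (σ.sub i.succAbove) = 0
    apply Finset.sum_eq_zero
    intro i _
    change (-1 : ℝ) ^ (i : ℕ) * 0 = 0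
    ring
  | 2, σ =>
    change ∑ i : Fin 3, (-1 : ℝ) ^ (i : ℕ) * dispCochain c 1 (σ.sub i.succAbove) = 0
    have h : ∀ v : Fin 2 → Fin 3, dispCochain c 1 (σ.sub v) =
        lft (c.comp σ) (vtx (v 1)) - lft (c.comp σ) (vtx (v 0)) := fun v =>
      disp_sub c σ (lft (c.comp σ)) (lft (c.comp σ)).continuous (fun x => lft_spec _ x) v
    rw [Fin.sum_univ_three, h, h, h]
    have e1 : (0 : Fin 3).succAbove (1 : Fin 2) = 2 := rfl
    have e2 : (0 : Fin 3).succAbove (0 : Fin 2) = 1 := rfl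
    have e3 : (1 : Fin 3).succAbove (1 : Fin 2) = 2 := rfl
    have e4 : (1 : Fin 3).succAbove (0 : Fin 2) = 0 := rfl
    have e5 : (2 : Fin 3).succAbove (1 : Fin 2) = 1 := rfl
    have e6 : (2 : Fin 3).succAbove (0 : Fin 2) = 0 := rfl
    rw [e1, e2, e3, e4, e5, e6]
    simp only [Fin.val_zero, Fin.val_one, Fin.val_two]
    ring
  | n + 3, σ =>
    change ∑ i : Fin (n + 2 + 2), (-1 : ℝ) ^ (i : ℕ) * dispCochain c (n + 2) (σ.sub i.succAbove) = 0
    apply Finset.sum_eq_zero
    intro i _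
    change (-1 : ℝ) ^ (i : ℕ) * 0 = 0
    ring

/-- the edge from `i` to `i + 1` -/
def edge {l : ℕ} (i : Fin l) : Fin 2 → Fin (l + 1) := ![i.castSucc, i.succ]

theorem sub_sub {n p q : ℕ} (σ : Simp X n) (v : Fin (p + 1) → Fin (n + 1))
    (w : Fin (q + 1) → Fin (p + 1)) : (σ.sub v).sub w = σ.sub (v ∘ w) := by
  refine ContinuousMap.ext fun x => ?_
  change σ (stdSimplex.map v (stdSimplex.map w x)) = σ (stdSimplex.map (v ∘ w) x)
  congr 1
  exact stdSimplex.map_comp_apply w v x

theorem cupProd_deg_one (l : ℕ) (h : Fin l → Cochain ℝ X) (hh : ∀ i, IsHomogeneous 1 (h i))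
    (σ : Simp X l) : cupProd l h l σ = ∏ i : Fin l, h i 1 (σ.sub (edge i)) := by
  induction l with
  | zero => rfl
  | succ l ih =>
    change ∑ p : Fin (l + 1 + 1), h 0 p (σ.sub (front p)) *
      cupProd l (fun i => h i.succ) (l + 1 - p) (σ.sub (back p)) = _
    rw [Fin.sum_univ_succ, Fin.sum_univ_succ]
    have z0 : h 0 (0 : Fin (l + 1 + 1)) = 0 := hh 0 0 (by norm_num)
    have z2 : ∀ i : Fin l, h 0 (i.succ.succ : Fin (l + 1 + 1)) = 0 := fun i =>
      hh 0 _ (by simp [Fin.val_succ])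
    rw [z0]
    have hz : ∑ i : Fin l, h 0 (i.succ.succ : Fin (l + 1 + 1)) (σ.sub (front i.succ.succ)) *
        cupProd l (fun i => h i.succ) (l + 1 - (i.succ.succ : Fin (l + 1 + 1)))
          (σ.sub (back i.succ.succ)) = 0 := by
      apply Finset.sum_eq_zero
      intro i _
      rw [z2 i]
      simp
    rw [hz, Fin.prod_univ_succ]
    simp only [Pi.zero_apply, zero_mul, zero_add, add_zero]
    have e1 : h 0 ((Fin.succ (0 : Fin (l + 1)) : Fin (l + 1 + 1)) : ℕ)
        (σ.sub (front (Fin.succ (0 : Fin (l + 1))))) = h 0 1 (σ.sub (edge 0)) := by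
      change h 0 1 _ = _
      congr 2
      funext i
      fin_cases i <;> rfl
    have e2 : cupProd l (fun i => h i.succ) (l + 1 - (Fin.succ (0 : Fin (l + 1)) : Fin (l + 1 + 1)))
        (σ.sub (back (Fin.succ (0 : Fin (l + 1))))) = ∏ i : Fin l, h i.succ 1 (σ.sub (edge i.succ)) := by
      change cupProd l (fun i => h i.succ) l (σ.sub (p := l) (back (Fin.succ (0 : Fin (l + 1))))) = _
      rw [ih (fun i => h i.succ) (fun i => hh _)]
      refine Finset.prod_congr rfl fun i _ => ?_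
      congr 1
      refine (sub_sub (n := l + 1) (p := l) (q := 1) σ (back (Fin.succ (0 : Fin (l + 1))))
        (edge i)).trans ?_
      congr 1
      funext k
      apply Fin.ext
      fin_cases k
      · change 1 + (i : ℕ) = i + 1
        omega
      · change 1 + ((i : ℕ) + 1) = i + 1 + 1
        omega
    rw [e1, e2]

end Pool.Agent.W556
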