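import Pool.Agent.W556.ImmDefs

open Set Filter Topology
open scoped Manifold ContDiff ENNReal

namespace Pool.Agent.W556.Tube

variable {l : ℕ}

/-- one-variable computation -/
theorem core {r : ℝ} (hr : 0 < r) (u : Fin l → ℝ → ℝ) (w : Fin 2 → Fin l → ℝ → ℝ)
    (hu : ∀ j, ContDiff ℝ ∞ (u j)) (hw : ∀ b j, ContDiff ℝ ∞ (w b j))
    (hu1 : ∀ t, ∑ j, u j t ^ 2 = 1) (hw1 : ∀ j t, w 0 j t ^ 2 + w 1 j t ^ 2 = 1)
    (hsp : ∑ j, ∑ b, (deriv (fun t => (2 * r + r * u j t) * w b j t) 0) ^ 2 = 1) :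
    |∑ j, ∑ b, u j 0 * w b j 0 * deriv (deriv (fun t => (2 * r + r * u j t) * w b j t)) 0| ≤ 1 / r := by
  have du : ∀ j t, HasDerivAt (u j) (deriv (u j) t) t := fun j t =>
    ((hu j).differentiable (by simp) t).hasDerivAt
  have dw : ∀ b j t, HasDerivAt (w b j) (deriv (w b j) t) t := fun b j t =>
    ((hw b j).differentiable (by simp) t).hasDerivAt
  have dg : ∀ b j t, HasDerivAt (fun t => (2 * r + r * u j t) * w b j t)
      (r * deriv (u j) t * w b j t + (2 * r + r * u j t) * deriv (w b j) t) t := fun b j t =>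
    (((du j t).const_mul r).const_add (2 * r)).mul (dw b j t)
  have hg : ∀ b j, ContDiff ℝ ∞ (fun t => (2 * r + r * u j t) * w b j t) := fun b j =>
    (contDiff_const.add (contDiff_const.mul (hu j))).mul (hw b j)
  have dg1 : ∀ b j, deriv (fun t => (2 * r + r * u j t) * w b j t) =
      fun t => r * deriv (u j) t * w b j t + (2 * r + r * u j t) * deriv (w b j) t := fun b j =>
    funext fun t => (dg b j t).deriv
  have hdg : ∀ b j, Differentiable ℝ (deriv (fun t => (2 * r + r * u j t) * w b j t)) := fun b j =>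
    ((contDiff_infty_iff_deriv.1 (hg b j)).2).differentiable (by simp)
  -- derived identities
  have iu : ∀ t, ∑ j, u j t * deriv (u j) t = 0 := by
    intro t
    have h1 : HasDerivAt (fun t => ∑ j, u j t ^ 2) (∑ j, 2 * (u j t * deriv (u j) t)) t := by
      apply HasDerivAt.fun_sum
      intro j _
      have h := (du j t).fun_pow 2
      exact h.congr_deriv (by push_cast; ring)
    have h2 : HasDerivAt (fun t => ∑ j, u j t ^ 2) 0 t := by
      have : (fun t => ∑ j, u j t ^ 2) = fun _ => (1 : ℝ) := funext hu1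
      rw [this]
      exact hasDerivAt_const t 1
    have h3 := h1.unique h2
    rw [← Finset.mul_sum] at h3
    linarith
  have iw : ∀ j t, w 0 j t * deriv (w 0 j) t + w 1 j t * deriv (w 1 j) t = 0 := by
    intro j t
    have h1 : HasDerivAt (fun t => w 0 j t ^ 2 + w 1 j t ^ 2)
        (2 * (w 0 j t * deriv (w 0 j) t + w 1 j t * deriv (w 1 j) t)) t := by
      have h := ((dw 0 j t).fun_pow 2).fun_add ((dw 1 j t).fun_pow 2)
      exact h.congr_deriv (by push_cast; ring)
    have h2 : HasDerivAt (fun t => w 0 j t ^ 2 + w 1 j t ^ 2) 0 t := by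
      have : (fun t => w 0 j t ^ 2 + w 1 j t ^ 2) = fun _ => (1 : ℝ) := funext (hw1 j)
      rw [this]
      exact hasDerivAt_const t 1
    have h3 := h1.unique h2
    linarith
  -- the normal is orthogonal to the velocity
  have hn : ∀ t, ∑ j, ∑ b, u j t * w b j t * deriv (fun t => (2 * r + r * u j t) * w b j t) t = 0 := by
    intro t
    have : ∀ j, ∑ b, u j t * w b j t * deriv (fun t => (2 * r + r * u j t) * w b j t) t =
        r * (u j t * deriv (u j) t) := by
      intro j
      rw [Fin.sum_univ_two, dg1, dg1]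
      have h1 := hw1 j t
      have h2 := iw j t
      linear_combination (u j t * r * deriv (u j) t) * h1 + u j t * (2 * r + r * u j t) * h2
    simp_rw [this]
    rw [← Finset.mul_sum, iu, mul_zero]
  -- differentiate
  have h1 : HasDerivAt (fun t => ∑ j, ∑ b, u j t * w b j t *
      deriv (fun t => (2 * r + r * u j t) * w b j t) t)
      (∑ j, ∑ b, ((deriv (u j) 0 * w b j 0 + u j 0 * deriv (w b j) 0) *
        deriv (fun t => (2 * r + r * u j t) * w b j t) 0 +
        u j 0 * w b j 0 * deriv (deriv (fun t => (2 * r + r * u j t) * w b j t)) 0)) 0 := by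
    apply HasDerivAt.fun_sum
    intro j _
    apply HasDerivAt.fun_sum
    intro b _
    exact ((du j 0).mul (dw b j 0)).mul (hdg b j 0).hasDerivAt
  have h2 : HasDerivAt (fun t => ∑ j, ∑ b, u j t * w b j t *
      deriv (fun t => (2 * r + r * u j t) * w b j t) t) 0 0 := by
    have : (fun t => ∑ j, ∑ b, u j t * w b j t *
      deriv (fun t => (2 * r + r * u j t) * w b j t) t) = fun _ => (0 : ℝ) := funext hn
    rw [this]
    exact hasDerivAt_const 0 0
  have h3 := h1.unique h2
  simp_rw [Finset.sum_add_distrib] at h3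
  have h4 : ∑ j, ∑ b, u j 0 * w b j 0 * deriv (deriv (fun t => (2 * r + r * u j t) * w b j t)) 0 =
      - ∑ j, ∑ b, (deriv (u j) 0 * w b j 0 + u j 0 * deriv (w b j) 0) *
        deriv (fun t => (2 * r + r * u j t) * w b j t) 0 := by linarith
  rw [h4, abs_neg]
  have h5 : ∀ j, ∑ b, (deriv (u j) 0 * w b j 0 + u j 0 * deriv (w b j) 0) *
        deriv (fun t => (2 * r + r * u j t) * w b j t) 0 =
      r * deriv (u j) 0 ^ 2 + u j 0 * (2 * r + r * u j 0) *
        (deriv (w 0 j) 0 ^ 2 + deriv (w 1 j) 0 ^ 2) := by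
    intro j
    rw [Fin.sum_univ_two, dg1, dg1]
    have e1 := hw1 j 0
    have e2 := iw j 0
    linear_combination (r * deriv (u j) 0 ^ 2) * e1 +
      (deriv (u j) 0 * (2 * r + r * u j 0) + u j 0 * r * deriv (u j) 0) * e2
  have h6 : ∀ j, ∑ b, (deriv (fun t => (2 * r + r * u j t) * w b j t) 0) ^ 2 =
      r ^ 2 * deriv (u j) 0 ^ 2 + (2 * r + r * u j 0) ^ 2 *
        (deriv (w 0 j) 0 ^ 2 + deriv (w 1 j) 0 ^ 2) := by
    intro j
    rw [Fin.sum_univ_two, dg1, dg1]
    have e1 := hw1 j 0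
    have e2 := iw j 0
    linear_combination (r ^ 2 * deriv (u j) 0 ^ 2) * e1 +
      (2 * r * deriv (u j) 0 * (2 * r + r * u j 0)) * e2
  have hub : ∀ j, |u j 0| ≤ 1 := by
    intro j
    have := hu1 0
    have h7 : u j 0 ^ 2 ≤ 1 := by
      rw [← this]
      exact Finset.single_le_sum (f := fun j => u j 0 ^ 2) (fun i _ => sq_nonneg _) (Finset.mem_univ j)
    exact abs_le_one_iff_mul_self_le_one.2 (by nlinarith)
  calc |∑ j, ∑ b, (deriv (u j) 0 * w b j 0 + u j 0 * deriv (w b j) 0) *
        deriv (fun t => (2 * r + r * u j t) * w b j t) 0|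
      = |∑ j, (r * deriv (u j) 0 ^ 2 + u j 0 * (2 * r + r * u j 0) *
        (deriv (w 0 j) 0 ^ 2 + deriv (w 1 j) 0 ^ 2))| := by simp_rw [h5]
    _ ≤ ∑ j, |r * deriv (u j) 0 ^ 2 + u j 0 * (2 * r + r * u j 0) *
        (deriv (w 0 j) 0 ^ 2 + deriv (w 1 j) 0 ^ 2)| := Finset.abs_sum_le_sum_abs _ _
    _ ≤ ∑ j, (1 / r) * (r ^ 2 * deriv (u j) 0 ^ 2 + (2 * r + r * u j 0) ^ 2 *
        (deriv (w 0 j) 0 ^ 2 + deriv (w 1 j) 0 ^ 2)) := by
        refine Finset.sum_le_sum fun j _ => ?_
        have hb := abs_le.1 (hub j)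
        set A := deriv (u j) 0 ^ 2 with hA
        set B := deriv (w 0 j) 0 ^ 2 + deriv (w 1 j) 0 ^ 2 with hB
        have hA0 : 0 ≤ A := sq_nonneg _
        have hB0 : 0 ≤ B := add_nonneg (sq_nonneg _) (sq_nonneg _)
        have e1 : (1 / r) * (r ^ 2 * A + (2 * r + r * u j 0) ^ 2 * B) =
            r * A + r * (2 + u j 0) ^ 2 * B := by
          field_simp
        rw [e1]
        have hrB : 0 ≤ r * B := mul_nonneg hr.le hB0
        have hrA : 0 ≤ r * A := mul_nonneg hr.le hA0
        rw [abs_le]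
        constructor
        · have : 0 ≤ r * B * ((2 + u j 0) ^ 2 + u j 0 * (2 + u j 0)) := by
            apply mul_nonneg hrB
            nlinarith
          nlinarith
        · have : 0 ≤ r * B * ((2 + u j 0) ^ 2 - u j 0 * (2 + u j 0)) := by
            apply mul_nonneg hrB
            nlinarith
          nlinarith
    _ = 1 / r := by
        rw [← Finset.mul_sum]
        simp_rw [← h6]
        rw [hsp, mul_one]

end Pool.Agent.W556.Tube
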