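import Pool.Agent.W556.TubeCurv

open Set Filter Topology
open scoped Manifold ContDiff ENNReal

namespace Pool.Agent.W556.Tube

/-- the differential of a map to a vector space -/
noncomputable def dd (V : Type) [NormedAddCommGroup V] [NormedSpace ℝ V] {X : Type}
    [TopologicalSpace X] [ChartedSpace V X] {F : Type} [NormedAddCommGroup F] [NormedSpace ℝ F]
    (g : X → F) (x : X) : V →L[ℝ] F := mfderiv 𝓘(ℝ, V) 𝓘(ℝ, F) g x

/-- derivative of a smooth function in the chart -/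
theorem hasFDerivAt_chart {V : Type} [NormedAddCommGroup V] [NormedSpace ℝ V] {X : Type}
    [TopologicalSpace X] [ChartedSpace V X] {F : Type} [NormedAddCommGroup F] [NormedSpace ℝ F]
    {g : X → F} (hg : ContMDiff 𝓘(ℝ, V) 𝓘(ℝ, F) ∞ g) (x : X) :
    HasFDerivAt (fun y => g ((extChartAt 𝓘(ℝ, V) x).symm y))
      (dd V g x) (extChartAt 𝓘(ℝ, V) x x) := by
  have h1 : MDifferentiableAt 𝓘(ℝ, V) 𝓘(ℝ, F) g x := (hg x).mdifferentiableAt (by simp)
  have h2 : HasFDerivWithinAt (fun y => g ((extChartAt 𝓘(ℝ, V) x).symm y)) (dd V g x)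
    (range 𝓘(ℝ, V)) (extChartAt 𝓘(ℝ, V) x x) := h1.hasMFDerivAt.2
  rw [modelWithCornersSelf_coe, range_id, hasFDerivWithinAt_univ] at h2
  exact h2

structure Data (V X : Type) [NormedAddCommGroup V] [NormedSpace ℝ V] [TopologicalSpace X]
    [ChartedSpace V X] (l N : ℕ) where
  e : Fin N ≃ Fin l × Fin 2
  U : Fin l → X → ℝ
  W : Fin 2 → Fin l → X → ℝ
  hU : ∀ j, ContMDiff 𝓘(ℝ, V) 𝓘(ℝ, ℝ) ∞ (U j)
  hW : ∀ b j, ContMDiff 𝓘(ℝ, V) 𝓘(ℝ, ℝ) ∞ (W b j)
  hU1 : ∀ x, ∑ j, U j x ^ 2 = 1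
  hW1 : ∀ j x, W 0 j x ^ 2 + W 1 j x ^ 2 = 1
  inj : ∀ x (v : V), (∀ j, dd V (U j) x v = 0) →
    (∀ b j, dd V (W b j) x v = 0) → v = 0
  dim : Module.finrank ℝ V + 1 = N

variable {V X : Type} [NormedAddCommGroup V] [NormedSpace ℝ V] [TopologicalSpace X]
    [ChartedSpace V X] {l N : ℕ}

namespace Data

variable (D : Data V X l N) (r : ℝ)

/-- coordinates of the map -/
noncomputable def fc (i : Fin N) (x : X) : ℝ :=
  (2 * r + r * D.U (D.e i).1 x) * D.W (D.e i).2 (D.e i).1 x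

/-- the map -/
noncomputable def f (x : X) : EuclideanSpace ℝ (Fin N) := WithLp.toLp 2 fun i => D.fc r i x

/-- the normal -/
noncomputable def nrm (x : X) : EuclideanSpace ℝ (Fin N) :=
  WithLp.toLp 2 fun i => D.U (D.e i).1 x * D.W (D.e i).2 (D.e i).1 x

theorem fc_smooth (i : Fin N) : ContMDiff 𝓘(ℝ, V) 𝓘(ℝ, ℝ) ∞ (D.fc r i) := by
  have h1 : ContMDiff 𝓘(ℝ, V) 𝓘(ℝ, ℝ) ∞ (fun x => 2 * r + r * D.U (D.e i).1 x) := by
    have h2 : ContDiff ℝ ∞ (fun s : ℝ => 2 * r + r * s) := by fun_prop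
    exact h2.contMDiff.comp (D.hU _)
  exact h1.mul (D.hW _ _)

theorem f_smooth : ContMDiff 𝓘(ℝ, V) 𝓘(ℝ, EuclideanSpace ℝ (Fin N)) ∞ (D.f r) := by
  have h1 : ContMDiff 𝓘(ℝ, V) 𝓘(ℝ, Fin N → ℝ) ∞ (fun x i => D.fc r i x) :=
    contMDiff_pi_space.2 fun i => D.fc_smooth r i
  have h2 : ContDiff ℝ ∞ (WithLp.toLp 2 : (Fin N → ℝ) → EuclideanSpace ℝ (Fin N)) :=
    (PiLp.continuousLinearEquiv 2 ℝ (fun _ : Fin N => ℝ)).symm.contDiff
  exact h2.contMDiff.comp h1

theorem sum_e (F : Fin l → Fin 2 → ℝ) : ∑ i, F (D.e i).1 (D.e i).2 = ∑ j, ∑ b, F j b := by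
  rw [← Fintype.sum_prod_type' (f := F), ← Equiv.sum_comp D.e]

theorem sum_e' {G : Fin N → ℝ} (F : Fin l → Fin 2 → ℝ) (h : ∀ i, G i = F (D.e i).1 (D.e i).2) :
    ∑ i, G i = ∑ j, ∑ b, F j b := by
  rw [← D.sum_e F]
  exact Finset.sum_congr rfl fun i _ => h i

/-- derivative of the `i`-th coordinate -/
theorem diff_apply (x : X) (v : V) (i : Fin N) :
    differential V (D.f r) x v i =
      r * dd V (D.U (D.e i).1) x v * D.W (D.e i).2 (D.e i).1 x +
      (2 * r + r * D.U (D.e i).1 x) *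
        dd V (D.W (D.e i).2 (D.e i).1) x v := by
  have h1 := hasFDerivAt_chart (D.f_smooth r) x
  have hU := hasFDerivAt_chart (D.hU (D.e i).1) x
  have hW := hasFDerivAt_chart (D.hW (D.e i).2 (D.e i).1) x
  have h2 := (EuclideanSpace.proj (𝕜 := ℝ) (ι := Fin N) i).hasFDerivAt.comp
    (extChartAt 𝓘(ℝ, V) x x) h1
  have h3 := ((hU.const_mul r).const_add (2 * r)).mul hW
  have h4 := h2.unique h3
  have h5 := congrArg (fun L : V →L[ℝ] ℝ => L v) h4
  have hx : (extChartAt 𝓘(ℝ, V) x).symm (extChartAt 𝓘(ℝ, V) x x) = x := extChartAt_to_inv x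
  simp only [ContinuousLinearMap.comp_apply, add_apply,
    smul_apply, smul_eq_mul, hx] at h5
  have h6 : differential V (D.f r) x v i = _ := h5
  rw [h6]
  ring

theorem sum_U_dU (x : X) (v : V) :
    ∑ j, D.U j x * dd V (D.U j) x v = 0 := by
  have hx : (extChartAt 𝓘(ℝ, V) x).symm (extChartAt 𝓘(ℝ, V) x x) = x := extChartAt_to_inv x
  have h1 : HasFDerivAt (fun y => ∑ j, D.U j ((extChartAt 𝓘(ℝ, V) x).symm y) *
      D.U j ((extChartAt 𝓘(ℝ, V) x).symm y)) _ (extChartAt 𝓘(ℝ, V) x x) :=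
    HasFDerivAt.fun_sum fun j _ => (hasFDerivAt_chart (D.hU j) x).mul (hasFDerivAt_chart (D.hU j) x)
  have h2 : HasFDerivAt (fun y => ∑ j, D.U j ((extChartAt 𝓘(ℝ, V) x).symm y) *
      D.U j ((extChartAt 𝓘(ℝ, V) x).symm y)) (0 : V →L[ℝ] ℝ) (extChartAt 𝓘(ℝ, V) x x) := by
    have : (fun y => ∑ j, D.U j ((extChartAt 𝓘(ℝ, V) x).symm y) *
      D.U j ((extChartAt 𝓘(ℝ, V) x).symm y)) = fun _ => (1 : ℝ) := by
      funext y
      rw [← D.hU1 ((extChartAt 𝓘(ℝ, V) x).symm y)]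
      exact Finset.sum_congr rfl fun j _ => (sq _).symm
    rw [this]
    exact hasFDerivAt_const _ _
  have h3 := congrArg (fun L : V →L[ℝ] ℝ => L v) (h1.unique h2)
  simp only [sum_apply, add_apply,
    smul_apply, smul_eq_mul, hx, zero_apply] at h3
  simp_rw [← two_mul] at h3
  rw [← Finset.mul_sum] at h3
  linarith

theorem sum_W_dW (j : Fin l) (x : X) (v : V) :
    D.W 0 j x * dd V (D.W 0 j) x v +
      D.W 1 j x * dd V (D.W 1 j) x v = 0 := by
  have hx : (extChartAt 𝓘(ℝ, V) x).symm (extChartAt 𝓘(ℝ, V) x x) = x := extChartAt_to_inv x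
  have h1 := ((hasFDerivAt_chart (D.hW 0 j) x).fun_mul (hasFDerivAt_chart (D.hW 0 j) x)).fun_add
    ((hasFDerivAt_chart (D.hW 1 j) x).fun_mul (hasFDerivAt_chart (D.hW 1 j) x))
  have h2 : HasFDerivAt (fun y => D.W 0 j ((extChartAt 𝓘(ℝ, V) x).symm y) *
      D.W 0 j ((extChartAt 𝓘(ℝ, V) x).symm y) + D.W 1 j ((extChartAt 𝓘(ℝ, V) x).symm y) *
      D.W 1 j ((extChartAt 𝓘(ℝ, V) x).symm y)) (0 : V →L[ℝ] ℝ) (extChartAt 𝓘(ℝ, V) x x) := by
    have : (fun y => D.W 0 j ((extChartAt 𝓘(ℝ, V) x).symm y) *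
      D.W 0 j ((extChartAt 𝓘(ℝ, V) x).symm y) + D.W 1 j ((extChartAt 𝓘(ℝ, V) x).symm y) *
      D.W 1 j ((extChartAt 𝓘(ℝ, V) x).symm y)) = fun _ => (1 : ℝ) := by
      funext y
      rw [← D.hW1 j ((extChartAt 𝓘(ℝ, V) x).symm y)]
      ring
    rw [this]
    exact hasFDerivAt_const _ _
  have h3 := congrArg (fun L : V →L[ℝ] ℝ => L v) (h1.unique h2)
  simp only [add_apply,
    smul_apply, smul_eq_mul, hx, zero_apply] at h3
  linarith

theorem U_le (x : X) (j : Fin l) : |D.U j x| ≤ 1 := by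
  have h7 : D.U j x ^ 2 ≤ 1 := by
    rw [← D.hU1 x]
    exact Finset.single_le_sum (f := fun j => D.U j x ^ 2) (fun i _ => sq_nonneg _)
      (Finset.mem_univ j)
  exact abs_le_one_iff_mul_self_le_one.2 (by nlinarith)

theorem rho_pos {r : ℝ} (hr : 0 < r) (x : X) (j : Fin l) : 0 < 2 * r + r * D.U j x := by
  have := abs_le.1 (D.U_le x j)
  nlinarith

theorem immersion {r : ℝ} (hr : 0 < r) : IsImmersion V (D.f r) := by
  refine ⟨D.f_smooth r, fun x => ?_⟩
  rw [injective_iff_map_eq_zero]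
  intro v hv
  have hi : ∀ j b, r * dd V (D.U j) x v * D.W b j x +
      (2 * r + r * D.U j x) * dd V (D.W b j) x v = 0 := by
    intro j b
    have h := D.diff_apply r x v (D.e.symm (j, b))
    rw [hv] at h
    simp only [Equiv.apply_symm_apply, PiLp.zero_apply] at h
    exact h.symm
  have hdU : ∀ j, dd V (D.U j) x v = 0 := by
    intro j
    have h0 := hi j 0
    have h1 := hi j 1
    have h2 := D.sum_W_dW j x v
    have h3 := D.hW1 j x
    have h4 : r * dd V (D.U j) x v = 0 := by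
      linear_combination D.W 0 j x * h0 + D.W 1 j x * h1 - (2 * r + r * D.U j x) * h2 -
        (r * dd V (D.U j) x v) * h3
    exact (mul_eq_zero.1 h4).resolve_left hr.ne'
  refine D.inj x v hdU fun b j => ?_
  have h := hi j b
  rw [hdU j] at h
  simp only [mul_zero, zero_mul, zero_add] at h
  exact (mul_eq_zero.1 h).resolve_left (D.rho_pos hr x j).ne'

theorem nrm_norm (x : X) : ‖D.nrm x‖ = 1 := by
  have h : ‖D.nrm x‖ ^ 2 = 1 := by
    rw [EuclideanSpace.norm_sq_eq]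
    have h1 : ∀ i, ‖(D.nrm x) i‖ ^ 2 = (D.U (D.e i).1 x) ^ 2 * (D.W (D.e i).2 (D.e i).1 x) ^ 2 := by
      intro i
      rw [Real.norm_eq_abs, sq_abs]
      change (D.U (D.e i).1 x * D.W (D.e i).2 (D.e i).1 x) ^ 2 = _
      ring
    simp_rw [h1]
    rw [D.sum_e (fun j b => (D.U j x) ^ 2 * (D.W b j x) ^ 2)]
    simp_rw [← Finset.mul_sum, Fin.sum_univ_two, D.hW1, mul_one]
    exact D.hU1 x
  have h0 := norm_nonneg (D.nrm x)
  nlinarith

theorem nrm_mem {r : ℝ} (x : X) : D.nrm x ∈ normalSpace V (D.f r) x := by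
  rw [normalSpace, Submodule.mem_orthogonal]
  rintro _ ⟨v, rfl⟩
  change inner ℝ (differential V (D.f r) x v) (D.nrm x) = 0
  rw [PiLp.inner_apply]
  have h1 : ∀ i, inner ℝ ((differential V (D.f r) x v) i) ((D.nrm x) i) =
      (fun (j : Fin l) (b : Fin 2) => D.U j x * D.W b j x *
        (r * dd V (D.U j) x v * D.W b j x +
      (2 * r + r * D.U j x) *
        dd V (D.W b j) x v)) (D.e i).1 (D.e i).2 := by
    intro i
    rw [D.diff_apply]
    simp only [RCLike.inner_apply, conj_trivial]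
    change (D.U (D.e i).1 x * D.W (D.e i).2 (D.e i).1 x) * _ = _
    rfl
  rw [D.sum_e' (fun (j : Fin l) (b : Fin 2) => D.U j x * D.W b j x *
        (r * dd V (D.U j) x v * D.W b j x + (2 * r + r * D.U j x) * dd V (D.W b j) x v)) h1]
  have h2 : ∀ j, ∑ b, D.U j x * D.W b j x *
        (r * dd V (D.U j) x v * D.W b j x +
      (2 * r + r * D.U j x) *
        dd V (D.W b j) x v) =
      r * (D.U j x * dd V (D.U j) x v) := by
    intro j
    rw [Fin.sum_univ_two]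
    have e1 := D.hW1 j x
    have e2 := D.sum_W_dW j x v
    linear_combination (D.U j x * r * dd V (D.U j) x v) * e1 +
      (D.U j x * (2 * r + r * D.U j x)) * e2
  simp_rw [h2]
  rw [← Finset.mul_sum, D.sum_U_dU, mul_zero]

theorem finiteDimensional (hN : 0 < Module.finrank ℝ V) : FiniteDimensional ℝ V :=
  Module.finite_of_finrank_pos hN

theorem finrank_normal {r : ℝ} (hr : 0 < r) (x : X) :
    Module.finrank ℝ (normalSpace V (D.f r) x) = 1 := by
  have h1 := Submodule.finrank_add_finrank_orthogonal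
    (LinearMap.range (differential V (D.f r) x).toLinearMap)
  rw [LinearMap.finrank_range_of_inj ((D.immersion hr).2 x), finrank_euclideanSpace,
    Fintype.card_fin] at h1
  have h0 := D.dim
  have h2 : Module.finrank ℝ (LinearMap.range (differential V (D.f r) x).toLinearMap)ᗮ = 1 := by
    omega
  exact h2

theorem proj_norm {r : ℝ} (hr : 0 < r) (x : X) (z : EuclideanSpace ℝ (Fin N)) :
    ‖(normalSpace V (D.f r) x).starProjection z‖ = |inner ℝ (D.nrm x) z| := by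
  set K := normalSpace V (D.f r) x with hK
  have h1 := D.finrank_normal hr x
  have hn : D.nrm x ∈ K := D.nrm_mem x
  have hn0 : (⟨D.nrm x, hn⟩ : K) ≠ 0 := by
    intro h
    have h2 := congrArg Subtype.val h
    have h3 := D.nrm_norm x
    have h4 : D.nrm x = 0 := h2
    rw [h4, norm_zero] at h3
    exact zero_ne_one h3
  obtain ⟨c, hc⟩ := exists_smul_eq_of_finrank_eq_one h1 hn0 ⟨K.starProjection z, K.starProjection_apply_mem z⟩
  have hc' : c • D.nrm x = K.starProjection z := congrArg Subtype.val hc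
  have h5 : inner ℝ (D.nrm x) z = c := by
    have h6 : inner ℝ (D.nrm x) (z - K.starProjection z) = 0 :=
      (Submodule.mem_orthogonal K _).1 (K.sub_starProjection_mem_orthogonal z) _ hn
    rw [inner_sub_right, sub_eq_zero] at h6
    rw [h6, ← hc', inner_smul_right, real_inner_self_eq_norm_sq, D.nrm_norm]
    ring
  rw [h5, ← hc', norm_smul, D.nrm_norm, mul_one, Real.norm_eq_abs]

theorem comp_smooth {F : Type} [NormedAddCommGroup F] [NormedSpace ℝ F] {g : X → F}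
    (hg : ContMDiff 𝓘(ℝ, V) 𝓘(ℝ, F) ∞ g) {γ : ℝ → X} (hγ : ContMDiff 𝓘(ℝ, ℝ) 𝓘(ℝ, V) ∞ γ) :
    ContDiff ℝ ∞ (g ∘ γ) :=
  contMDiff_iff_contDiff.1 (hg.comp hγ)

theorem deriv_coord {g : ℝ → EuclideanSpace ℝ (Fin N)} (hg : Differentiable ℝ g) (i : Fin N) (t : ℝ) :
    (deriv g t) i = deriv (fun t => g t i) t := by
  have h1 := (EuclideanSpace.proj (𝕜 := ℝ) (ι := Fin N) i).hasFDerivAt.comp_hasDerivAt t
    (hg t).hasDerivAt
  exact h1.deriv.symm

theorem curvature_le {r : ℝ} (hr : 0 < r) : curvature V (D.f r) ≤ ENNReal.ofReal (1 / r) := by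
  refine iSup_le fun γ => iSup_le fun hγ => iSup_le fun hsp => ?_
  apply ENNReal.ofReal_le_ofReal
  rw [D.proj_norm hr]
  have hg : ContDiff ℝ ∞ (D.f r ∘ γ) := comp_smooth (D.f_smooth r) hγ
  have hg1 : Differentiable ℝ (D.f r ∘ γ) := hg.differentiable (by simp)
  have hg2 : Differentiable ℝ (deriv (D.f r ∘ γ)) :=
    ((contDiff_infty_iff_deriv.1 hg).2).differentiable (by simp)
  have hu : ∀ j, ContDiff ℝ ∞ (fun t => D.U j (γ t)) := fun j => comp_smooth (D.hU j) hγ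
  have hw : ∀ b j, ContDiff ℝ ∞ (fun t => D.W b j (γ t)) := fun b j => comp_smooth (D.hW b j) hγ
  have hfc : ∀ i t, ((D.f r ∘ γ) t) i =
      (2 * r + r * D.U (D.e i).1 (γ t)) * D.W (D.e i).2 (D.e i).1 (γ t) := fun i t => rfl
  have e1 : ∀ i t, (deriv (D.f r ∘ γ) t) i =
      deriv (fun t => (2 * r + r * D.U (D.e i).1 (γ t)) * D.W (D.e i).2 (D.e i).1 (γ t)) t := by
    intro i t
    rw [deriv_coord hg1]
    rfl
  have e2 : ∀ i, (deriv (deriv (D.f r ∘ γ)) 0) i =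
      deriv (deriv (fun t => (2 * r + r * D.U (D.e i).1 (γ t)) * D.W (D.e i).2 (D.e i).1 (γ t))) 0 := by
    intro i
    rw [deriv_coord hg2]
    congr 1
    funext t
    exact e1 i t
  have hcore := core hr (fun j t => D.U j (γ t)) (fun b j t => D.W b j (γ t)) hu hw
    (fun t => D.hU1 _) (fun j t => D.hW1 j _) (by
      have h1 : ‖deriv (D.f r ∘ γ) 0‖ ^ 2 = 1 := by rw [hsp]; norm_num
      rw [EuclideanSpace.norm_sq_eq] at h1
      have h2 : ∀ i, ‖(deriv (D.f r ∘ γ) 0) i‖ ^ 2 = (fun (j : Fin l) (b : Fin 2) =>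
          (deriv (fun t => (2 * r + r * D.U j (γ t)) * D.W b j (γ t)) 0) ^ 2) (D.e i).1 (D.e i).2 := by
        intro i
        rw [Real.norm_eq_abs, sq_abs, e1]
      rw [D.sum_e' (fun (j : Fin l) (b : Fin 2) =>
          (deriv (fun t => (2 * r + r * D.U j (γ t)) * D.W b j (γ t)) 0) ^ 2) h2] at h1
      exact h1)
  have h3 : inner ℝ (D.nrm (γ 0)) (deriv (deriv (D.f r ∘ γ)) 0) =
      ∑ j, ∑ b, D.U j (γ 0) * D.W b j (γ 0) *
        deriv (deriv (fun t => (2 * r + r * D.U j (γ t)) * D.W b j (γ t))) 0 := by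
    rw [PiLp.inner_apply]
    have h4 : ∀ i, inner ℝ ((D.nrm (γ 0)) i) ((deriv (deriv (D.f r ∘ γ)) 0) i) =
        (fun (j : Fin l) (b : Fin 2) => D.U j (γ 0) * D.W b j (γ 0) *
        deriv (deriv (fun t => (2 * r + r * D.U j (γ t)) * D.W b j (γ t))) 0)
          (D.e i).1 (D.e i).2 := by
      intro i
      rw [e2]
      simp only [RCLike.inner_apply, conj_trivial]
      change _ * (D.U (D.e i).1 (γ 0) * D.W (D.e i).2 (D.e i).1 (γ 0)) = _
      ring
    rw [D.sum_e' (fun (j : Fin l) (b : Fin 2) => D.U j (γ 0) * D.W b j (γ 0) *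
        deriv (deriv (fun t => (2 * r + r * D.U j (γ t)) * D.W b j (γ t))) 0) h4]
  rw [h3]
  exact hcore

theorem norm_le {r : ℝ} (hr : 0 < r) (hr1 : r * (2 * √l + 1) ≤ 1) (x : X) : ‖D.f r x‖ ≤ 1 := by
  have hsq : ‖D.f r x‖ ^ 2 = r ^ 2 * (4 * l + 4 * ∑ j, D.U j x + 1) := by
    rw [EuclideanSpace.norm_sq_eq]
    have h1 : ∀ i, ‖(D.f r x) i‖ ^ 2 = (fun (j : Fin l) (b : Fin 2) =>
        (2 * r + r * D.U j x) ^ 2 * (D.W b j x) ^ 2) (D.e i).1 (D.e i).2 := by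
      intro i
      rw [Real.norm_eq_abs, sq_abs]
      change ((2 * r + r * D.U (D.e i).1 x) * D.W (D.e i).2 (D.e i).1 x) ^ 2 = _
      ring
    rw [D.sum_e' (fun (j : Fin l) (b : Fin 2) =>
        (2 * r + r * D.U j x) ^ 2 * (D.W b j x) ^ 2) h1]
    simp_rw [← Finset.mul_sum, Fin.sum_univ_two, D.hW1, mul_one]
    have h2 : ∀ j, (2 * r + r * D.U j x) ^ 2 = r ^ 2 * (4 + 4 * D.U j x + D.U j x ^ 2) := by
      intro j; ring
    simp_rw [h2]
    rw [← Finset.mul_sum, Finset.sum_add_distrib, Finset.sum_add_distrib, D.hU1,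
      ← Finset.mul_sum]
    simp
    left
    ring
  have hcs : ∑ j, D.U j x ≤ √l := by
    apply Real.le_sqrt_of_sq_le
    have h := sq_sum_le_card_mul_sum_sq (s := (Finset.univ : Finset (Fin l))) (f := fun j => D.U j x)
    rw [D.hU1] at h
    simpa using h
  have hl : (√(l : ℝ)) ^ 2 = l := Real.sq_sqrt (by positivity)
  have h3 : ‖D.f r x‖ ^ 2 ≤ (r * (2 * √l + 1)) ^ 2 := by
    rw [hsq]
    have : r ^ 2 * (4 * l + 4 * ∑ j, D.U j x + 1) ≤ r ^ 2 * (4 * l + 4 * √l + 1) := by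
      apply mul_le_mul_of_nonneg_left _ (sq_nonneg r)
      linarith
    calc r ^ 2 * (4 * l + 4 * ∑ j, D.U j x + 1) ≤ r ^ 2 * (4 * l + 4 * √l + 1) := this
      _ = (r * (2 * √l + 1)) ^ 2 := by
        rw [mul_pow]
        congr 1
        nlinarith
  have h4 : 0 ≤ r * (2 * √l + 1) := by positivity
  have h5 := norm_nonneg (D.f r x)
  have h6 : ‖D.f r x‖ ≤ r * (2 * √l + 1) := by
    exact (sq_le_sq₀ h5 h4).1 h3
  linarith

end Data

end Pool.Agent.W556.Tube
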